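import Pool.Agent.J6H78.FC.Cert

/-! # The certificate of one factor -/

set_option autoImplicit false

open MeasureTheory Set
open scoped ENNReal

namespace Pool.Agent.J6H78.FC

/-- `∫_τ¹ arccos`. -/
noncomputable def EE (τ : ℝ) : ℝ := √(1 - τ ^ 2) - τ * Real.arccos τ

lemma int_arccos {τ : ℝ} (h0 : 0 ≤ τ) (h1 : τ ≤ 1) : ∫ c in τ..1, Real.arccos c = EE τ := by
  have := intervalIntegral.integral_eq_sub_of_hasDerivAt_of_le (a := τ) (b := 1)
    (f := fun c => c * Real.arccos c - √(1 - c ^ 2)) (f' := Real.arccos) h1 ?_ ?_ ?_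
  · rw [this]
    simp [EE]
  · exact (continuous_id.mul Real.continuous_arccos).sub
      (Real.continuous_sqrt.comp (by fun_prop)) |>.continuousOn
  · intro c hc
    have hc1 : -1 < c := by linarith [hc.1]
    have hpos : 0 < 1 - c ^ 2 := by nlinarith [hc.1, hc.2]
    have e1 := (hasDerivAt_id c).mul (Real.hasDerivAt_arccos hc1.ne' hc.2.ne)
    have e2 : HasDerivAt (fun c : ℝ => 1 - c ^ 2) (-(2 * c)) c := by
      simpa using (hasDerivAt_pow 2 c).const_sub 1
    have e3 := e1.sub (e2.sqrt hpos.ne')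
    refine e3.congr_deriv ?_
    have hs : √(1 - c ^ 2) ≠ 0 := (Real.sqrt_pos.2 hpos).ne'
    simp only [id]
    field_simp
    ring
  · exact Real.continuous_arccos.intervalIntegrable _ _

lemma lint_arccos {τ : ℝ} (h0 : 0 ≤ τ) (h1 : τ ≤ 1) :
    ∫⁻ c in Ioc τ 1, ENNReal.ofReal (Real.arccos c) = ENNReal.ofReal (EE τ) := by
  rw [← int_arccos h0 h1, intervalIntegral.integral_of_le h1,
    ofReal_integral_eq_lintegral_ofReal]
  · exact (Real.continuous_arccos.intervalIntegrable _ _).1
  · exact Filter.Eventually.of_forall fun c => Real.arccos_nonneg c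

/-- The hitting time. -/
noncomputable def hit (T : ℝ) (g : ℝ → ℝ) (c : ℝ) : ℝ :=
  sSup (insert 0 {s | 0 ≤ s ∧ s ≤ T + 1 ∧ c < g (min s T)})

lemma hit_bdd (T : ℝ) (g : ℝ → ℝ) (c : ℝ) :
    BddAbove (insert 0 {s | 0 ≤ s ∧ s ≤ T + 1 ∧ c < g (min s T)}) :=
  ⟨max 0 (T + 1), by
    rintro s (rfl | hs)
    · exact le_max_left _ _
    · exact hs.2.1.trans (le_max_right _ _)⟩

lemma hit_nonneg (T : ℝ) (g : ℝ → ℝ) (c : ℝ) : 0 ≤ hit T g c :=
  le_csSup (hit_bdd T g c) (mem_insert _ _)

lemma hit_anti (T : ℝ) (g : ℝ → ℝ) : Antitone (hit T g) := by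
  intro c c' h
  refine csSup_le_csSup (hit_bdd T g c) ⟨0, mem_insert _ _⟩ (insert_subset_insert ?_)
  exact fun s hs => ⟨hs.1, hs.2.1, h.trans_lt hs.2.2⟩

lemma lt_hit {T : ℝ} {g : ℝ → ℝ} (hg : Continuous g) (ha : AntitoneOn g (Ici 0)) {t : ℝ}
    (ht : t ∈ Icc 0 T) (c : ℝ) : t < hit T g c ↔ c < g t := by
  constructor
  · intro h
    obtain ⟨s, hs, hts⟩ := exists_lt_of_lt_csSup ⟨0, mem_insert _ _⟩ h
    rcases hs with rfl | hs
    · exact absurd hts (not_lt.2 ht.1)
    · refine hs.2.2.trans_le (ha ht.1 (le_min hs.1 (ht.1.trans ht.2)) (le_min hts.le ht.2))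
  · intro h
    rcases ht.2.lt_or_eq with h1 | h1
    · have : ∀ᶠ s in nhds t, c < g s := hg.continuousAt.eventually (lt_mem_nhds h)
      obtain ⟨ε, hε, hb⟩ := Metric.eventually_nhds_iff.1 this
      have hs : min (t + ε / 2) T ∈ {s | 0 ≤ s ∧ s ≤ T + 1 ∧ c < g (min s T)} := by
        refine ⟨le_min (by linarith [ht.1]) (ht.1.trans ht.2), (min_le_right _ _).trans
          (by linarith), ?_⟩
        rw [min_assoc, min_self]
        refine hb ?_
        rw [Real.dist_eq, abs_lt]
        constructor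
        · have : t ≤ min (t + ε / 2) T := le_min (by linarith) ht.2
          linarith
        · have : min (t + ε / 2) T ≤ t + ε / 2 := min_le_left _ _
          linarith
      exact (lt_min (by linarith) h1).trans_le (le_csSup (hit_bdd T g c) (mem_insert_of_mem _ hs))
    · have hs : T + 1 ∈ {s | 0 ≤ s ∧ s ≤ T + 1 ∧ c < g (min s T)} := by
        refine ⟨by linarith [ht.1.trans ht.2], le_rfl, ?_⟩
        rw [min_eq_right (by linarith), ← h1]
        exact h
      exact lt_of_lt_of_le (by linarith) (le_csSup (hit_bdd T g c) (mem_insert_of_mem _ hs))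

/-- The certificate of one factor. -/
theorem base_cert {T : ℝ} (hT : 0 ≤ T) (hT2 : T ≤ Real.pi / 2) {f g : ℝ → ℝ} (hf : Measurable f)
    (hg : Continuous g) (ha : AntitoneOn g (Ici 0)) (hg0 : g 0 = 1) (hgn : ∀ s ∈ Icc 0 T, 0 ≤ g s)
    (hgf : ∀ s ∈ Icc 0 T, g s ≤ f s)
    (hmain : ∀ t ∈ Icc 0 T, ENNReal.ofReal (t * g t + EE (g t)) ≤
      ∫⁻ s in Ioc 0 t, ENNReal.ofReal (f s)) :
    Nonempty (Cert T (fun s => ENNReal.ofReal (f s)) (fun s => ENNReal.ofReal (g s)) 1) := by
  have hg1 : ∀ s ∈ Icc 0 T, g s ≤ 1 := fun s hs => by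
    rw [← hg0]; exact ha (mem_Ici.2 le_rfl) hs.1 hs.1
  haveI : IsProbabilityMeasure (volume.restrict (Ioc (0 : ℝ) 1)) := ⟨by simp⟩
  refine ⟨{
    Ω := ℝ
    P := volume.restrict (Ioc (0 : ℝ) 1)
    σ := hit T g
    W := Real.arccos
    V := fun c => ENNReal.ofReal (Real.arccos c)
    hσ := (hit_anti T g).measurable
    hW := Real.continuous_arccos.measurable
    hV := Real.continuous_arccos.measurable.ennreal_ofReal
    σ0 := hit_nonneg T g
    tail := ?_
    atom := ?_
    WV := fun _ => le_rfl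
    Wt := ?_
    GN := fun s hs => ENNReal.ofReal_le_ofReal (hgf s hs)
    mN := hf.ennreal_ofReal
    main := ?_ }⟩
  · intro s hs
    have e1 : {c | s < hit T g c} = Iio (g s) := by
      ext c; exact lt_hit hg ha hs c
    rw [e1, Measure.restrict_apply measurableSet_Iio]
    have e2 : Iio (g s) ∩ Ioc (0 : ℝ) 1 = Ioo 0 (g s) := by
      ext c
      simp only [mem_inter_iff, mem_Iio, mem_Ioc, mem_Ioo]
      constructor
      · rintro ⟨h1, h2, h3⟩; exact ⟨h2, h1⟩
      · rintro ⟨h1, h2⟩; exact ⟨h2, h1, (h2.trans_le (hg1 s hs)).le⟩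
    rw [e2, Real.volume_Ioo, sub_zero]
  · intro s hs
    have hms : MeasurableSet {c | hit T g c = s} :=
      measurableSet_eq_fun (hit_anti T g).measurable measurable_const
    rw [Measure.restrict_apply hms]
    refine measure_mono_null (t := {g s}) (fun c hc => ?_) (by simp)
    obtain ⟨hc1, hc2⟩ := hc
    have hc1 : hit T g c = s := hc1
    rw [mem_singleton_iff]
    have h1 : g s ≤ c := by
      by_contra h
      exact absurd ((lt_hit hg ha hs c).2 (not_le.1 h)) (by rw [hc1]; exact lt_irrefl _)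
    refine le_antisymm ?_ h1
    by_contra h
    rw [not_le] at h
    rcases hs.1.eq_or_lt with h0 | h0
    · rw [← h0, hg0] at h
      exact absurd hc2.2 (not_le.2 h)
    · have : ∀ᶠ s' in nhds s, g s' < c := hg.continuousAt.eventually (gt_mem_nhds h)
      obtain ⟨ε, hε, hb⟩ := Metric.eventually_nhds_iff.1 this
      have hm : max 0 (s - ε / 2) < s := max_lt h0 (by linarith)
      have h2 : g (max 0 (s - ε / 2)) < c := by
        refine hb ?_
        rw [Real.dist_eq, abs_lt]
        constructor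
        · have := le_max_right 0 (s - ε / 2)
          linarith
        · linarith
      have h3 : max 0 (s - ε / 2) ∈ Icc 0 T := ⟨le_max_left _ _, hm.le.trans hs.2⟩
      exact absurd ((lt_hit hg ha h3 c).1 (by rw [hc1]; exact hm)) (not_lt.2 h2.le)
  · intro u hu
    have e1 : {c | u < Real.arccos c} ∩ Ioc (0 : ℝ) 1 = Ioo 0 (Real.cos u) := by
      have hu1 : u ≤ Real.pi := by linarith [hu.2, Real.pi_pos]
      ext c
      simp only [mem_inter_iff, mem_Ioc, mem_Ioo]
      constructor
      · rintro ⟨h1, h2, h3⟩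
        refine ⟨h2, ?_⟩
        have h1 : u < Real.arccos c := h1
        rw [← Real.cos_arccos (by linarith) h3]
        exact Real.cos_lt_cos_of_nonneg_of_le_pi hu.1 (Real.arccos_le_pi c) h1
      · rintro ⟨h1, h2⟩
        refine ⟨?_, h1, h2.le.trans (Real.cos_le_one u)⟩
        show u < Real.arccos c
        rw [← Real.arccos_cos hu.1 hu1]
        exact Real.arccos_lt_arccos (by linarith) h2 (Real.cos_le_one u)
    rw [Measure.restrict_apply (measurableSet_lt measurable_const
      Real.continuous_arccos.measurable), e1, Real.volume_Ioo, sub_zero, pow_one]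
  · intro t ht
    refine le_trans (le_of_eq ?_) (hmain t ht)
    have hgt0 := hgn t ht
    have hgt1 := hg1 t ht
    have e0 : ∀ c, (if t < hit T g c then ENNReal.ofReal t else ENNReal.ofReal (Real.arccos c)) =
        (if c < g t then ENNReal.ofReal t else ENNReal.ofReal (Real.arccos c)) := by
      intro c
      simp only [lt_hit hg ha ht c]
    simp_rw [e0]
    rw [← Ioc_union_Ioc_eq_Ioc hgt0 hgt1, lintegral_union measurableSet_Ioc
      (Ioc_disjoint_Ioc_of_le le_rfl)]
    have e1 : ∫⁻ c in Ioc 0 (g t), (if c < g t then ENNReal.ofReal t else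
        ENNReal.ofReal (Real.arccos c)) = ENNReal.ofReal (t * g t) := by
      rw [setLIntegral_congr Ioo_ae_eq_Ioc.symm]
      rw [setLIntegral_congr_fun measurableSet_Ioo (g := fun _ => ENNReal.ofReal t)
        (fun c hc => by rw [if_pos hc.2])]
      rw [setLIntegral_const, Real.volume_Ioo, sub_zero, ENNReal.ofReal_mul ht.1]
    have e2 : ∫⁻ c in Ioc (g t) 1, (if c < g t then ENNReal.ofReal t else
        ENNReal.ofReal (Real.arccos c)) = ENNReal.ofReal (EE (g t)) := by
      rw [← lint_arccos hgt0 hgt1]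
      exact setLIntegral_congr_fun measurableSet_Ioc
        (fun c hc => by rw [if_neg (not_lt.2 hc.1.le)])
    rw [e1, e2, ← ENNReal.ofReal_add]
    · exact mul_nonneg ht.1 hgt0
    · rw [← int_arccos hgt0 hgt1]
      exact intervalIntegral.integral_nonneg hgt1 fun c _ => Real.arccos_nonneg c

end Pool.Agent.J6H78.FC
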