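import Mathlib

/-! # Product of certificates

A certificate for a function `N` on `[0, T]` bounds the integrals `∫₀ᵗ N` from below by the
expectation of a stopped quantity; certificates multiply. -/

set_option autoImplicit false

open MeasureTheory Set
open scoped ENNReal

namespace Pool.Agent.J6H78.FC

/-- A certificate on a probability space. -/
structure Cert (T : ℝ) (N G : ℝ → ℝ≥0∞) (k : ℕ) where
  Ω : Type
  [m : MeasurableSpace Ω]
  P : Measure Ω
  [pr : IsProbabilityMeasure P]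
  σ : Ω → ℝ
  W : Ω → ℝ
  V : Ω → ℝ≥0∞
  hσ : Measurable σ
  hW : Measurable W
  hV : Measurable V
  σ0 : ∀ ω, 0 ≤ σ ω
  tail : ∀ s ∈ Icc 0 T, P {ω | s < σ ω} = G s
  atom : ∀ s ∈ Icc 0 T, P {ω | σ ω = s} = 0
  WV : ∀ ω, ENNReal.ofReal (W ω) ≤ V ω
  Wt : ∀ u ∈ Icc 0 T, P {ω | u < W ω} = ENNReal.ofReal (Real.cos u) ^ k
  GN : ∀ s ∈ Icc 0 T, G s ≤ N s
  mN : Measurable N
  main : ∀ t ∈ Icc 0 T, ∫⁻ ω, (if t < σ ω then ENNReal.ofReal t else V ω) ∂P ≤
    ∫⁻ s in Ioc 0 t, N s

attribute [instance] Cert.m Cert.pr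

/-- Layers of a random time. -/
lemma layer {Ω : Type} [MeasurableSpace Ω] (P : Measure Ω) [IsProbabilityMeasure P] {X : Ω → ℝ}
    (hX : Measurable X) {N : ℝ → ℝ≥0∞} (hN : Measurable N) (t : ℝ) :
    ∫⁻ ω, (∫⁻ s in Ioc 0 (min t (X ω)), N s) ∂P = ∫⁻ s in Ioc 0 t, N s * P {ω | s < X ω} := by
  have h1 : ∀ ω, ∫⁻ s in Ioc 0 (min t (X ω)), N s =
      ∫⁻ s in Ioc 0 t, (Iio (X ω)).indicator N s := by
    intro ω
    rw [lintegral_indicator measurableSet_Iio, Measure.restrict_restrict measurableSet_Iio]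
    refine setLIntegral_congr ?_
    have e1 : Ioc 0 (min t (X ω)) = Iic (X ω) ∩ Ioc 0 t := by
      ext s; simp only [mem_Ioc, mem_inter_iff, mem_Iic, le_min_iff]; tauto
    rw [e1]
    exact (Iio_ae_eq_Iic.symm).inter (ae_eq_refl _)
  simp_rw [h1]
  rw [lintegral_lintegral_swap]
  · refine lintegral_congr fun s => ?_
    have e2 : ∀ ω, (Iio (X ω)).indicator N s = {ω | s < X ω}.indicator (fun _ => N s) ω := by
      intro ω
      by_cases h : s < X ω
      · rw [indicator_of_mem (show s ∈ Iio (X ω) from h),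
          indicator_of_mem (show ω ∈ {ω | s < X ω} from h)]
      · rw [indicator_of_notMem (show s ∉ Iio (X ω) from h),
          indicator_of_notMem (show ω ∉ {ω | s < X ω} from h)]
    simp_rw [e2]
    rw [lintegral_indicator_const (measurableSet_lt measurable_const hX)]
  · have : (Function.uncurry fun ω s => (Iio (X ω)).indicator N s) =
        {p : Ω × ℝ | p.2 < X p.1}.indicator fun p => N p.2 := by
      ext ⟨ω, s⟩
      simp only [Function.uncurry]
      by_cases h : s < X ω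
      · rw [indicator_of_mem (show s ∈ Iio (X ω) from h),
          indicator_of_mem (show (ω, s) ∈ {p : Ω × ℝ | p.2 < X p.1} from h)]
      · rw [indicator_of_notMem (show s ∉ Iio (X ω) from h),
          indicator_of_notMem (show (ω, s) ∉ {p : Ω × ℝ | p.2 < X p.1} from h)]
    rw [this]
    exact ((hN.comp measurable_snd).indicator
      (measurableSet_lt measurable_snd (hX.comp measurable_fst))).aemeasurable

lemma layer_one {Ω : Type} [MeasurableSpace Ω] (P : Measure Ω) [IsProbabilityMeasure P]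
    {X : Ω → ℝ} (hX : Measurable X) (t : ℝ) :
    ∫⁻ ω, ENNReal.ofReal (min t (X ω)) ∂P = ∫⁻ s in Ioc 0 t, P {ω | s < X ω} := by
  have := layer P hX (N := fun _ => 1) measurable_const t
  simpa [sub_zero] using this

/-- The last inequality. -/
theorem Cert.final {T : ℝ} {N G : ℝ → ℝ≥0∞} {k : ℕ} (C : Cert T N G k) (hT : 0 ≤ T) :
    ∫⁻ u in Ioc 0 T, ENNReal.ofReal (Real.cos u) ^ k ≤ ∫⁻ s in Ioc 0 T, N s := by
  have h1 : ∫⁻ u in Ioc 0 T, ENNReal.ofReal (Real.cos u) ^ k =
      ∫⁻ ω, ENNReal.ofReal (min T (C.W ω)) ∂C.P := by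
    rw [layer_one C.P C.hW]
    exact setLIntegral_congr_fun measurableSet_Ioc fun u hu => (C.Wt u ⟨hu.1.le, hu.2⟩).symm
  rw [h1]
  refine le_trans ?_ (C.main T ⟨hT, le_rfl⟩)
  refine lintegral_mono fun ω => ?_
  dsimp only
  split_ifs with h
  · exact ENNReal.ofReal_le_ofReal (min_le_left _ _)
  · exact (ENNReal.ofReal_le_ofReal (min_le_right _ _)).trans (C.WV ω)

/-- The trivial certificate. -/
noncomputable def Cert.one {T : ℝ} (hT : 0 ≤ T) : Cert T (fun _ => 1) (fun _ => 1) 0 where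
  Ω := Unit
  P := Measure.dirac ()
  σ := fun _ => T + 1
  W := fun _ => T + 1
  V := fun _ => ENNReal.ofReal (T + 1)
  hσ := measurable_const
  hW := measurable_const
  hV := measurable_const
  σ0 := fun _ => by linarith
  tail := fun s hs => by
    have : {ω : Unit | s < T + 1} = univ := by
      ext; simp; linarith [hs.2]
    rw [this]; simp
  atom := fun s hs => by
    have : {ω : Unit | T + 1 = s} = ∅ := by
      ext; simp; linarith [hs.2]
    rw [this]; simp
  WV := fun _ => le_rfl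
  Wt := fun u hu => by
    have : {ω : Unit | u < T + 1} = univ := by
      ext; simp; linarith [hu.2]
    rw [this]; simp
  GN := fun _ _ => le_rfl
  mN := measurable_const
  main := fun t ht => by
    have : t < T + 1 := by linarith [ht.2]
    simp [this]

lemma stop_le {a b t : ℝ} {V₁ V₂ : ℝ≥0∞} (h : ¬ (a = b ∧ b ≤ t)) :
    (if t < min a b then ENNReal.ofReal t else (if a < b then V₁ else V₂)) +
      ENNReal.ofReal (min t (min a b)) ≤
    (if min t b < a then ENNReal.ofReal (min t b) else V₁) +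
      (if min t a < b then ENNReal.ofReal (min t a) else V₂) := by
  rcases lt_or_ge t (min a b) with h1 | h1
  · have ha : t < a := h1.trans_le (min_le_left _ _)
    have hb : t < b := h1.trans_le (min_le_right _ _)
    rw [if_pos h1, min_eq_left h1.le, min_eq_left hb.le, min_eq_left ha.le, if_pos ha, if_pos hb]
  · rw [if_neg (not_lt.2 h1), min_eq_right h1]
    rcases lt_trichotomy a b with hab | hab | hab
    · rw [min_eq_left hab.le] at h1 ⊢
      rw [if_pos hab, if_neg (not_lt.2 (le_min h1 hab.le)), min_eq_right h1, if_pos hab]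
    · exact absurd ⟨hab, by rwa [hab, min_self] at h1⟩ h
    · rw [min_eq_right hab.le] at h1 ⊢
      rw [if_neg (not_lt.2 hab.le), min_eq_right h1, if_pos hab,
        if_neg (not_lt.2 (le_min h1 hab.le)), add_comm]

/-- Certificates multiply. -/
noncomputable def Cert.mul {T : ℝ} {N₁ G₁ N₂ G₂ : ℝ → ℝ≥0∞} {k₁ k₂ : ℕ} (C : Cert T N₁ G₁ k₁)
    (D : Cert T N₂ G₂ k₂) :
    Cert T (fun s => N₁ s * N₂ s) (fun s => G₁ s * G₂ s) (k₁ + k₂) where
  Ω := C.Ω × D.Ω
  P := C.P.prod D.P
  σ := fun p => min (C.σ p.1) (D.σ p.2)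
  W := fun p => min (C.W p.1) (D.W p.2)
  V := fun p => if C.σ p.1 < D.σ p.2 then C.V p.1 else D.V p.2
  hσ := (C.hσ.comp measurable_fst).min (D.hσ.comp measurable_snd)
  hW := (C.hW.comp measurable_fst).min (D.hW.comp measurable_snd)
  hV := Measurable.ite (measurableSet_lt (C.hσ.comp measurable_fst) (D.hσ.comp measurable_snd))
    (C.hV.comp measurable_fst) (D.hV.comp measurable_snd)
  σ0 := fun p => le_min (C.σ0 _) (D.σ0 _)
  tail := fun s hs => by
    have : {p : C.Ω × D.Ω | s < min (C.σ p.1) (D.σ p.2)} =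
        {ω | s < C.σ ω} ×ˢ {ω | s < D.σ ω} := by
      ext ⟨x, y⟩; simp
    rw [this, Measure.prod_prod, C.tail s hs, D.tail s hs]
  atom := fun s hs => by
    have : {p : C.Ω × D.Ω | min (C.σ p.1) (D.σ p.2) = s} ⊆
        ({ω | C.σ ω = s} ×ˢ univ) ∪ (univ ×ˢ {ω | D.σ ω = s}) := by
      rintro ⟨x, y⟩ h
      have h : min (C.σ x) (D.σ y) = s := h
      rcases min_choice (C.σ x) (D.σ y) with h' | h'
      · left; exact ⟨h'.symm.trans h, mem_univ _⟩
      · right; exact ⟨mem_univ _, h'.symm.trans h⟩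
    refine measure_mono_null this (measure_union_null ?_ ?_)
    · rw [Measure.prod_prod, C.atom s hs, zero_mul]
    · rw [Measure.prod_prod, D.atom s hs, mul_zero]
  WV := fun p => by
    split_ifs with h
    · exact (ENNReal.ofReal_le_ofReal (min_le_left _ _)).trans (C.WV _)
    · exact (ENNReal.ofReal_le_ofReal (min_le_right _ _)).trans (D.WV _)
  Wt := fun s hs => by
    have : {p : C.Ω × D.Ω | s < min (C.W p.1) (D.W p.2)} =
        {ω | s < C.W ω} ×ˢ {ω | s < D.W ω} := by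
      ext ⟨x, y⟩; simp
    rw [this, Measure.prod_prod, C.Wt s hs, D.Wt s hs, pow_add]
  GN := fun s hs => mul_le_mul' (C.GN s hs) (D.GN s hs)
  mN := C.mN.mul D.mN
  main := fun t ht => by
    have mσ₁ : Measurable fun p : C.Ω × D.Ω => C.σ p.1 := C.hσ.comp measurable_fst
    have mσ₂ : Measurable fun p : C.Ω × D.Ω => D.σ p.2 := D.hσ.comp measurable_snd
    have mV₁ : Measurable fun p : C.Ω × D.Ω => C.V p.1 := C.hV.comp measurable_fst
    have mV₂ : Measurable fun p : C.Ω × D.Ω => D.V p.2 := D.hV.comp measurable_snd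
    set M : ℝ≥0∞ := ∫⁻ s in Ioc 0 t, G₁ s * G₂ s with hM
    have hM1 : ∫⁻ p, ENNReal.ofReal (min t (min (C.σ p.1) (D.σ p.2))) ∂(C.P.prod D.P) = M := by
      rw [layer_one (C.P.prod D.P) (mσ₁.min mσ₂)]
      refine setLIntegral_congr_fun measurableSet_Ioc fun s hs => ?_
      have hs' : s ∈ Icc 0 T := ⟨hs.1.le, hs.2.trans ht.2⟩
      have : {p : C.Ω × D.Ω | s < min (C.σ p.1) (D.σ p.2)} =
          {ω | s < C.σ ω} ×ˢ {ω | s < D.σ ω} := by
        ext ⟨x, y⟩; simp
      rw [this, Measure.prod_prod, C.tail s hs', D.tail s hs']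
    have hMfin : M ≠ ⊤ := by
      rw [← hM1]
      refine ne_of_lt (lt_of_le_of_lt (lintegral_mono
        (g := fun _ => ENNReal.ofReal t) fun p => ENNReal.ofReal_le_ofReal (min_le_left _ _)) ?_)
      simp
    -- the two one-sided terms
    have hA : ∫⁻ p, (if min t (D.σ p.2) < C.σ p.1 then ENNReal.ofReal (min t (D.σ p.2))
        else C.V p.1) ∂(C.P.prod D.P) ≤ ∫⁻ s in Ioc 0 t, N₁ s * G₂ s := by
      have hm : Measurable fun p : C.Ω × D.Ω =>
          (if min t (D.σ p.2) < C.σ p.1 then ENNReal.ofReal (min t (D.σ p.2)) else C.V p.1) :=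
        Measurable.ite (measurableSet_lt (measurable_const.min mσ₂) mσ₁)
          (measurable_const.min mσ₂).ennreal_ofReal mV₁
      rw [lintegral_prod_symm _ hm.aemeasurable]
      calc ∫⁻ y, ∫⁻ x, (if min t (D.σ y) < C.σ x then ENNReal.ofReal (min t (D.σ y))
            else C.V x) ∂C.P ∂D.P ≤ ∫⁻ y, (∫⁻ s in Ioc 0 (min t (D.σ y)), N₁ s) ∂D.P := by
            refine lintegral_mono fun y => ?_
            exact C.main _ ⟨le_min ht.1 (D.σ0 y), (min_le_left _ _).trans ht.2⟩
        _ = ∫⁻ s in Ioc 0 t, N₁ s * D.P {ω | s < D.σ ω} := layer D.P D.hσ C.mN t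
        _ = ∫⁻ s in Ioc 0 t, N₁ s * G₂ s :=
            setLIntegral_congr_fun measurableSet_Ioc fun s hs => by
              rw [D.tail s ⟨hs.1.le, hs.2.trans ht.2⟩]
    have hB : ∫⁻ p, (if min t (C.σ p.1) < D.σ p.2 then ENNReal.ofReal (min t (C.σ p.1))
        else D.V p.2) ∂(C.P.prod D.P) ≤ ∫⁻ s in Ioc 0 t, N₂ s * G₁ s := by
      have hm : Measurable fun p : C.Ω × D.Ω =>
          (if min t (C.σ p.1) < D.σ p.2 then ENNReal.ofReal (min t (C.σ p.1)) else D.V p.2) :=
        Measurable.ite (measurableSet_lt (measurable_const.min mσ₁) mσ₂)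
          (measurable_const.min mσ₁).ennreal_ofReal mV₂
      rw [lintegral_prod _ hm.aemeasurable]
      calc ∫⁻ x, ∫⁻ y, (if min t (C.σ x) < D.σ y then ENNReal.ofReal (min t (C.σ x))
            else D.V y) ∂D.P ∂C.P ≤ ∫⁻ x, (∫⁻ s in Ioc 0 (min t (C.σ x)), N₂ s) ∂C.P := by
            refine lintegral_mono fun x => ?_
            exact D.main _ ⟨le_min ht.1 (C.σ0 x), (min_le_left _ _).trans ht.2⟩
        _ = ∫⁻ s in Ioc 0 t, N₂ s * C.P {ω | s < C.σ ω} := layer C.P C.hσ D.mN t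
        _ = ∫⁻ s in Ioc 0 t, N₂ s * G₁ s :=
            setLIntegral_congr_fun measurableSet_Ioc fun s hs => by
              rw [C.tail s ⟨hs.1.le, hs.2.trans ht.2⟩]
    -- no ties
    have htie : (C.P.prod D.P) {p | C.σ p.1 = D.σ p.2 ∧ D.σ p.2 ≤ t} = 0 := by
      have hms : MeasurableSet {p : C.Ω × D.Ω | C.σ p.1 = D.σ p.2 ∧ D.σ p.2 ≤ t} :=
        (measurableSet_eq_fun mσ₁ mσ₂).inter (measurableSet_le mσ₂ measurable_const)
      rw [Measure.prod_apply_symm hms]
      refine (lintegral_congr fun y => ?_).trans lintegral_zero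
      by_cases hy : D.σ y ≤ t
      · have : (fun x => (x, y)) ⁻¹' {p : C.Ω × D.Ω | C.σ p.1 = D.σ p.2 ∧ D.σ p.2 ≤ t} =
            {ω | C.σ ω = D.σ y} := by
          ext x; simp [hy]
        rw [this, C.atom _ ⟨D.σ0 y, hy.trans ht.2⟩]
      · have : (fun x => (x, y)) ⁻¹' {p : C.Ω × D.Ω | C.σ p.1 = D.σ p.2 ∧ D.σ p.2 ≤ t} = ∅ := by
          ext x; simp [hy]
        rw [this, measure_empty]
    have mA : Measurable fun p : C.Ω × D.Ω =>
        (if min t (D.σ p.2) < C.σ p.1 then ENNReal.ofReal (min t (D.σ p.2)) else C.V p.1) :=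
      Measurable.ite (measurableSet_lt (measurable_const.min mσ₂) mσ₁)
        (measurable_const.min mσ₂).ennreal_ofReal mV₁
    have hsum : ∫⁻ p, (if t < min (C.σ p.1) (D.σ p.2) then ENNReal.ofReal t
        else (if C.σ p.1 < D.σ p.2 then C.V p.1 else D.V p.2)) ∂(C.P.prod D.P) + M ≤
        (∫⁻ s in Ioc 0 t, N₁ s * G₂ s) + ∫⁻ s in Ioc 0 t, N₂ s * G₁ s := by
      rw [← hM1, ← lintegral_add_right _ (measurable_const.min (mσ₁.min mσ₂)).ennreal_ofReal]
      refine le_trans (lintegral_mono_ae ?_) (le_trans (le_of_eq (lintegral_add_left mA _))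
        (add_le_add hA hB))
      rw [ae_iff]
      refine measure_mono_null (fun p hp => ?_) htie
      by_contra hc
      exact hp (stop_le hc)
    have hright : (∫⁻ s in Ioc 0 t, N₁ s * G₂ s) + ∫⁻ s in Ioc 0 t, N₂ s * G₁ s ≤
        (∫⁻ s in Ioc 0 t, N₁ s * N₂ s) + M := by
      have mNN : Measurable fun s => N₁ s * N₂ s := C.mN.mul D.mN
      rw [hM, ← lintegral_add_left mNN]
      refine (le_lintegral_add _ _).trans (setLIntegral_mono' measurableSet_Ioc fun s hs => ?_)
      have hs' : s ∈ Icc 0 T := ⟨hs.1.le, hs.2.trans ht.2⟩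
      obtain ⟨a, ha⟩ := exists_add_of_le (C.GN s hs')
      obtain ⟨b, hb⟩ := exists_add_of_le (D.GN s hs')
      rw [ha, hb]
      have : (G₁ s + a) * (G₂ s + b) + G₁ s * G₂ s =
          ((G₁ s + a) * G₂ s + (G₂ s + b) * G₁ s) + a * b := by ring
      rw [this]
      exact le_self_add
    exact (ENNReal.add_le_add_iff_right hMfin).1 (hsum.trans hright)

/-- Certificates of the factors give one of the product. -/
theorem cert_prod {T : ℝ} (hT : 0 ≤ T) {ι : Type} (S : Finset ι) {N G : ι → ℝ → ℝ≥0∞}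
    (C : ∀ i, Nonempty (Cert T (N i) (G i) 1)) :
    Nonempty (Cert T (fun s => ∏ i ∈ S, N i s) (fun s => ∏ i ∈ S, G i s) S.card) := by
  classical
  induction S using Finset.induction_on with
  | empty => simpa using ⟨Cert.one hT⟩
  | insert a S ha ih =>
    obtain ⟨D⟩ := ih
    obtain ⟨E⟩ := C a
    rw [Finset.card_insert_of_notMem ha, add_comm]
    simp_rw [Finset.prod_insert ha]
    exact ⟨E.mul D⟩

/-- The product inequality. -/
theorem prod_ineq {T : ℝ} (hT : 0 ≤ T) {d : ℕ} {N G : Fin d → ℝ → ℝ≥0∞}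
    (C : ∀ i, Nonempty (Cert T (N i) (G i) 1)) :
    ∫⁻ u in Ioc 0 T, ENNReal.ofReal (Real.cos u) ^ d ≤ ∫⁻ s in Ioc 0 T, ∏ i, N i s := by
  obtain ⟨D⟩ := cert_prod hT Finset.univ C
  rw [Finset.card_univ, Fintype.card_fin] at D
  exact D.final hT

end Pool.Agent.J6H78.FC
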