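import Pool.Agent.J6H78.FC.Main

/-! # Collars which close up -/

set_option autoImplicit false

open MeasureTheory Set Real Metric
open scoped ENNReal

namespace Pool.Agent.J6H78.FC

open Pool.Agent.Y499.HC Pool.Agent.Y499.HR

/-- A width at most `π/2` bounds the stretch from below. -/
lemma stretch_ge {R : ℝ} {f : ℝ → ℝ} (hNS : NS R f) (hf : ContinuousOn f (Ico 0 R))
    (hf0 : ∀ s ∈ Ico 0 R, 0 ≤ f s) {t : ℝ} (ht : t ∈ Ico 0 R) : π ≤ 2 * t + f t * π := by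
  have h1 := path_ineq hNS ht.1 ht.2 (clamp_comp_cont hf ht.1 ht.2) (continuous_const (y := (0 : ℝ)))
    (fun s hs => by rw [clamp_eq hs]) (by rw [clamp_eq ⟨ht.1, le_rfl⟩]; exact hf0 t ht)
  simp only [clamp_eq (show t ∈ Icc 0 t from ⟨ht.1, le_rfl⟩)] at h1
  norm_num at h1
  rwa [abs_of_pos Real.pi_pos] at h1

lemma NS_mono {R L : ℝ} (h : R ≤ L) {f : ℝ → ℝ} (hf : NS L f) : NS R f :=
  fun s θ hs hθ hsR hs0 hs3 hθ0 hθ3 =>
    hf s θ hs hθ (fun t ht => ⟨(hsR t ht).1, (hsR t ht).2.trans_le h⟩) hs0 hs3 hθ0 hθ3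

lemma good_mono {d : ℕ} {R L : ℝ} (h : R ≤ L) {m : Met d} (hm : Good L m) : Good R m := by
  have hI : Ico 0 R ⊆ Ico 0 L := Ico_subset_Ico_right h
  have hp : Ico 0 R ×ˢ sphere (0 : EuclideanSpace ℝ (Fin (d + 1))) 1 ⊆ Ico 0 L ×ˢ sphere 0 1 :=
    prod_mono hI subset_rfl
  exact ⟨hm.cont_a.mono hp, hm.cont_β.mono hp, hm.cont_g.mono hp, fun s hs => hm.symm s (hI hs),
    fun s hs => hm.nonneg s (hI hs), fun s hs => hm.lapse s (hI hs)⟩

lemma fermi_mono {d : ℕ} {R L : ℝ} (h : R ≤ L) {m : Met d} (hm : Fermi L m) : Fermi R m :=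
  fun s hs => hm s (Ico_subset_Ico_right h hs)

lemma nonshort_mono {d : ℕ} {R L : ℝ} (h : R ≤ L) {m : Met d} (hm : NonShort L m) :
    NonShort R m :=
  fun l s y hl hs hy hsR => hm l s y hl hs hy fun t ht => Ico_subset_Ico_right h (hsR t ht)

lemma vol_mono {d : ℕ} {R L : ℝ} (h : R ≤ L) (m : Met d) : vol R m ≤ vol L m :=
  lintegral_mono_set (Ioo_subset_Ioo_right h)

/-- The width of a collar one of whose stretches tends to zero. -/
theorem width_ge {d k : ℕ} (hd : 1 ≤ d) {R : ℝ} {m : Met d} {J : Fin k → E d →ₗ[ℝ] E d}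
    {κ : ℝ → E d → ℝ} {b : Fin (k + 1) → ℝ → ℝ} (hm : Good R m) (hF : Fermi R m)
    (hS : NonShort R m) (hJ : IsCliff J)
    (hκ : ContinuousOn (fun p : ℝ × E d => κ p.1 p.2) (Ico 0 R ×ˢ sphere 0 1))
    (hκ0 : ∀ s ∈ Ico 0 R, ∀ x ∈ sphere (0 : E d) 1, 0 ≤ κ s x)
    (hb : ∀ i, ContinuousOn (b i) (Ico 0 R)) (hb0 : ∀ i, ∀ s ∈ Ico 0 R, 0 ≤ b i s)
    (hsl : CliffSlices R m J κ b) {i : Fin (k + 1)} (hi : i = 0 → k < d)
    (hcl : ∀ ε > 0, ∃ s ∈ Ico 0 R, ∀ x ∈ sphere (0 : E d) 1, κ s x * b i s < ε) :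
    π / 2 ≤ R := by
  have hNS : NS R fun s => rms κ s * b i s := by
    rcases Fin.eq_zero_or_eq_succ i with h | ⟨j, rfl⟩
    · subst h
      obtain ⟨d', rfl⟩ : ∃ d', d = d' + 1 := ⟨d - 1, by omega⟩
      exact NS_hor (hi rfl) hm hF hS hJ hκ hb hsl
    · exact NS_vert hm hF hS hJ hκ hb hsl j
  have hfc : ContinuousOn (fun s => rms κ s * b i s) (Ico 0 R) := (rms_cont hκ).mul (hb i)
  refine le_of_forall_pos_le_add fun ε hε => ?_
  obtain ⟨s, hs, hx⟩ := hcl (ε / π) (div_pos hε Real.pi_pos)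
  have h1 := stretch_ge hNS hfc (fun s hs => mul_nonneg (rms_nonneg κ s) (hb0 i s hs)) hs
  have h2 : rms κ s * b i s ≤ ε / π := by
    have h3 : (rms κ s * b i s) ^ 2 ≤ (ε / π) ^ 2 := by
      rw [mul_pow, rms_sq, ← integral_mul_const]
      have hc : Continuous fun x : Sph d => κ s (x : E d) := by
        rw [← continuousOn_univ]
        exact (hκ.comp (f := fun x : E d => (s, x)) (s := sphere 0 1)
          (Continuous.prodMk_right s).continuousOn fun x hx => ⟨hs, hx⟩).comp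
          continuous_subtype_val.continuousOn fun x _ => x.2
      have h4 : ∫ x : Sph d, κ s x ^ 2 * b i s ^ 2 ∂(σn d) ≤ ∫ _x : Sph d, (ε / π) ^ 2 ∂(σn d) := by
        refine integral_mono (((hc.pow 2).mul continuous_const).integrable_of_hasCompactSupport
          (HasCompactSupport.of_compactSpace _)) (integrable_const _) fun x => ?_
        show κ s x ^ 2 * b i s ^ 2 ≤ (ε / π) ^ 2
        rw [← mul_pow]
        exact pow_le_pow_left₀ (mul_nonneg (hκ0 s hs x x.2) (hb0 i s hs)) (hx x x.2).le 2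
      simpa using h4
    exact (pow_le_pow_iff_left₀ (mul_nonneg (rms_nonneg κ s) (hb0 i s hs))
      (div_pos hε Real.pi_pos).le two_ne_zero).1 h3
  have h5 : rms κ s * b i s * π ≤ ε := by
    calc rms κ s * b i s * π ≤ ε / π * π := mul_le_mul_of_nonneg_right h2 Real.pi_pos.le
      _ = ε := by field_simp
  linarith [hs.2]

end Pool.Agent.J6H78.FC
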