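import Pool.Agent.Y888.HC.Det

/-! # The determinant of a form with an orthonormal eigenframe -/

set_option autoImplicit false

open Matrix

namespace Pool.Agent.J6H78.FC

open Pool.Agent.Y499.HC Pool.Agent.Y888.HC

lemma inner_dot {d : ℕ} (v w : E d) : inner ℝ v w = v.ofLp ⬝ᵥ w.ofLp := by
  rw [PiLp.inner_apply, dotProduct]
  refine Finset.sum_congr rfl fun i _ => ?_
  simp [mul_comm]

/-- The determinant of the restriction of `g` to the orthogonal complement of `x`, if `g` is diagonal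
in the orthonormal frame `e`. -/
theorem detTan_frame {d : ℕ} {g : Matrix (Fin (d + 1)) (Fin (d + 1)) ℝ} (hg : g.IsSymm) {x : E d}
    (hx : ‖x‖ = 1) {e : Fin d → E d} (he : Orthonormal ℝ e) (hxe : ∀ i, inner ℝ x (e i) = (0 : ℝ))
    {q : Fin d → ℝ}
    (hq : ∀ v, inner ℝ x v = (0 : ℝ) → quad g v = ∑ i, q i * inner ℝ (e i) v ^ 2) :
    detTan g x = ∏ i, q i := by
  have hxx : ∑ i, x i * x i = 1 := by
    have h1 := EuclideanSpace.norm_sq_eq x
    rw [hx, one_pow] at h1
    rw [h1]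
    refine Finset.sum_congr rfl fun i _ => ?_
    rw [Real.norm_eq_abs, sq_abs, sq]
  set b : Fin (d + 1) → E d := Fin.cons x e with hb
  have hbo : Orthonormal ℝ b := by
    rw [orthonormal_iff_ite] at he ⊢
    intro i j
    refine Fin.cases ?_ (fun i => ?_) i
    · refine Fin.cases ?_ (fun j => ?_) j
      · simp [hb, hx]
      · simp [hb, hxe, (Fin.succ_ne_zero j).symm]
    · refine Fin.cases ?_ (fun j => ?_) j
      · simp only [hb, Fin.cons_succ, Fin.cons_zero]
        rw [real_inner_comm, hxe]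
        simp [Fin.succ_ne_zero i]
      · simp only [hb, Fin.cons_succ, he i j, Fin.succ_inj]
  set D : Fin (d + 1) → ℝ := Fin.cons 1 q with hD
  set B : Matrix (Fin (d + 1)) (Fin (d + 1)) ℝ := Matrix.of fun i j => b j i with hB
  have hBB : Bᵀ * B = 1 := by
    ext i j
    rw [Matrix.mul_apply, Matrix.one_apply]
    have h := (orthonormal_iff_ite.1 hbo) i j
    rw [← h, PiLp.inner_apply]
    refine Finset.sum_congr rfl fun a _ => ?_
    simp [hB, mul_comm]
  set J : Matrix (Fin (d + 1)) (Fin (d + 1)) ℝ := Matrix.of fun i j => x i * x j with hJ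
  have hJt : Jᵀ = J := J_symm x
  set P := 1 - J with hP
  have hPt : Pᵀ = P := by rw [hP, transpose_sub, transpose_one, hJt]
  have hPv : ∀ v : Fin (d + 1) → ℝ, P *ᵥ v = v - (x.ofLp ⬝ᵥ v) • x.ofLp := by
    intro v
    rw [hP, sub_mulVec, one_mulVec]
    congr 1
    funext i
    rw [mulVec, dotProduct]
    simp only [hJ, of_apply, Pi.smul_apply, smul_eq_mul]
    rw [dotProduct, Finset.sum_mul]
    exact Finset.sum_congr rfl fun j _ => by ring
  have hxx' : x.ofLp ⬝ᵥ x.ofLp = 1 := hxx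
  have key : P * g * P + J = B * diagonal D * Bᵀ := by
    rw [← sub_eq_zero]
    apply sym_zero
    · change (P * g * P + J - B * diagonal D * Bᵀ)ᵀ = P * g * P + J - B * diagonal D * Bᵀ
      rw [transpose_sub, transpose_add, transpose_mul, transpose_mul, hPt, hg.eq, mul_assoc, hJt,
        transpose_mul, transpose_mul, transpose_transpose, diagonal_transpose, ← mul_assoc B,
        ← mul_assoc P]
    · intro v
      have e1 : v ⬝ᵥ (P * g * P) *ᵥ v = (P *ᵥ v) ⬝ᵥ g *ᵥ (P *ᵥ v) := by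
        rw [← mulVec_mulVec, ← mulVec_mulVec, dotProduct_mulVec, ← mulVec_transpose, hPt]
      have e2 : v ⬝ᵥ J *ᵥ v = (x.ofLp ⬝ᵥ v) ^ 2 := by
        have : J *ᵥ v = (x.ofLp ⬝ᵥ v) • x.ofLp := by
          have := hPv v
          rw [hP, sub_mulVec, one_mulVec] at this
          exact sub_right_injective this
        rw [this, dotProduct_smul, smul_eq_mul, dotProduct_comm v, sq]
      have e3 : v ⬝ᵥ (B * diagonal D * Bᵀ) *ᵥ v = ∑ j, D j * ((b j).ofLp ⬝ᵥ v) ^ 2 := by
        have h1 : v ⬝ᵥ (B * diagonal D * Bᵀ) *ᵥ v = (Bᵀ *ᵥ v) ⬝ᵥ (diagonal D) *ᵥ (Bᵀ *ᵥ v) := by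
          rw [← mulVec_mulVec, ← mulVec_mulVec, dotProduct_mulVec, ← mulVec_transpose]
        rw [h1, dotProduct]
        refine Finset.sum_congr rfl fun j _ => ?_
        rw [mulVec_diagonal]
        have h2 : (Bᵀ *ᵥ v) j = (b j).ofLp ⬝ᵥ v := rfl
        rw [h2]
        ring
      have hw : inner ℝ x (WithLp.toLp 2 (P *ᵥ v) : E d) = (0 : ℝ) := by
        rw [inner_dot]
        change x.ofLp ⬝ᵥ (P *ᵥ v) = 0
        rw [hPv, dotProduct_sub, dotProduct_smul, hxx']
        simp
      have h1 := hq (WithLp.toLp 2 (P *ᵥ v)) hw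
      rw [quad_eq] at h1
      change (P *ᵥ v) ⬝ᵥ g *ᵥ (P *ᵥ v) = _ at h1
      rw [sub_mulVec, add_mulVec, dotProduct_sub, dotProduct_add, e1, e2, e3, h1,
        Fin.sum_univ_succ]
      simp only [hD, hb, Fin.cons_zero, Fin.cons_succ, one_mul]
      have e4 : ∀ i, inner ℝ (e i) (WithLp.toLp 2 (P *ᵥ v) : E d) = (e i).ofLp ⬝ᵥ v := by
        intro i
        rw [inner_dot]
        change (e i).ofLp ⬝ᵥ (P *ᵥ v) = _
        have h3 : (e i).ofLp ⬝ᵥ x.ofLp = 0 := by
          rw [← inner_dot, real_inner_comm]; exact hxe i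
        rw [hPv, dotProduct_sub, dotProduct_smul, h3]
        simp
      simp_rw [e4]
      ring
  have h1 : detTan g x = det (P * g * P + J) := rfl
  rw [h1, key, det_mul, det_mul, det_diagonal, mul_right_comm, mul_comm (det B), ← det_mul, hBB,
    det_one, one_mul, Fin.prod_univ_succ]
  simp [hD]

end Pool.Agent.J6H78.FC
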