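import Pool.Agent.J6H78.FC.Main

/-! # Collars which are diagonal along great circles -/

set_option autoImplicit false

open MeasureTheory Set Real Metric
open scoped ENNReal

namespace Pool.Agent.J6H78.FC

open Pool.Agent.Y499.HC Pool.Agent.Y499.HR

lemma circ_add {d : ℕ} (p : E d × E d) (α θ : ℝ) :
    circ (circ p α, circ' p α) θ = circ p (α + θ) := by
  simp only [circ, circ', cos_add, sin_add]
  module

lemma circ'_add {d : ℕ} (p : E d × E d) (α θ : ℝ) :
    circ' (circ p α, circ' p α) θ = circ' p (α + θ) := by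
  simp only [circ, circ', cos_add, sin_add]
  module

lemma circ_pairs {d : ℕ} {p : E d × E d} (hp : p ∈ Pairs d) (α : ℝ) :
    (circ p α, circ' p α) ∈ Pairs d := ⟨circ_norm hp α, circ'_norm hp α, circ_orth hp α⟩

/-- The geodesic condition for the root mean square of the stretch along one great circle. -/
theorem NS_circle {d : ℕ} {R : ℝ} {m : Met d} (hm : Good R m) (hF : Fermi R m)
    (hS : NonShort R m) {p : E d × E d} (hp : p ∈ Pairs d) {f : ℝ → ℝ}
    (hf : ContinuousOn f (Ico 0 R))
    (h : ∀ s ∈ Ico 0 R, ∫ θ in (0 : ℝ)..(2 * π), quad (m.g s (circ p θ)) (circ' p θ) ≤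
      2 * π * f s ^ 2) : NS R f := by
  have h2π : (0 : ℝ) < 2 * π := by positivity
  set μ : Measure ℝ := (ENNReal.ofReal (2 * π))⁻¹ • volume.restrict (Ioc 0 (2 * π)) with hμ
  have hne : ENNReal.ofReal (2 * π) ≠ 0 := by
    rw [Ne, ENNReal.ofReal_eq_zero, not_le]; exact h2π
  have hprobμ : IsProbabilityMeasure μ := by
    constructor
    rw [hμ, Measure.smul_apply, Measure.restrict_apply_univ, Real.volume_Ioc, sub_zero, smul_eq_mul]
    exact ENNReal.inv_mul_cancel hne ENNReal.ofReal_ne_top
  have hc : Continuous fun α : ℝ => (circ p α, circ' p α) := by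
    unfold circ circ'
    fun_prop
  set P : Measure (E d × E d) := μ.map fun α : ℝ => (circ p α, circ' p α) with hP
  have hprob : IsProbabilityMeasure P := Measure.isProbabilityMeasure_map hc.measurable.aemeasurable
  have hae : ∀ᵐ q ∂P, q ∈ Pairs d :=
    (ae_map_iff (p := fun q => q ∈ Pairs d) hc.measurable.aemeasurable
      (Pairs_closed d).measurableSet).2 (Filter.Eventually.of_forall (circ_pairs hp))
  refine NS_of_law hm hF hS P hae hf fun s hs θ => ?_
  have hQ : ContinuousOn (fun q : E d × E d => quad (m.g s (circ q θ)) (circ' q θ)) (Pairs d) := by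
    refine quad_cont hm continuousOn_const ?_ ?_ (fun _ _ => hs) fun q hq => circ_norm hq θ
    · unfold circ; fun_prop
    · unfold circ'; fun_prop
  rw [hP, integral_map hc.measurable.aemeasurable (law_int hae hQ).aestronglyMeasurable, hμ,
    integral_smul_measure, ENNReal.toReal_inv, ENNReal.toReal_ofReal h2π.le, smul_eq_mul]
  have hper : Function.Periodic (fun α => quad (m.g s (circ p α)) (circ' p α)) (2 * π) := by
    intro α
    simp only [circ, circ', cos_add_two_pi, sin_add_two_pi]
  have e1 : ∫ α in Ioc 0 (2 * π), quad (m.g s (circ (circ p α, circ' p α) θ))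
      (circ' (circ p α, circ' p α) θ) =
      ∫ α in (0 : ℝ)..(2 * π), quad (m.g s (circ p α)) (circ' p α) := by
    simp_rw [circ_add, circ'_add]
    rw [← intervalIntegral.integral_of_le h2π.le,
      intervalIntegral.integral_comp_add_right (fun α => quad (m.g s (circ p α)) (circ' p α)) θ,
      zero_add, add_comm (2 * π) θ, hper.intervalIntegral_add_eq θ 0, zero_add]
  rw [e1, inv_mul_le_iff₀ h2π]
  exact h s hs

/-- The pointwise inequality and its integral. -/
theorem vol_diag {d : ℕ} {R : ℝ} (hR0 : 0 < R) (hR : R ≤ π / 2) {m : Met d} (hm : Good R m)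
    (hF : Fermi R m) (hS : NonShort R m)
    (hD : ∀ x ∈ sphere (0 : E d) 1, ∃ e : Fin d → E d, Orthonormal ℝ e ∧
      (∀ i, inner ℝ x (e i) = (0 : ℝ)) ∧ ∀ s ∈ Ico 0 R,
        (∀ v : E d, inner ℝ x v = (0 : ℝ) →
          quad (m.g s x) v = ∑ i, quad (m.g s x) (e i) * inner ℝ (e i) v ^ 2) ∧
        ∀ i, ∫ θ in (0 : ℝ)..(2 * π), quad (m.g s (circ (x, e i) θ)) (circ' (x, e i) θ) ≤
          2 * π * quad (m.g s x) (e i)) :
    hemiCollar d R ≤ vol R m := by
  have hpt : ∀ x : Sph d, ENNReal.ofReal (∫ s in (0 : ℝ)..R, cos s ^ d) ≤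
      ∫⁻ s in Ioo 0 R, ENNReal.ofReal (√(detTan (m.g s x) x)) := by
    intro x
    have hx : ‖(x : E d)‖ = 1 := mem_sphere_zero_iff_norm.1 x.2
    obtain ⟨e, he, hxe, hdiag⟩ := hD x x.2
    have hq0 : ∀ i, ∀ s ∈ Ico 0 R, 0 ≤ quad (m.g s x) (e i) := fun i s hs =>
      quad_nonneg hm hs hx (hxe i)
    have hfc : ∀ i, ContinuousOn (fun s => √(quad (m.g s x) (e i))) (Ico 0 R) := fun i =>
      Real.continuous_sqrt.comp_continuousOn (quad_cont hm (s := fun s => s) (y := fun _ => (x : E d))
        (v := fun _ => e i) continuousOn_id continuousOn_const continuousOn_const (fun _ h => h)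
        fun _ _ => hx)
    have h1 := profile_ineq hR0 hR (f := fun i s => √(quad (m.g s x) (e i)))
      (fun i => NS_circle hm hF hS (p := ((x : E d), e i)) ⟨hx, he.1 i, hxe i⟩ (hfc i)
        fun s hs => by
          rw [Real.sq_sqrt (hq0 i s hs)]
          exact (hdiag s hs).2 i) hfc (fun i s _ => Real.sqrt_nonneg _)
    refine h1.trans (le_of_eq (setLIntegral_congr_fun measurableSet_Ioo fun s hs => ?_))
    have hs' : s ∈ Ico 0 R := ⟨hs.1.le, hs.2⟩
    rw [detTan_frame (hm.symm s hs' x x.2) hx he hxe (hdiag s hs').1,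
      ← ENNReal.ofReal_prod_of_nonneg fun i _ => Real.sqrt_nonneg _,
      Real.sqrt_prod _ fun i _ => hq0 i s hs']
  have hmeas : AEMeasurable (Function.uncurry fun (s : ℝ) (x : Sph d) =>
      ENNReal.ofReal (√(detTan (m.g s x) x))) ((volume.restrict (Ioo 0 R)).prod (σ d)) := by
    have hc : ContinuousOn (fun p : ℝ × Sph d => √(detTan (m.g p.1 p.2) p.2))
        (Ioo 0 R ×ˢ univ) := by
      refine Real.continuous_sqrt.comp_continuousOn ?_
      have hg : ContinuousOn (fun p : ℝ × Sph d => m.g p.1 p.2) (Ioo 0 R ×ˢ univ) := by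
        have h1 : Continuous fun p : ℝ × Sph d => (p.1, (p.2 : E d)) :=
          continuous_fst.prodMk (continuous_subtype_val.comp continuous_snd)
        exact hm.cont_g.comp h1.continuousOn fun p hp => ⟨⟨hp.1.1.le, hp.1.2⟩, p.2.2⟩
      have hX : Continuous fun p : ℝ × Sph d =>
          (Matrix.of fun i j => (p.2 : E d) i * (p.2 : E d) j :
            Matrix (Fin (d + 1)) (Fin (d + 1)) ℝ) := by
        refine continuous_matrix fun i j => ?_
        have h2 : ∀ k, Continuous fun p : ℝ × Sph d => (p.2 : E d) k := fun k =>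
          (EuclideanSpace.proj (𝕜 := ℝ) k).continuous.comp
            (continuous_subtype_val.comp continuous_snd)
        exact (h2 i).mul (h2 j)
      unfold detTan
      refine (Continuous.matrix_det continuous_id).comp_continuousOn ?_
      exact (((continuous_const.sub hX).continuousOn.mul hg).mul
        (continuous_const.sub hX).continuousOn).add hX.continuousOn
    have h3 := (hc.aestronglyMeasurable (μ := volume.prod (σ d))
      (measurableSet_Ioo.prod MeasurableSet.univ)).aemeasurable.ennreal_ofReal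
    rw [← Measure.prod_restrict, Measure.restrict_univ] at h3
    exact h3
  unfold hemiCollar vol
  rw [lintegral_lintegral_swap hmeas]
  calc (σ d) univ * ENNReal.ofReal (∫ θ in (0 : ℝ)..R, cos θ ^ d) =
      ∫⁻ _x : Sph d, ENNReal.ofReal (∫ θ in (0 : ℝ)..R, cos θ ^ d) ∂(σ d) := by
        rw [lintegral_const, mul_comm]
    _ ≤ _ := lintegral_mono hpt

end Pool.Agent.J6H78.FC
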