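import Pool.Agent.J6H78.FC.J

/-! # The certificate of a factor from its geodesics -/

set_option autoImplicit false

open MeasureTheory Set Real
open scoped ENNReal

namespace Pool.Agent.J6H78.FC

/-- Clamping to `[0, t]`. -/
noncomputable def clamp (t s : ℝ) : ℝ := max 0 (min s t)

lemma clamp_cont (t : ℝ) : Continuous (clamp t) := by unfold clamp; fun_prop

lemma clamp_mem {t : ℝ} (ht : 0 ≤ t) (s : ℝ) : clamp t s ∈ Icc 0 t :=
  ⟨le_max_left _ _, max_le ht (min_le_right _ _)⟩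

lemma clamp_eq {t s : ℝ} (hs : s ∈ Icc 0 t) : clamp t s = s := by
  unfold clamp
  rw [min_eq_left hs.2, max_eq_right hs.1]

lemma clamp_comp_cont {f : ℝ → ℝ} {R t : ℝ} (hf : ContinuousOn f (Ico 0 R)) (ht : 0 ≤ t)
    (htR : t < R) : Continuous fun s => f (clamp t s) := by
  rw [← continuousOn_univ]
  refine hf.comp (clamp_cont t).continuousOn fun s _ => ?_
  exact ⟨(clamp_mem ht s).1, (clamp_mem ht s).2.trans_lt htR⟩

lemma pos_of_NS {R : ℝ} (hR : R ≤ π / 2) {f : ℝ → ℝ} (hNS : NS R f)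
    (hf : ContinuousOn f (Ico 0 R)) (hf0 : ∀ s ∈ Ico 0 R, 0 ≤ f s) {t : ℝ} (ht : t ∈ Ico 0 R) :
    0 < f t := by
  have h1 := path_ineq hNS ht.1 ht.2 (clamp_comp_cont hf ht.1 ht.2) (continuous_const (y := (0 : ℝ)))
    (fun s hs => by rw [clamp_eq hs]) (by rw [clamp_eq ⟨ht.1, le_rfl⟩]; exact hf0 t ht)
  simp only [clamp_eq (show t ∈ Icc 0 t from ⟨ht.1, le_rfl⟩)] at h1
  norm_num at h1
  rw [abs_of_pos Real.pi_pos] at h1
  by_contra h
  rw [not_lt] at h
  have : f t = 0 := le_antisymm h (hf0 t ht)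
  rw [this] at h1
  linarith [ht.2]

/-- The running minimum. -/
noncomputable def rmin (q : ℝ → ℝ) (s : ℝ) : ℝ := sInf ((fun u => q (u * max s 0)) '' Icc 0 1)

lemma rmin_cont {q : ℝ → ℝ} (hq : Continuous q) : Continuous (rmin q) := by
  have := isCompact_Icc.continuous_sInf (K := Icc (0 : ℝ) 1) (f := fun (s u : ℝ) => q (u * max s 0))
    (by
      refine hq.comp ?_
      show Continuous fun p : ℝ × ℝ => p.2 * max p.1 0
      fun_prop)
  exact this

lemma rmin_le {q : ℝ → ℝ} (hq : Continuous q) {s x : ℝ} (hx : x ∈ Icc 0 s) : rmin q s ≤ q x := by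
  have hs : 0 ≤ s := hx.1.trans hx.2
  refine csInf_le (isCompact_Icc.image (by fun_prop)).bddBelow ?_
  rcases hs.eq_or_lt with h | h
  · refine ⟨0, by simp, ?_⟩
    have : x = 0 := le_antisymm (hx.2.trans h.symm.le) hx.1
    simp [this]
  · refine ⟨x / s, ⟨div_nonneg hx.1 hs, (div_le_one h).2 hx.2⟩, ?_⟩
    simp only [max_eq_left hs]
    rw [div_mul_cancel₀ _ h.ne']

lemma rmin_mem {q : ℝ → ℝ} (hq : Continuous q) {s : ℝ} (hs : 0 ≤ s) :
    ∃ x ∈ Icc 0 s, rmin q s = q x := by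
  have h1 := (isCompact_Icc (a := (0 : ℝ)) (b := 1)).image
    (f := fun u => q (u * max s 0)) (by fun_prop)
  obtain ⟨u, hu, hu'⟩ := h1.sInf_mem (by simp)
  refine ⟨u * max s 0, ?_, hu'.symm⟩
  rw [max_eq_left hs]
  exact ⟨mul_nonneg hu.1 hs, mul_le_of_le_one_left hs hu.2⟩

/-- The certificate of a factor. -/
theorem factor_cert {R : ℝ} (hR : R ≤ π / 2) {f : ℝ → ℝ} (hNS : NS R f)
    (hf : ContinuousOn f (Ico 0 R)) (hf0 : ∀ s ∈ Ico 0 R, 0 ≤ f s) {T : ℝ} (hT : T ∈ Ico 0 R) :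
    ∃ g : ℝ → ℝ, Nonempty (Cert T (fun s => ENNReal.ofReal (f (clamp T s)))
      (fun s => ENNReal.ofReal (g s)) 1) := by
  have hF := clamp_comp_cont hf hT.1 hT.2
  have hFpos : ∀ s, 0 < f (clamp T s) := fun s =>
    pos_of_NS hR hNS hf hf0 ⟨(clamp_mem hT.1 s).1, (clamp_mem hT.1 s).2.trans_lt hT.2⟩
  set q : ℝ → ℝ := fun s => min 1 (f (clamp T s)) with hq
  have hqc : Continuous q := continuous_const.min hF
  have hqpos : ∀ s, 0 < q s := fun s => lt_min one_pos (hFpos s)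
  have hF0 : 1 ≤ f (clamp T 0) := g_zero hNS (hT.1.trans_lt hT.2) hF (hFpos 0)
    (by rw [clamp_eq ⟨le_rfl, hT.1⟩])
  refine ⟨rmin q, base_cert hT.1 (hT.2.le.trans hR) hF.measurable (rmin_cont hqc) ?_ ?_ ?_ ?_ ?_⟩
  · intro s hs s' _ hss'
    obtain ⟨x, hx, hx'⟩ := rmin_mem hqc (show 0 ≤ s from hs)
    rw [hx']
    exact rmin_le hqc ⟨hx.1, hx.2.trans hss'⟩
  · obtain ⟨x, hx, hx'⟩ := rmin_mem hqc (le_refl (0 : ℝ))
    have : x = 0 := le_antisymm hx.2 hx.1
    rw [hx', this]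
    exact min_eq_left hF0
  · intro s hs
    obtain ⟨x, hx, hx'⟩ := rmin_mem hqc hs.1
    rw [hx']
    exact (hqpos x).le
  · intro s hs
    exact (rmin_le hqc (x := s) ⟨hs.1, le_rfl⟩).trans (min_le_right _ _)
  · intro t ht
    have htR : t < R := ht.2.trans_lt hT.2
    obtain ⟨x, hx, hx'⟩ := rmin_mem hqc ht.1
    have hτ : 0 < rmin q t := by rw [hx']; exact hqpos x
    have hτ1 : rmin q t ≤ 1 := by rw [hx']; exact min_le_left _ _
    have hgc := clamp_comp_cont hf ht.1 htR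
    have hcl : ∀ s ∈ Icc 0 t, clamp T s = s := fun s hs => clamp_eq ⟨hs.1, hs.2.trans ht.2⟩
    have hglow : ∀ s, rmin q t ≤ f (clamp t s) := by
      intro s
      have h1 := rmin_le hqc (clamp_mem ht.1 s)
      refine h1.trans ?_
      simp only [hq]
      rw [hcl _ (clamp_mem ht.1 s)]
      exact min_le_right _ _
    have hgpos : ∀ s, 0 < f (clamp t s) := fun s => hτ.trans_le (hglow s)
    have key := pd_core hgc hτ hτ1 ht.1 hglow fun c hc1 hc2 => by
      rcases hτ1.lt_or_eq with h1 | h1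
      · refine J_ineq hNS hgc hgpos ht.1 htR (fun s hs => by rw [clamp_eq hs]) (hτ.trans_le hc1) hc2
          ⟨x, hx, ?_⟩
        rw [clamp_eq hx]
        have h2 : q x < 1 := by rw [← hx']; exact h1
        have h3 : q x = f x := by
          simp only [hq]
          rw [hcl x hx]
          refine min_eq_right ?_
          by_contra h4
          rw [not_le] at h4
          simp only [hq] at h2
          rw [hcl x hx, min_eq_left h4.le] at h2
          exact lt_irrefl _ h2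
        rw [← h3, ← hx']
        exact hc1
      · have : c = 1 := le_antisymm hc2 (by rw [← h1]; exact hc1)
        rw [this, sub_self, mul_zero]
        exact mul_nonneg zero_le_two (intervalIntegral.integral_nonneg ht.1
          fun s _ => Real.sqrt_nonneg _)
    have e1 : ∫⁻ s in Ioc 0 t, ENNReal.ofReal (f (clamp T s)) =
        ENNReal.ofReal (∫ s in (0 : ℝ)..t, f (clamp t s)) := by
      rw [intervalIntegral.integral_of_le ht.1, ofReal_integral_eq_lintegral_ofReal]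
      · refine setLIntegral_congr_fun measurableSet_Ioc fun s hs => ?_
        rw [hcl s ⟨hs.1.le, hs.2⟩, clamp_eq ⟨hs.1.le, hs.2⟩]
      · exact (hgc.intervalIntegrable _ _).1
      · exact Filter.Eventually.of_forall fun s => (hgpos s).le
    rw [e1, mul_comm t]
    exact ENNReal.ofReal_le_ofReal key

/-- The inequality for the product of the factors. -/
theorem profile_ineq {R : ℝ} (hR0 : 0 < R) (hR : R ≤ π / 2) {d : ℕ} {f : Fin d → ℝ → ℝ}
    (hNS : ∀ i, NS R (f i)) (hf : ∀ i, ContinuousOn (f i) (Ico 0 R))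
    (hf0 : ∀ i, ∀ s ∈ Ico 0 R, 0 ≤ f i s) :
    ENNReal.ofReal (∫ s in (0 : ℝ)..R, cos s ^ d) ≤ ∫⁻ s in Ioo 0 R, ∏ i, ENNReal.ofReal (f i s) := by
  have hc : Continuous fun s : ℝ => cos s ^ d := by fun_prop
  have h1 : ∀ T ∈ Ico 0 R, ENNReal.ofReal (∫ s in (0 : ℝ)..T, cos s ^ d) ≤
      ∫⁻ s in Ioo 0 R, ∏ i, ENNReal.ofReal (f i s) := by
    intro T hT
    choose g hg using fun i => factor_cert hR (hNS i) (hf i) (hf0 i) hT
    have h2 := prod_ineq hT.1 hg
    have hcos : ∀ s ∈ Ioc 0 T, 0 ≤ cos s := fun s hs =>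
      cos_nonneg_of_mem_Icc ⟨by linarith [hs.1, Real.pi_pos], by linarith [hs.2, hT.2]⟩
    have e1 : ENNReal.ofReal (∫ s in (0 : ℝ)..T, cos s ^ d) =
        ∫⁻ s in Ioc 0 T, ENNReal.ofReal (cos s) ^ d := by
      rw [intervalIntegral.integral_of_le hT.1, ofReal_integral_eq_lintegral_ofReal]
      · refine setLIntegral_congr_fun measurableSet_Ioc fun s hs => ?_
        rw [ENNReal.ofReal_pow (hcos s hs)]
      · exact (hc.intervalIntegrable _ _).1
      · exact (ae_restrict_iff' measurableSet_Ioc).2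
          (Filter.Eventually.of_forall fun s hs => pow_nonneg (hcos s hs) d)
    rw [e1]
    refine h2.trans ?_
    have e2 : ∫⁻ s in Ioc 0 T, ∏ i, ENNReal.ofReal (f i (clamp T s)) =
        ∫⁻ s in Ioc 0 T, ∏ i, ENNReal.ofReal (f i s) :=
      setLIntegral_congr_fun measurableSet_Ioc fun s hs => by
        simp only [clamp_eq (show s ∈ Icc 0 T from ⟨hs.1.le, hs.2⟩)]
    rw [e2]
    exact lintegral_mono_set fun s hs => ⟨hs.1, hs.2.trans_lt hT.2⟩
  have h2 : Continuous fun T : ℝ => ENNReal.ofReal (∫ s in (0 : ℝ)..T, cos s ^ d) :=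
    ENNReal.continuous_ofReal.comp (intervalIntegral.continuous_primitive
      (fun a b => hc.intervalIntegrable a b) 0)
  refine le_of_tendsto ((h2.tendsto R).mono_left nhdsWithin_le_nhds : Filter.Tendsto _
    (nhdsWithin R (Iio R)) _) ?_
  filter_upwards [Ico_mem_nhdsLT hR0] with T hT
  exact h1 T hT

end Pool.Agent.J6H78.FC
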