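import Pool.Agent.J6H78.FC.Factor
import Pool.Agent.Y499.HC.Stm2

/-! # Averages over great circles -/

set_option autoImplicit false

open MeasureTheory Set Real Metric
open scoped ENNReal

namespace Pool.Agent.J6H78.FC

open Pool.Agent.Y499.HC Pool.Agent.Y499.HR

/-- The point of angle `θ` of the great circle through `p.1` in the direction `p.2`. -/
noncomputable def circ {d : ℕ} (p : E d × E d) (θ : ℝ) : E d := cos θ • p.1 + sin θ • p.2

/-- Its velocity. -/
noncomputable def circ' {d : ℕ} (p : E d × E d) (θ : ℝ) : E d := -sin θ • p.1 + cos θ • p.2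

/-- Orthonormal pairs. -/
def Pairs (d : ℕ) : Set (E d × E d) := {p | ‖p.1‖ = 1 ∧ ‖p.2‖ = 1 ∧ inner ℝ p.1 p.2 = (0 : ℝ)}

lemma Pairs_closed (d : ℕ) : IsClosed (Pairs d) := by
  refine IsClosed.inter (isClosed_eq (by fun_prop) continuous_const)
    (IsClosed.inter (isClosed_eq (by fun_prop) continuous_const)
    (isClosed_eq (by fun_prop) continuous_const))

lemma Pairs_compact (d : ℕ) : IsCompact (Pairs d) := by
  refine (((isCompact_sphere (0 : E d) 1).prod (isCompact_sphere (0 : E d) 1))).of_isClosed_subset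
    (Pairs_closed d) fun p hp => ?_
  exact ⟨by simpa using hp.1, by simpa using hp.2.1⟩

lemma circ_norm {d : ℕ} {p : E d × E d} (hp : p ∈ Pairs d) (θ : ℝ) : ‖circ p θ‖ = 1 := by
  have h21 : inner ℝ p.2 p.1 = (0 : ℝ) := by rw [real_inner_comm]; exact hp.2.2
  have h : ‖circ p θ‖ ^ 2 = 1 := by
    rw [circ, ← real_inner_self_eq_norm_sq]
    simp only [inner_add_left, inner_add_right, real_inner_smul_left, real_inner_smul_right,
      real_inner_self_eq_norm_sq, norm_smul, Real.norm_eq_abs, mul_pow, sq_abs, hp.1, hp.2.1,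
      hp.2.2, h21]
    nlinarith [Real.sin_sq_add_cos_sq θ]
  have h2 := norm_nonneg (circ p θ)
  nlinarith

lemma circ_orth {d : ℕ} {p : E d × E d} (hp : p ∈ Pairs d) (θ : ℝ) :
    inner ℝ (circ p θ) (circ' p θ) = (0 : ℝ) := by
  have h21 : inner ℝ p.2 p.1 = (0 : ℝ) := by rw [real_inner_comm]; exact hp.2.2
  rw [circ, circ']
  simp only [inner_add_left, inner_add_right, real_inner_smul_left, real_inner_smul_right,
    real_inner_self_eq_norm_sq, hp.1, hp.2.1, hp.2.2, h21]
  ring

lemma circ_deriv {d : ℕ} (p : E d × E d) {θ : ℝ → ℝ} {θ' t : ℝ} (h : HasDerivAt θ θ' t) :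
    HasDerivAt (fun t => circ p (θ t)) (θ' • circ' p (θ t)) t := by
  have h1 := (h.cos.smul_const p.1).add (h.sin.smul_const p.2)
  refine h1.congr_deriv ?_
  simp only [circ', smul_add, smul_smul, neg_mul, mul_neg]
  rw [mul_comm θ' (sin (θ t)), mul_comm θ' (cos (θ t))]

lemma quad_smul {d : ℕ} (g : Matrix (Fin (d + 1)) (Fin (d + 1)) ℝ) (c : ℝ) (v : E d) :
    quad g (c • v) = c ^ 2 * quad g v := by
  unfold quad
  rw [Finset.mul_sum]
  refine Finset.sum_congr rfl fun i _ => ?_
  rw [Finset.mul_sum]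
  refine Finset.sum_congr rfl fun j _ => ?_
  rw [PiLp.smul_apply, PiLp.smul_apply, smul_eq_mul, smul_eq_mul]
  ring

lemma quad_nonneg {d : ℕ} {R : ℝ} {m : Met d} (hm : Good R m) {s : ℝ} (hs : s ∈ Ico 0 R) {x : E d}
    (hx : ‖x‖ = 1) {v : E d} (hv : inner ℝ x v = (0 : ℝ)) : 0 ≤ quad (m.g s x) v := by
  have := hm.nonneg s hs x (by simpa using hx) 0 v hv
  simpa [Met.sq] using this

/-- Continuity of the form along continuous maps. -/
lemma quad_cont {d : ℕ} {R : ℝ} {m : Met d} (hm : Good R m) {X : Type} [TopologicalSpace X]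
    {S : Set X} {s : X → ℝ} {y v : X → E d} (hs : ContinuousOn s S) (hy : ContinuousOn y S)
    (hv : ContinuousOn v S) (hs' : ∀ a ∈ S, s a ∈ Ico 0 R) (hy' : ∀ a ∈ S, ‖y a‖ = 1) :
    ContinuousOn (fun a => quad (m.g (s a) (y a)) (v a)) S := by
  have h1 : ContinuousOn (fun a => m.g (s a) (y a)) S := by
    have := hm.cont_g.comp (f := fun a => (s a, y a)) (hs.prodMk hy) (s := S)
      (fun a ha => ⟨hs' a ha, by simpa using hy' a ha⟩)
    exact this
  unfold quad
  refine continuousOn_finsetSum _ fun i _ => continuousOn_finsetSum _ fun j _ => ?_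
  have hc : ∀ i, ContinuousOn (fun a => v a i) S := fun i =>
    ((EuclideanSpace.proj (𝕜 := ℝ) i).continuous.comp_continuousOn hv)
  refine ContinuousOn.mul (ContinuousOn.mul ?_ (hc i)) (hc j)
  exact ((continuous_apply_apply i j).comp_continuousOn h1)

/-- The geodesic condition for root mean squares. -/
theorem NS_of_law {d : ℕ} {R : ℝ} {m : Met d} (hm : Good R m) (hF : Fermi R m)
    (hS : NonShort R m) (P : Measure (E d × E d)) [IsProbabilityMeasure P]
    (hP : ∀ᵐ p ∂P, p ∈ Pairs d) {f : ℝ → ℝ} (hf : ContinuousOn f (Ico 0 R))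
    (hPf : ∀ s ∈ Ico 0 R, ∀ θ, ∫ p, quad (m.g s (circ p θ)) (circ' p θ) ∂P ≤ f s ^ 2) :
    NS R f := by
  intro s θ hs hθ hsR hs0 hs3 hθ0 hθ3
  have hsd : ∀ t, HasDerivAt s (deriv s t) t := fun t =>
    (hs.differentiable (by norm_num) t).hasDerivAt
  have hθd : ∀ t, HasDerivAt θ (deriv θ t) t := fun t =>
    (hθ.differentiable (by norm_num) t).hasDerivAt
  have hsc' : Continuous (deriv s) := hs.continuous_deriv le_rfl
  have hθc' : Continuous (deriv θ) := hθ.continuous_deriv le_rfl
  set Q : ℝ → E d × E d → ℝ := fun t p => quad (m.g (s t) (circ p (θ t))) (circ' p (θ t)) with hQ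
  set Φ : ℝ → E d × E d → ℝ := fun t p => √(deriv s t ^ 2 + Q t p * deriv θ t ^ 2) with hΦ
  have hcc : Continuous fun a : ℝ × (E d × E d) => circ a.2 (θ a.1) := by
    have : Continuous θ := hθ.continuous
    unfold circ
    fun_prop
  have hcc' : Continuous fun a : ℝ × (E d × E d) => circ' a.2 (θ a.1) := by
    have : Continuous θ := hθ.continuous
    unfold circ'
    fun_prop
  have hQc : ContinuousOn (Function.uncurry Q) (Icc 0 3 ×ˢ Pairs d) :=
    quad_cont hm (s := fun a : ℝ × (E d × E d) => s a.1) (y := fun a => circ a.2 (θ a.1))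
      (v := fun a => circ' a.2 (θ a.1)) (hs.continuous.comp continuous_fst).continuousOn
      hcc.continuousOn hcc'.continuousOn (fun a ha => hsR _ ha.1) (fun a ha => circ_norm ha.2 _)
  have hΦc : ContinuousOn (Function.uncurry Φ) (Icc 0 3 ×ˢ Pairs d) := by
    refine Real.continuous_sqrt.comp_continuousOn (ContinuousOn.add ?_ (hQc.mul ?_))
    · exact ((hsc'.comp continuous_fst).pow 2).continuousOn
    · exact ((hθc'.comp continuous_fst).pow 2).continuousOn
  have hPr : P.restrict (Pairs d) = P := Measure.restrict_eq_self_of_ae_mem hP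
  have hint : Integrable (Function.uncurry Φ) ((volume.restrict (uIoc 0 3)).prod P) := by
    have h1 : IntegrableOn (Function.uncurry Φ) (Icc (0 : ℝ) 3 ×ˢ Pairs d) (volume.prod P) :=
      hΦc.integrableOn_compact (isCompact_Icc.prod (Pairs_compact d))
    have h2 := h1.mono_set (prod_mono (show uIoc (0 : ℝ) 3 ⊆ Icc 0 3 by
      rw [uIoc_of_le (by norm_num)]; exact Ioc_subset_Icc_self) (subset_refl (Pairs d)))
    rwa [IntegrableOn, ← Measure.prod_restrict, hPr] at h2
  -- the length of one curve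
  have hone : ∀ p ∈ Pairs d, π ≤ ∫ t in (0 : ℝ)..3, Φ t p := by
    intro p hp
    have h1 := hS 3 s (fun t => circ p (θ t)) (by norm_num) hs (by
      have : ContDiff ℝ 1 θ := hθ
      unfold circ
      fun_prop) hsR (fun t => by simpa using circ_norm hp (θ t)) hs0 hs3 (by
        simp only [hθ0, hθ3]
        simp [circ])
    refine h1.trans (le_of_eq (intervalIntegral.integral_congr fun t ht => ?_))
    rw [uIcc_of_le (by norm_num)] at ht
    simp only [hΦ]
    rw [(circ_deriv p (hθd t)).deriv]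
    have hx : circ p (θ t) ∈ sphere (0 : EuclideanSpace ℝ (Fin (d + 1))) 1 := by
      simpa using circ_norm hp (θ t)
    obtain ⟨ha, hβ⟩ := hF (s t) (hsR t ht) _ hx
    have hv : inner ℝ (circ p (θ t)) (deriv θ t • circ' p (θ t)) = (0 : ℝ) := by
      rw [inner_smul_right, circ_orth hp, mul_zero]
    rw [Met.sq, ha, hβ _ hv, quad_smul]
    simp only [hQ]
    ring_nf
  have hI : ∫ p, (∫ t in (0 : ℝ)..3, Φ t p) ∂P = ∫ t in (0 : ℝ)..3, ∫ p, Φ t p ∂P :=
    (intervalIntegral_integral_swap hint).symm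
  have hge : π ≤ ∫ p, (∫ t in (0 : ℝ)..3, Φ t p) ∂P := by
    have h1 : ∫ p, π ∂P = π := by simp
    rw [← h1]
    refine integral_mono_ae (integrable_const _) ?_ ?_
    · have h2 := hint.integral_prod_right
      simp_rw [intervalIntegral.integral_of_le (show (0 : ℝ) ≤ 3 by norm_num)]
      rw [uIoc_of_le (by norm_num)] at h2
      exact h2
    · filter_upwards [hP] with p hp
      exact hone p hp
  rw [hI] at hge
  refine hge.trans (intervalIntegral.integral_mono_on (by norm_num) ?_ ?_ fun t ht => ?_)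
  · rw [intervalIntegrable_iff]
    exact hint.integral_prod_left
  · refine ContinuousOn.intervalIntegrable ?_
    rw [uIcc_of_le (by norm_num)]
    refine Real.continuous_sqrt.comp_continuousOn (ContinuousOn.add (hsc'.pow 2).continuousOn
      (ContinuousOn.mul (ContinuousOn.pow ?_ 2) (hθc'.pow 2).continuousOn))
    exact hf.comp hs.continuous.continuousOn fun t ht => hsR t ht
  · -- Jensen
    have hq : ContinuousOn (Q t) (Pairs d) := by
      have := hQc.comp (f := fun p : E d × E d => (t, p)) (s := Pairs d)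
        (Continuous.prodMk_right t).continuousOn (fun p hp => ⟨ht, hp⟩)
      exact this
    have hφ : ContinuousOn (Φ t) (Pairs d) := by
      have := hΦc.comp (f := fun p : E d × E d => (t, p)) (s := Pairs d)
        (Continuous.prodMk_right t).continuousOn (fun p hp => ⟨ht, hp⟩)
      exact this
    have iq : Integrable (Q t) P := by
      have := hq.integrableOn_compact (μ := P) (Pairs_compact d)
      rwa [IntegrableOn, hPr] at this
    have iφ : Integrable (Φ t) P := by
      have := hφ.integrableOn_compact (μ := P) (Pairs_compact d)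
      rwa [IntegrableOn, hPr] at this
    have iφ2 : Integrable (fun p => Φ t p ^ 2) P := by
      have := (hφ.pow 2).integrableOn_compact (μ := P) (Pairs_compact d)
      rwa [IntegrableOn, hPr] at this
    have e1 : ∫ p, Φ t p ^ 2 ∂P = deriv s t ^ 2 + (∫ p, Q t p ∂P) * deriv θ t ^ 2 := by
      have : ∀ᵐ p ∂P, Φ t p ^ 2 = deriv s t ^ 2 + Q t p * deriv θ t ^ 2 := by
        filter_upwards [hP] with p hp
        have : 0 ≤ Q t p := quad_nonneg hm (hsR t ht) (circ_norm hp _) (circ_orth hp _)
        exact Real.sq_sqrt (by positivity)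
      rw [integral_congr_ae this, integral_add (integrable_const _) (iq.mul_const _),
        integral_mul_const]
      simp
    have e2 : (∫ p, Φ t p ∂P) ^ 2 ≤ ∫ p, Φ t p ^ 2 ∂P := by
      set c := ∫ p, Φ t p ∂P with hc
      have h0 : 0 ≤ ∫ p, (Φ t p - c) ^ 2 ∂P := integral_nonneg fun p => sq_nonneg _
      have h1 : ∫ p, (Φ t p - c) ^ 2 ∂P = (∫ p, Φ t p ^ 2 ∂P) - 2 * c * c + c ^ 2 := by
        have : ∀ p, (Φ t p - c) ^ 2 = Φ t p ^ 2 - 2 * c * Φ t p + c ^ 2 := fun p => by ring
        simp_rw [this]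
        have i1 : Integrable (fun p => 2 * c * Φ t p) P := iφ.const_mul _
        have i2 : Integrable (fun p => Φ t p ^ 2 - 2 * c * Φ t p) P := iφ2.sub i1
        rw [integral_add i2 (integrable_const _), integral_sub iφ2 i1, integral_const_mul, ← hc]
        simp
      rw [h1] at h0
      nlinarith
    show ∫ p, Φ t p ∂P ≤ √(deriv s t ^ 2 + f (s t) ^ 2 * deriv θ t ^ 2)
    refine Real.le_sqrt_of_sq_le (e2.trans ?_)
    rw [e1]
    have := mul_le_mul_of_nonneg_right (hPf (s t) (hsR t ht) (θ t)) (sq_nonneg (deriv θ t))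
    linarith

end Pool.Agent.J6H78.FC
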