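import Pool.Agent.J6H78.FC.Law
import Pool.Agent.Y249.HC.Avg

/-! # The conditional law of a frame -/

set_option autoImplicit false

open MeasureTheory Set Real Metric
open scoped ENNReal

namespace Pool.Agent.J6H78.FC

open Pool.Agent.Y499.HC Pool.Agent.Y499.HR Pool.Agent.Y502.HC Pool.Agent.Y249.HC

lemma ext_basis {n k : ℕ} {w : Fin k → EuclideanSpace ℝ (Fin n)} (hw : Orthonormal ℝ w)
    (hk : k ≤ n) : ∃ B : OrthonormalBasis (Fin n) ℝ (EuclideanSpace ℝ (Fin n)),
      ∀ j : Fin k, B (Fin.castLE hk j) = w j := by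
  let v : Fin n → EuclideanSpace ℝ (Fin n) := fun i => if h : i.1 < k then w ⟨i.1, h⟩ else 0
  have hv : Orthonormal ℝ (({i | i.1 < k} : Set (Fin n)).domRestrict v) := by
    have h1 : ({i | i.1 < k} : Set (Fin n)).domRestrict v =
        w ∘ fun i : ({i | i.1 < k} : Set (Fin n)) => (⟨i.1.1, i.2⟩ : Fin k) := by
      funext i
      have hi : i.1.1 < k := i.2
      show v i.1 = w ⟨i.1.1, hi⟩
      simp only [v]
      rw [dif_pos hi]
    rw [h1]
    refine hw.comp _ fun i j hij => ?_
    exact Subtype.ext (Fin.ext (Fin.mk.inj_iff.1 hij))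
  obtain ⟨B, hB⟩ := hv.exists_orthonormalBasis_extension_of_card_eq (by simp)
  refine ⟨B, fun j => ?_⟩
  have hj : Fin.castLE hk j ∈ ({i | i.1 < k} : Set (Fin n)) := j.2
  rw [hB _ hj]
  simp only [v]
  rw [dif_pos (show (Fin.castLE hk j).1 < k from j.2)]
  rfl

/-- An orthogonal matrix with prescribed first two columns. -/
lemma exists_A {d : ℕ} {a : E d} (ha : ‖a‖ = 1) : ∃ A : O (d + 1), ∀ b : Fr (d + 1),
    (rotF A b).1 0 = b.1 0 ∧ (rotF A b).1 1 = ∑ i : Fin (d + 1), a i • b.1 i.succ := by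
  let w : Fin 2 → E (d + 1) := ![EuclideanSpace.single 0 1, WithLp.toLp 2 (Fin.cons 0 a.ofLp)]
  have haa : ∑ i, a i * a i = 1 := by
    have h1 := EuclideanSpace.norm_sq_eq a
    rw [ha, one_pow] at h1
    rw [h1]
    refine Finset.sum_congr rfl fun i _ => ?_
    rw [Real.norm_eq_abs, sq_abs, sq]
  have hw : Orthonormal ℝ w := by
    rw [orthonormal_iff_ite]
    intro i j
    fin_cases i <;> fin_cases j
    · simp [w]
    · simp [w, PiLp.inner_apply]
    · simp [w, PiLp.inner_apply]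
    · show inner ℝ (w 1) (w 1) = (1 : ℝ)
      rw [PiLp.inner_apply, Fin.sum_univ_succ]
      simp only [w, Matrix.cons_val_one, Matrix.cons_val_zero, RCLike.inner_apply, conj_trivial,
        Fin.cons_zero, Fin.cons_succ, mul_zero, zero_add]
      exact haa
  obtain ⟨B, hB⟩ := ext_basis hw (show 2 ≤ d + 1 + 1 by omega)
  have hA : (Matrix.of fun i j : Fin (d + 1 + 1) => B j i) ∈
      Matrix.orthogonalGroup (Fin (d + 1 + 1)) ℝ := by
    refine mat_mem _ fun j k => ?_
    have h := (orthonormal_iff_ite.1 B.orthonormal) j k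
    rw [PiLp.inner_apply] at h
    simp only [RCLike.inner_apply, conj_trivial] at h
    rw [← h]
    refine Finset.sum_congr rfl fun i _ => ?_
    rw [Matrix.of_apply, Matrix.of_apply]
    ring
  refine ⟨⟨_, hA⟩, fun b => ⟨?_, ?_⟩⟩
  · have h0 : B 0 = EuclideanSpace.single 0 1 := hB 0
    show ∑ i, (Matrix.of fun i j : Fin (d + 1 + 1) => B j i) i 0 • b.1 i = b.1 0
    simp only [Matrix.of_apply, h0]
    simp
  · have h0 : B 1 = WithLp.toLp 2 (Fin.cons 0 a.ofLp) := hB 1
    show ∑ i, (Matrix.of fun i j : Fin (d + 1 + 1) => B j i) i 1 • b.1 i = _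
    simp only [Matrix.of_apply, h0]
    rw [Fin.sum_univ_succ]
    simp

/-- The integral over the sphere of a function of the coordinates in an orthonormal system. -/
lemma sph_const {d k : ℕ} (hk : k ≤ d + 1) {ψ : ℝ → ℝ} (hψ : Continuous ψ) {w w' : Fin k → E d}
    (hw : Orthonormal ℝ w) (hw' : Orthonormal ℝ w') :
    ∫ a : Sph d, ψ (∑ j, inner ℝ (w j) (a : E d) ^ 2) ∂(σn d) =
      ∫ a : Sph d, ψ (∑ j, inner ℝ (w' j) (a : E d) ^ 2) ∂(σn d) := by
  obtain ⟨B, hB⟩ := ext_basis hw hk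
  obtain ⟨B', hB'⟩ := ext_basis hw' hk
  let L : E d ≃ₗᵢ[ℝ] E d := B'.equiv B (Equiv.refl _)
  have hL : ∀ j, L (w' j) = w j := fun j => by
    rw [← hB', ← hB]
    exact OrthonormalBasis.equiv_apply_basis _ _ _ _
  have hc : Continuous fun a : Sph d => ψ (∑ j, inner ℝ (w j) (a : E d) ^ 2) := by
    refine hψ.comp (continuous_finsetSum _ fun j _ => ?_)
    exact (continuous_const.inner continuous_subtype_val).pow 2
  have h2 := integral_map (μ := σn d) (φ := actL L) (continuous_actL L).measurable.aemeasurable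
    (f := fun a : Sph d => ψ (∑ j, inner ℝ (w j) (a : E d) ^ 2)) hc.aestronglyMeasurable
  rw [map_n] at h2
  rw [h2]
  refine integral_congr_ae (Filter.Eventually.of_forall fun x => ?_)
  show ψ (∑ j, inner ℝ (w j) (L x : E d) ^ 2) = ψ (∑ j, inner ℝ (w' j) (x : E d) ^ 2)
  congr 1
  refine Finset.sum_congr rfl fun j _ => ?_
  rw [← hL, LinearIsometryEquiv.inner_map_map]

/-- Independence of the first vector of a frame and of a function of the second vector. -/
theorem marg_lemma {d k : ℕ} (hk : k ≤ d + 1) {J : Fin k → E (d + 1) →ₗ[ℝ] E (d + 1)}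
    (hJ : IsCliff J) {μ : Measure (Fr (d + 1))} (hμ : IsFrameMeasure (d + 1) μ) {ψ : ℝ → ℝ}
    (hψ : Continuous ψ) :
    ∃ C : ℝ, ∀ φ : Sph (d + 1) → ℝ, Continuous φ →
      ∫ b, ψ (∑ j, inner ℝ (J j (b.1 0)) (b.1 1) ^ 2) * φ (vecF b 0) ∂μ =
        C * ∫ b, φ (vecF b 0) ∂μ := by
  have := hμ.prob
  have := fr_compact (d + 1)
  have hJc : ∀ j, Continuous (J j) := fun j => (J j).continuous_of_finiteDimensional
  let u : Fin k → E d := fun j => EuclideanSpace.single (Fin.castLE hk j) 1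
  have hu : Orthonormal ℝ u := by
    have := (EuclideanSpace.basisFun (Fin (d + 1)) ℝ).orthonormal.comp (Fin.castLE hk)
      (Fin.castLE_injective hk)
    have e : (⇑(EuclideanSpace.basisFun (Fin (d + 1)) ℝ) ∘ Fin.castLE hk) = u := by
      funext j
      simp [u]
    rw [e] at this
    exact this
  refine ⟨∫ a : Sph d, ψ (∑ j, inner ℝ (u j) (a : E d) ^ 2) ∂(σn d), fun φ hφ => ?_⟩
  -- the function of the sphere and the frame
  let f : Sph d → Fr (d + 1) → ℝ := fun a b =>
    ψ (∑ j, inner ℝ (J j (b.1 0)) (∑ i : Fin (d + 1), (a : E d) i • b.1 i.succ) ^ 2) * φ (vecF b 0)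
  have hfc : Continuous (Function.uncurry f) := by
    refine (hψ.comp (continuous_finsetSum _ fun j _ => ?_)).mul (hφ.comp
      ((cont_vecF 0).comp continuous_snd))
    refine (Continuous.inner ((hJc j).comp ((cont_vec 0).comp continuous_snd))
      (continuous_finsetSum _ fun i _ => ?_)).pow 2
    have h1 : Continuous fun p : Sph d × Fr (d + 1) => (p.1 : E d) i :=
      (EuclideanSpace.proj (𝕜 := ℝ) i).continuous.comp
        (continuous_subtype_val.comp continuous_fst)
    have h2 : Continuous fun p : Sph d × Fr (d + 1) => p.2.1 i.succ :=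
      (cont_vec i.succ).comp continuous_snd
    exact h1.smul h2
  have hc0 : Continuous fun b : Fr (d + 1) =>
      ψ (∑ j, inner ℝ (J j (b.1 0)) (b.1 1) ^ 2) * φ (vecF b 0) := by
    refine (hψ.comp (continuous_finsetSum _ fun j _ => ?_)).mul (hφ.comp (cont_vecF 0))
    exact (Continuous.inner ((hJc j).comp (cont_vec 0)) (cont_vec 1)).pow 2
  have h1 : ∀ a : Sph d, ∫ b, f a b ∂μ =
      ∫ b, ψ (∑ j, inner ℝ (J j (b.1 0)) (b.1 1) ^ 2) * φ (vecF b 0) ∂μ := by
    intro a
    obtain ⟨A, hA⟩ := exists_A (mem_sphere_zero_iff_norm.1 a.2)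
    rw [← hμ.inv A _ hc0]
    refine integral_congr_ae (Filter.Eventually.of_forall fun b => ?_)
    have e0 : vecF (rotF A b) 0 = vecF b 0 := Subtype.ext (hA b).1
    simp only [f, e0, (hA b).1, (hA b).2]
  have h2 : ∫ a : Sph d, ∫ b, f a b ∂μ ∂(σn d) = ∫ b, ∫ a : Sph d, f a b ∂(σn d) ∂μ := by
    apply integral_integral_swap
    exact hfc.integrable_of_hasCompactSupport (HasCompactSupport.of_compactSpace _)
  have h3 : ∀ b : Fr (d + 1), ∫ a : Sph d, f a b ∂(σn d) =
      (∫ a : Sph d, ψ (∑ j, inner ℝ (u j) (a : E d) ^ 2) ∂(σn d)) * φ (vecF b 0) := by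
    intro b
    simp only [f]
    rw [integral_mul_const]
    congr 1
    let OB : OrthonormalBasis (Fin (d + 1 + 1)) ℝ (E (d + 1)) := OrthonormalBasis.mk b.2
      (b.2.linearIndependent.span_eq_top_of_card_eq_finrank (by simp)).ge
    have hOB : ∀ i, OB i = b.1 i := fun i => by
      simp only [OB]
      rw [OrthonormalBasis.coe_mk]
    let w : Fin k → E d := fun j => WithLp.toLp 2 fun i => inner ℝ (J j (b.1 0)) (b.1 i.succ)
    have hb0 : ‖b.1 0‖ = 1 := b.2.norm_eq_one 0
    have hw : Orthonormal ℝ w := by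
      rw [orthonormal_iff_ite]
      intro j l
      have e1 := OB.sum_inner_mul_inner (J j (b.1 0)) (J l (b.1 0))
      simp only [hOB, Fin.sum_univ_succ (n := d + 1)] at e1
      have e2 : inner ℝ (J j (b.1 0)) (b.1 0) = (0 : ℝ) := by
        rw [real_inner_comm]; exact cl_orth hJ j _
      rw [e2, zero_mul, zero_add] at e1
      rw [PiLp.inner_apply]
      have e3 : ∀ i : Fin (d + 1), inner ℝ ((w j).ofLp i) ((w l).ofLp i) =
          inner ℝ (J j (b.1 0)) (b.1 i.succ) * inner ℝ (b.1 i.succ) (J l (b.1 0)) := by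
        intro i
        simp only [w, RCLike.inner_apply, conj_trivial]
        rw [real_inner_comm (b.1 i.succ) (J l (b.1 0)), mul_comm]
      rw [Finset.sum_congr rfl fun i _ => e3 i, e1]
      split_ifs with hjl
      · rw [hjl, real_inner_self_eq_norm_sq, cl_norm hJ, hb0, one_pow]
      · exact cl_anti hJ hjl _
    rw [← sph_const hk hψ hw hu]
    refine integral_congr_ae (Filter.Eventually.of_forall fun a => ?_)
    show ψ _ = ψ _
    congr 1
    refine Finset.sum_congr rfl fun j _ => ?_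
    congr 1
    rw [inner_sum, PiLp.inner_apply]
    refine Finset.sum_congr rfl fun i _ => ?_
    simp only [w, RCLike.inner_apply, conj_trivial, real_inner_smul_right]
  have h4 : ∫ a : Sph d, ∫ b, f a b ∂μ ∂(σn d) =
      ∫ b, ψ (∑ j, inner ℝ (J j (b.1 0)) (b.1 1) ^ 2) * φ (vecF b 0) ∂μ := by
    simp only [h1]
    rw [integral_const]
    simp
  rw [← h4, h2]
  simp only [h3]
  rw [integral_const_mul]

end Pool.Agent.J6H78.FC
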