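import Pool.Agent.J6H78.FC.Hor1
import Pool.Agent.Y331.HC.Pos

/-! # Almost horizontal great circles -/

set_option autoImplicit false

open MeasureTheory Set Real Metric
open scoped ENNReal

namespace Pool.Agent.J6H78.FC

open Pool.Agent.Y499.HC Pool.Agent.Y499.HR Pool.Agent.Y502.HC Pool.Agent.Y249.HC

lemma exists_hor {d k : ℕ} (hk : k < d + 1) {J : Fin k → E (d + 1) →ₗ[ℝ] E (d + 1)}
    (hJ : IsCliff J) : ∃ b : Fr (d + 1), ∀ j, inner ℝ (J j (b.1 0)) (b.1 1) = (0 : ℝ) := by
  let x : E (d + 1) := EuclideanSpace.single 0 1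
  have hx : ‖x‖ = 1 := by simp [x]
  obtain ⟨B, hB⟩ := ext_basis (hJ x hx) (show k + 1 ≤ d + 1 + 1 by omega)
  let y : E (d + 1) := B ⟨k + 1, by omega⟩
  have hy : ∀ l : Fin (k + 1), inner ℝ ((Fin.cons x fun j => J j x : Fin (k + 1) → E (d + 1)) l) y =
      (0 : ℝ) := by
    intro l
    rw [← hB l]
    refine B.orthonormal.2 fun h => ?_
    have := congrArg Fin.val h
    simp at this
    omega
  have hw : Orthonormal ℝ (![x, y] : Fin 2 → E (d + 1)) := by
    rw [orthonormal_iff_ite]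
    have h0 : inner ℝ x y = (0 : ℝ) := hy 0
    have hyy : inner ℝ y y = (1 : ℝ) := by
      rw [real_inner_self_eq_norm_sq, B.orthonormal.1, one_pow]
    intro i j
    fin_cases i <;> fin_cases j
    · simp [hx]
    · simpa using h0
    · simpa [real_inner_comm] using h0
    · simpa using hyy
  obtain ⟨B', hB'⟩ := ext_basis hw (show 2 ≤ d + 1 + 1 by omega)
  refine ⟨⟨B', B'.orthonormal⟩, fun j => ?_⟩
  have h0 : B' 0 = x := hB' 0
  have h1 : B' 1 = y := hB' 1
  show inner ℝ (J j (B' 0)) (B' 1) = (0 : ℝ)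
  rw [h0, h1]
  exact hy j.succ

lemma cl_phi {d k : ℕ} {J : Fin k → E d →ₗ[ℝ] E d} (hJ : IsCliff J) (j : Fin k) (p : E d × E d)
    (θ : ℝ) : inner ℝ (J j (circ p θ)) (circ' p θ) = inner ℝ (J j p.1) p.2 := by
  have h1 : inner ℝ (J j p.1) p.1 = (0 : ℝ) := by rw [real_inner_comm]; exact cl_orth hJ j _
  have h2 : inner ℝ (J j p.2) p.2 = (0 : ℝ) := by rw [real_inner_comm]; exact cl_orth hJ j _
  have h3 := cl_skew hJ j p.2 p.1
  simp only [circ, circ', map_add, map_smul, inner_add_left, inner_add_right, real_inner_smul_left,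
    real_inner_smul_right, h1, h2, h3]
  linear_combination inner ℝ (J j p.1) p.2 * Real.sin_sq_add_cos_sq θ

/-- A uniform law of great circles which are almost orthogonal to the vector fields. -/
theorem hor_law {d k : ℕ} (hk : k < d + 1) {J : Fin k → E (d + 1) →ₗ[ℝ] E (d + 1)}
    (hJ : IsCliff J) {ε : ℝ} (hε : 0 < ε) :
    ∃ P : Measure (E (d + 1) × E (d + 1)), ULaw P ∧
      ∀ᵐ p ∂P, ∑ j, inner ℝ (J j p.1) p.2 ^ 2 ≤ ε := by
  obtain ⟨μ, hμ⟩ := t_FRAME (d + 1)
  have := hμ.prob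
  have := fr_compact (d + 1)
  have hJc : ∀ j, Continuous (J j) := fun j => (J j).continuous_of_finiteDimensional
  set ψ : ℝ → ℝ := fun t => max 0 (ε - t) with hψ
  have hψc : Continuous ψ := continuous_const.max (continuous_const.sub continuous_id)
  set w : Fr (d + 1) → ℝ := fun b => ψ (∑ j, inner ℝ (J j (b.1 0)) (b.1 1) ^ 2) with hw
  have hwc : Continuous w := by
    refine hψc.comp (continuous_finsetSum _ fun j _ => ?_)
    exact (Continuous.inner ((hJc j).comp (cont_vec 0)) (cont_vec 1)).pow 2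
  have hw0 : ∀ b, 0 ≤ w b := fun b => le_max_left _ _
  set Z : ℝ := ∫ b, w b ∂μ with hZ
  have hZpos : 0 < Z := by
    refine lt_of_le_of_ne (integral_nonneg hw0) fun h => ?_
    obtain ⟨b, hb⟩ := exists_hor hk hJ
    have h1 := Pool.Agent.Y331.HC.t_POS (d + 1) μ hμ w hwc hw0 h.symm b
    simp only [hw, hψ, hb] at h1
    norm_num at h1
    linarith
  -- the marginal
  obtain ⟨C, hC⟩ := marg_lemma (le_of_lt hk) hJ hμ hψc
  have hCZ : C = Z := by
    have := hC (fun _ => 1) continuous_const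
    simp only [mul_one, integral_const, probReal_univ, smul_eq_mul] at this
    exact this.symm
  rw [hCZ] at hC
  set ρ : Fr (d + 1) → ℝ≥0∞ := fun b => ENNReal.ofReal (w b / Z) with hρ
  have hρm : Measurable ρ := (hwc.div_const Z).measurable.ennreal_ofReal
  set Q : Measure (Fr (d + 1)) := μ.withDensity ρ with hQ
  have hQint : ∀ F : Fr (d + 1) → ℝ, ∫ b, F b ∂Q = Z⁻¹ * ∫ b, w b * F b ∂μ := by
    intro F
    rw [hQ, integral_withDensity_eq_integral_toReal_smul hρm
      (Filter.Eventually.of_forall fun b => ENNReal.ofReal_lt_top), ← integral_const_mul]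
    refine integral_congr_ae (Filter.Eventually.of_forall fun b => ?_)
    simp only [hρ, smul_eq_mul]
    rw [ENNReal.toReal_ofReal (div_nonneg (hw0 b) hZpos.le)]
    ring
  have hQprob : IsProbabilityMeasure Q := by
    constructor
    rw [hQ, withDensity_apply _ MeasurableSet.univ, Measure.restrict_univ]
    simp only [hρ]
    rw [← ofReal_integral_eq_lintegral_ofReal (integ μ _ (hwc.div_const Z))
      (Filter.Eventually.of_forall fun b => div_nonneg (hw0 b) hZpos.le), integral_div, ← hZ,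
      div_self hZpos.ne', ENNReal.ofReal_one]
  have hpc : Continuous fun b : Fr (d + 1) => (b.1 0, b.1 1) := (cont_vec 0).prodMk (cont_vec 1)
  have h01 : (0 : Fin (d + 1 + 1)) ≠ 1 := by
    intro h
    have := congrArg Fin.val h
    simp at this
  have hmem : ∀ b : Fr (d + 1), (b.1 0, b.1 1) ∈ Pairs (d + 1) := fun b =>
    ⟨b.2.1 0, b.2.1 1, b.2.2 h01⟩
  have hprob : IsProbabilityMeasure (Q.map fun b : Fr (d + 1) => (b.1 0, b.1 1)) :=
    Measure.isProbabilityMeasure_map hpc.measurable.aemeasurable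
  have hae : ∀ᵐ p ∂(Q.map fun b : Fr (d + 1) => (b.1 0, b.1 1)), p ∈ Pairs (d + 1) :=
    (ae_map_iff (p := fun p => p ∈ Pairs (d + 1)) hpc.measurable.aemeasurable
      (Pairs_closed (d + 1)).measurableSet).2 (Filter.Eventually.of_forall hmem)
  refine ⟨Q.map fun b : Fr (d + 1) => (b.1 0, b.1 1), ⟨hprob, hae, fun φ hφ θ => ?_⟩, ?_⟩
  · have hφc : ContinuousOn (fun p : E (d + 1) × E (d + 1) => φ (circ p θ)) (Pairs (d + 1)) := by
      refine hφ.comp ?_ fun p hp => by simpa using circ_norm hp θ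
      unfold circ
      fun_prop
    rw [integral_map hpc.measurable.aemeasurable (law_int hae hφc).aestronglyMeasurable, hQint]
    have hφs : Continuous fun x : Sph (d + 1) => φ (x : E (d + 1)) := by
      rw [← continuousOn_univ]
      exact hφ.comp continuous_subtype_val.continuousOn fun x _ => x.2
    have hcs : cos θ ^ 2 + sin θ ^ 2 = 1 := Real.cos_sq_add_sin_sq θ
    have hfc : Continuous fun b : Fr (d + 1) => w b * φ (vecF b 0 : E (d + 1)) :=
      hwc.mul (hφs.comp (cont_vecF 0))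
    have hd1 : 1 ≤ d + 1 := by omega
    have h1 : ∫ b, w b * φ (circ (b.1 0, b.1 1) θ) ∂μ =
        ∫ b, w b * φ (vecF b 0 : E (d + 1)) ∂μ := by
      rw [← hμ.inv ⟨_, R2_mem hd1 _ _ hcs⟩ _ hfc]
      refine integral_congr_ae (Filter.Eventually.of_forall fun b => ?_)
      have e0 : (rotF ⟨_, R2_mem hd1 _ _ hcs⟩ b).1 0 = circ (b.1 0, b.1 1) θ :=
        R2_rot0 hd1 _ _ hcs b
      have e1 : (rotF ⟨_, R2_mem hd1 _ _ hcs⟩ b).1 1 = circ' (b.1 0, b.1 1) θ :=
        R2_rot1 hd1 _ _ hcs b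
      have e2 : (vecF (rotF ⟨_, R2_mem hd1 _ _ hcs⟩ b) 0 : E (d + 1)) =
          circ (b.1 0, b.1 1) θ := e0
      simp only [hw, e0, e1, e2, cl_phi hJ]
    have h2 := hC _ hφs
    have h3 := hμ.marg _ hφs
    have hs0 : ((σ (d + 1)) univ).toReal ≠ 0 := (ENNReal.toReal_ne_zero).2 ⟨sigma_ne _, sigma_top _⟩
    rw [h1, h2, σn, integral_smul_measure, ENNReal.toReal_inv, ← h3, smul_eq_mul]
    field_simp
  · have hms : MeasurableSet {p : E (d + 1) × E (d + 1) | ∑ j, inner ℝ (J j p.1) p.2 ^ 2 ≤ ε} := by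
      refine (isClosed_le (continuous_finsetSum _ fun j _ => ?_) continuous_const).measurableSet
      exact (Continuous.inner ((hJc j).comp continuous_fst) continuous_snd).pow 2
    refine (ae_map_iff (p := fun p : E (d + 1) × E (d + 1) => ∑ j, inner ℝ (J j p.1) p.2 ^ 2 ≤ ε)
      hpc.measurable.aemeasurable hms).2 ?_
    rw [hQ, ae_withDensity_iff hρm]
    refine Filter.Eventually.of_forall fun b hb => ?_
    by_contra hc
    rw [not_le] at hc
    refine hb ?_
    simp only [hρ, hw, hψ]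
    rw [max_eq_left (by linarith), zero_div, ENNReal.ofReal_zero]

end Pool.Agent.J6H78.FC
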