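import Pool.Agent.J6H78.FC.Base

/-! # The integrated inequality of one factor -/

set_option autoImplicit false

open MeasureTheory Set Real

namespace Pool.Agent.J6H78.FC

/-- The weight. -/
noncomputable def wt (τ u : ℝ) : ℝ := 2 - τ ^ 2 / (τ ^ 2 + u ^ 2)

lemma wt_cont {τ : ℝ} (hτ : 0 < τ) : Continuous (wt τ) := by
  unfold wt
  refine continuous_const.sub (continuous_const.div (by fun_prop) fun u => ?_)
  positivity

lemma wt_nonneg {τ : ℝ} (hτ : 0 < τ) (u : ℝ) : 0 ≤ wt τ u := by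
  unfold wt
  have : τ ^ 2 / (τ ^ 2 + u ^ 2) ≤ 1 := by
    rw [div_le_one (by positivity)]
    nlinarith [sq_nonneg u]
  linarith

lemma int_I2 {τ : ℝ} (hτ : 0 < τ) (hτ1 : τ ≤ 1) :
    ∫ u in (0 : ℝ)..√(1 - τ ^ 2), wt τ u * (1 - √(τ ^ 2 + u ^ 2)) = EE τ := by
  have hd : ∀ u, HasDerivAt (fun u => 2 * u - τ * arctan (u / τ) - u * √(τ ^ 2 + u ^ 2))
      (wt τ u * (1 - √(τ ^ 2 + u ^ 2))) u := by
    intro u
    have hp : 0 < τ ^ 2 + u ^ 2 := by positivity
    have e1 := (hasDerivAt_id u).const_mul 2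
    have e2 := ((hasDerivAt_id u).div_const τ).arctan.const_mul τ
    have e3 : HasDerivAt (fun u : ℝ => τ ^ 2 + u ^ 2) (2 * u) u := by
      simpa using (hasDerivAt_pow 2 u).const_add (τ ^ 2)
    have e4 := (hasDerivAt_id u).mul (e3.sqrt hp.ne')
    refine ((e1.sub e2).sub e4).congr_deriv ?_
    have hs : √(τ ^ 2 + u ^ 2) ≠ 0 := (Real.sqrt_pos.2 hp).ne'
    have hs2 : √(τ ^ 2 + u ^ 2) ^ 2 = τ ^ 2 + u ^ 2 := Real.sq_sqrt hp.le
    simp only [id]
    generalize √(τ ^ 2 + u ^ 2) = q at *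
    unfold wt
    rw [← hs2]
    have h1 : 1 + (u / τ) ^ 2 = q ^ 2 / τ ^ 2 := by
      rw [hs2]; field_simp
    rw [h1]
    field_simp
    linear_combination q * hs2
  rw [intervalIntegral.integral_eq_sub_of_hasDerivAt (fun u _ => hd u)]
  · have h0 : (0 : ℝ) ≤ 1 - τ ^ 2 := by nlinarith
    have h1 : τ ^ 2 + √(1 - τ ^ 2) ^ 2 = 1 := by rw [Real.sq_sqrt h0]; ring
    rw [h1, Real.sqrt_one, EE, Real.arccos_eq_arctan hτ]
    simp
    ring
  · refine Continuous.intervalIntegrable ?_ _ _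
    exact (wt_cont hτ).mul (continuous_const.sub (Real.continuous_sqrt.comp (by fun_prop)))

lemma int_I1 {τ F : ℝ} (hτ : 0 < τ) (hF : 0 ≤ F) :
    ∫ u in (0 : ℝ)..F, wt τ u * √(F ^ 2 - u ^ 2) =
      π / 2 * (√(F ^ 2 + τ ^ 2) * (√(F ^ 2 + τ ^ 2) - τ)) := by
  rcases hF.eq_or_lt with h0 | h0
  · rw [← h0]
    simp [Real.sqrt_sq hτ.le]
  have hf2 : √(F ^ 2 + τ ^ 2) ^ 2 = F ^ 2 + τ ^ 2 := Real.sq_sqrt (by positivity)
  have hfp : 0 < √(F ^ 2 + τ ^ 2) := Real.sqrt_pos.2 (by positivity)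
  generalize √(F ^ 2 + τ ^ 2) = f at *
  have hq : ∀ u, 0 < √(τ ^ 2 + u ^ 2) := fun u => Real.sqrt_pos.2 (by positivity)
  have hq2 : ∀ u, √(τ ^ 2 + u ^ 2) ^ 2 = τ ^ 2 + u ^ 2 := fun u => Real.sq_sqrt (by positivity)
  have := intervalIntegral.integral_eq_sub_of_hasDerivAt_of_le (a := 0) (b := F)
    (f := fun u => u * √(F ^ 2 - u ^ 2) + (F ^ 2 + τ ^ 2) * arcsin (u / F) -
      τ * f * arcsin (f * u / (F * √(τ ^ 2 + u ^ 2))))
    (f' := fun u => wt τ u * √(F ^ 2 - u ^ 2)) hF ?_ ?_ ?_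
  · rw [this]
    have e1 : f * F / (F * √(τ ^ 2 + F ^ 2)) = 1 := by
      have : √(τ ^ 2 + F ^ 2) = f := by
        rw [show τ ^ 2 + F ^ 2 = f ^ 2 by rw [hf2]; ring, Real.sqrt_sq hfp.le]
      rw [this]
      field_simp
    rw [e1, div_self h0.ne', Real.arcsin_one, ← hf2]
    simp
    ring
  · refine Continuous.continuousOn ?_
    refine ((continuous_id.mul (Real.continuous_sqrt.comp (by fun_prop))).add
      (continuous_const.mul (Real.continuous_arcsin.comp (by fun_prop)))).sub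
      (continuous_const.mul (Real.continuous_arcsin.comp ?_))
    refine (continuous_const.mul continuous_id).div
      (continuous_const.mul (Real.continuous_sqrt.comp (by fun_prop))) fun u => ?_
    exact (mul_pos h0 (hq u)).ne'
  · intro u hu
    have hw : 0 < F ^ 2 - u ^ 2 := by nlinarith [hu.1, hu.2]
    have hwp : 0 < √(F ^ 2 - u ^ 2) := Real.sqrt_pos.2 hw
    have hw2 : √(F ^ 2 - u ^ 2) ^ 2 = F ^ 2 - u ^ 2 := Real.sq_sqrt hw.le
    have hq' := hq u
    have hq2' := hq2 u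
    have d1 : HasDerivAt (fun u : ℝ => F ^ 2 - u ^ 2) (-(2 * u)) u := by
      simpa using (hasDerivAt_pow 2 u).const_sub (F ^ 2)
    have e1 := (hasDerivAt_id u).mul (d1.sqrt hw.ne')
    have d2 : HasDerivAt (fun u : ℝ => τ ^ 2 + u ^ 2) (2 * u) u := by
      simpa using (hasDerivAt_pow 2 u).const_add (τ ^ 2)
    have z1 : u / F < 1 := (div_lt_one h0).2 hu.2
    have z1' : 0 < u / F := div_pos hu.1 h0
    have e2 := ((Real.hasDerivAt_arcsin (x := u / F) (by linarith) z1.ne).comp u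
      ((hasDerivAt_id u).div_const F)).const_mul (F ^ 2 + τ ^ 2)
    have hz2 : (f * u / (F * √(τ ^ 2 + u ^ 2))) ^ 2 < 1 := by
      rw [div_pow, div_lt_one (by positivity), mul_pow, mul_pow, hf2, hq2']
      nlinarith [mul_pos (sq_pos_of_pos hτ) hw]
    have hz2' : 0 < f * u / (F * √(τ ^ 2 + u ^ 2)) := div_pos (mul_pos hfp hu.1) (by positivity)
    have hz3 : f * u / (F * √(τ ^ 2 + u ^ 2)) < 1 := by nlinarith
    have d3 : HasDerivAt (fun u => f * u / (F * √(τ ^ 2 + u ^ 2)))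
        ((f * (F * √(τ ^ 2 + u ^ 2)) - f * u * (F * (2 * u / (2 * √(τ ^ 2 + u ^ 2))))) /
          (F * √(τ ^ 2 + u ^ 2)) ^ 2) u := by
      have := ((hasDerivAt_id u).const_mul f).div ((d2.sqrt (by positivity)).const_mul F)
        (mul_pos h0 hq').ne'
      refine HasDerivAt.congr_deriv (f := fun u => f * u / (F * √(τ ^ 2 + u ^ 2))) this ?_
      simp
    have e3 := ((Real.hasDerivAt_arcsin (x := f * u / (F * √(τ ^ 2 + u ^ 2))) (by linarith)
      hz3.ne).comp u d3).const_mul (τ * f)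
    refine ((e1.add e2).sub e3).congr_deriv ?_
    have r1 : √(1 - (u / F) ^ 2) = √(F ^ 2 - u ^ 2) / F := by
      rw [← Real.sqrt_sq h0.le, ← Real.sqrt_div' _ (sq_nonneg F), Real.sqrt_sq h0.le]
      congr 1
      field_simp
    have r2 : √(1 - (f * u / (F * √(τ ^ 2 + u ^ 2))) ^ 2) =
        τ * √(F ^ 2 - u ^ 2) / (F * √(τ ^ 2 + u ^ 2)) := by
      have : (1 : ℝ) - (f * u / (F * √(τ ^ 2 + u ^ 2))) ^ 2 =
          (τ * √(F ^ 2 - u ^ 2) / (F * √(τ ^ 2 + u ^ 2))) ^ 2 := by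
        rw [div_pow, div_pow, mul_pow, mul_pow, mul_pow, hf2, hq2', hw2]
        have : F ^ 2 * (τ ^ 2 + u ^ 2) ≠ 0 := by positivity
        field_simp
        ring
      rw [this, Real.sqrt_sq (by positivity)]
    simp only [id]
    rw [r1, r2]
    unfold wt
    generalize √(τ ^ 2 + u ^ 2) = q at *
    rw [← hq2']
    generalize √(F ^ 2 - u ^ 2) = w at *
    have hw0 := hwp.ne'
    have hq0 := hq'.ne'
    have hF0 := h0.ne'
    have hf0 := hfp.ne'
    have hτ0 := hτ.ne'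
    field_simp
    linear_combination (-w ^ 2 - u ^ 2) * hq2' + (u ^ 2 - q ^ 2) * hf2 - u ^ 2 * hw2
  · refine Continuous.intervalIntegrable ?_ _ _
    exact (wt_cont hτ).mul (Real.continuous_sqrt.comp (by fun_prop))

lemma le_int_of_zero {p : ℝ → ℝ} (hp : Continuous p) (h0 : ∀ u, 0 ≤ p u) {F U : ℝ} (hF : 0 ≤ F)
    (hU : 0 ≤ U) (hz : ∀ u, F ≤ u → p u = 0) : ∫ u in (0 : ℝ)..U, p u ≤ ∫ u in (0 : ℝ)..F, p u := by
  rcases le_total U F with h | h
  · rw [← intervalIntegral.integral_add_adjacent_intervals (hp.intervalIntegrable 0 U)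
      (hp.intervalIntegrable U F)]
    have := intervalIntegral.integral_nonneg h (fun u _ => h0 u) (μ := volume)
    linarith
  · rw [← intervalIntegral.integral_add_adjacent_intervals (hp.intervalIntegrable 0 F)
      (hp.intervalIntegrable F U)]
    have : ∫ u in F..U, p u = 0 := by
      rw [intervalIntegral.integral_congr (g := fun _ => 0)]
      · simp
      · intro u hu
        rw [uIcc_of_le h] at hu
        exact hz u hu.1
    linarith

/-- The inequality of the primitive. -/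
theorem pd_core {g : ℝ → ℝ} (hg : Continuous g) {τ t : ℝ} (hτ : 0 < τ) (hτ1 : τ ≤ 1) (ht : 0 ≤ t)
    (hgτ : ∀ s, τ ≤ g s)
    (hJ : ∀ c, τ ≤ c → c ≤ 1 → π * (1 - c) ≤ 2 * ∫ s in (0 : ℝ)..t, √(1 - c ^ 2 / g s ^ 2)) :
    τ * t + EE τ ≤ ∫ s in (0 : ℝ)..t, g s := by
  have hg0 : ∀ s, 0 < g s := fun s => hτ.trans_le (hgτ s)
  have hU0 : (0 : ℝ) ≤ 1 - τ ^ 2 := by nlinarith
  set U := √(1 - τ ^ 2) with hU
  have hUn : 0 ≤ U := Real.sqrt_nonneg _
  have hcc : Continuous fun u : ℝ => √(τ ^ 2 + u ^ 2) := Real.continuous_sqrt.comp (by fun_prop)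
  set φ : ℝ → ℝ → ℝ := fun s u => wt τ u * √(1 - √(τ ^ 2 + u ^ 2) ^ 2 / g s ^ 2) with hφ
  have hφc : Continuous (Function.uncurry φ) := by
    refine ((wt_cont hτ).comp continuous_snd).mul (Real.continuous_sqrt.comp
      (continuous_const.sub (((hcc.comp continuous_snd).pow 2).div
        ((hg.comp continuous_fst).pow 2) fun p => ?_)))
    exact (pow_pos (hg0 _) 2).ne'
  -- the inner integral
  have hin : ∀ s, ∫ u in (0 : ℝ)..U, φ s u ≤ π / 2 * (g s - τ) := by
    intro s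
    have hgs := hg0 s
    have hF2 : 0 ≤ g s ^ 2 - τ ^ 2 := by nlinarith [hgτ s]
    set F := √(g s ^ 2 - τ ^ 2) with hF
    have hF' : F ^ 2 = g s ^ 2 - τ ^ 2 := Real.sq_sqrt hF2
    have hFn : 0 ≤ F := Real.sqrt_nonneg _
    have hgF : √(F ^ 2 + τ ^ 2) = g s := by
      rw [hF', sub_add_cancel, Real.sqrt_sq hgs.le]
    have e1 : ∀ u, φ s u = (g s)⁻¹ * (wt τ u * √(F ^ 2 - u ^ 2)) := by
      intro u
      simp only [hφ]
      rw [Real.sq_sqrt (by positivity)]
      have : 1 - (τ ^ 2 + u ^ 2) / g s ^ 2 = (F ^ 2 - u ^ 2) / g s ^ 2 := by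
        rw [hF']; field_simp; ring
      rw [this, Real.sqrt_div' _ (sq_nonneg _), Real.sqrt_sq hgs.le]
      ring
    simp_rw [e1]
    rw [intervalIntegral.integral_const_mul]
    have e2 : ∫ u in (0 : ℝ)..U, wt τ u * √(F ^ 2 - u ^ 2) ≤ π / 2 * (g s * (g s - τ)) := by
      rw [← hgF, ← int_I1 hτ hFn]
      have cp : Continuous fun u : ℝ => wt τ u * √(F ^ 2 - u ^ 2) :=
        (wt_cont hτ).mul (Real.continuous_sqrt.comp (by fun_prop))
      refine le_int_of_zero cp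
        (fun u => mul_nonneg (wt_nonneg hτ u) (Real.sqrt_nonneg _)) hFn hUn fun u hu => ?_
      have : F ^ 2 - u ^ 2 ≤ 0 := by nlinarith
      rw [Real.sqrt_eq_zero_of_nonpos this, mul_zero]
    calc (g s)⁻¹ * ∫ u in (0 : ℝ)..U, wt τ u * √(F ^ 2 - u ^ 2) ≤
        (g s)⁻¹ * (π / 2 * (g s * (g s - τ))) :=
          mul_le_mul_of_nonneg_left e2 (inv_nonneg.2 hgs.le)
      _ = π / 2 * (g s - τ) := by field_simp
  -- exchange the integrals
  have hsw : ∫ s in (0 : ℝ)..t, ∫ u in (0 : ℝ)..U, φ s u =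
      ∫ u in (0 : ℝ)..U, ∫ s in (0 : ℝ)..t, φ s u := by
    refine intervalIntegral_intervalIntegral_swap ?_
    exact (hφc.continuousOn.integrableOn_compact (isCompact_uIcc.prod isCompact_uIcc)).mono_set
      (prod_mono uIoc_subset_uIcc uIoc_subset_uIcc)
  have h1 : ∫ s in (0 : ℝ)..t, ∫ u in (0 : ℝ)..U, φ s u ≤ ∫ s in (0 : ℝ)..t, π / 2 * (g s - τ) := by
    refine intervalIntegral.integral_mono_on ht ?_ ?_ fun s _ => hin s
    · exact (intervalIntegral.continuous_parametric_intervalIntegral_of_continuous' hφc 0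
        U).intervalIntegrable _ _
    · exact (continuous_const.mul (hg.sub continuous_const)).intervalIntegrable _ _
  have h2 : ∫ s in (0 : ℝ)..t, π / 2 * (g s - τ) = π / 2 * ((∫ s in (0 : ℝ)..t, g s) - τ * t) := by
    rw [intervalIntegral.integral_const_mul, intervalIntegral.integral_sub
      (hg.intervalIntegrable _ _) (continuous_const.intervalIntegrable _ _)]
    simp
    ring_nf
  have h3 : π * EE τ ≤ 2 * ∫ u in (0 : ℝ)..U, ∫ s in (0 : ℝ)..t, φ s u := by
    rw [← int_I2 hτ hτ1, ← intervalIntegral.integral_const_mul,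
      ← intervalIntegral.integral_const_mul]
    refine intervalIntegral.integral_mono_on hUn ?_ ?_ fun u hu => ?_
    · exact (continuous_const.mul ((wt_cont hτ).mul (continuous_const.sub hcc))).intervalIntegrable
        _ _
    · refine (continuous_const.mul
        (intervalIntegral.continuous_parametric_intervalIntegral_of_continuous' ?_ 0
          t)).intervalIntegrable _ _
      exact hφc.comp continuous_swap
    · simp only [hφ]
      rw [intervalIntegral.integral_const_mul]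
      have hc1 : τ ≤ √(τ ^ 2 + u ^ 2) := by
        conv_lhs => rw [← Real.sqrt_sq hτ.le]
        exact Real.sqrt_le_sqrt (by nlinarith [sq_nonneg u])
      have hc2 : √(τ ^ 2 + u ^ 2) ≤ 1 := by
        rw [← Real.sqrt_one]
        refine Real.sqrt_le_sqrt ?_
        have : u ^ 2 ≤ U ^ 2 := by nlinarith [hu.1, hu.2]
        rw [hU, Real.sq_sqrt hU0] at this
        linarith
      have := mul_le_mul_of_nonneg_left (hJ _ hc1 hc2) (wt_nonneg hτ u)
      linarith
  rw [← hsw] at h3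
  have h4 : π * EE τ ≤ π * ((∫ s in (0 : ℝ)..t, g s) - τ * t) := by
    calc π * EE τ ≤ 2 * (π / 2 * ((∫ s in (0 : ℝ)..t, g s) - τ * t)) := by
          rw [← h2]; linarith
      _ = _ := by ring
  have h5 := le_of_mul_le_mul_left h4 Real.pi_pos
  linarith

end Pool.Agent.J6H78.FC
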