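import Pool.Agent.J6H78.FC.Path
import Pool.Agent.J6H78.FC.PD

/-! # The geodesic inequality of one factor -/

set_option autoImplicit false

open MeasureTheory Set Real

namespace Pool.Agent.J6H78.FC

lemma g_zero {R : ℝ} {f : ℝ → ℝ} (hNS : NS R f) (hR : 0 < R) {g : ℝ → ℝ} (hg : Continuous g)
    (hg0 : 0 < g 0) (hfg : f 0 = g 0) : 1 ≤ g 0 := by
  have := path_ineq hNS le_rfl hR hg (continuous_const (y := (0 : ℝ)))
    (fun s hs => by rw [le_antisymm hs.2 hs.1]; exact hfg) hg0.le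
  rw [intervalIntegral.integral_same, intervalIntegral.integral_same, mul_zero, sub_zero,
    zero_add, abs_of_pos Real.pi_pos] at this
  by_contra h
  rw [not_le] at h
  nlinarith [Real.pi_pos]

theorem J_ineq {R : ℝ} {f : ℝ → ℝ} (hNS : NS R f) {g : ℝ → ℝ} (hg : Continuous g)
    (hg0 : ∀ s, 0 < g s) {t : ℝ} (ht0 : 0 ≤ t) (htR : t < R) (hfg : ∀ s ∈ Icc 0 t, f s = g s)
    {c : ℝ} (hc0 : 0 < c) (hc1 : c ≤ 1) (hex : ∃ s ∈ Icc 0 t, g s ≤ c) :
    π * (1 - c) ≤ 2 * ∫ s in (0 : ℝ)..t, √(1 - c ^ 2 / g s ^ 2) := by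
  have hone : 1 ≤ g 0 := g_zero hNS (ht0.trans_lt htR) hg (hg0 0) (hfg 0 ⟨le_rfl, ht0⟩)
  -- the first point of level `c`
  have hlev : ∀ b ∈ Icc 0 t, g b ≤ c → ∃ s ∈ Icc 0 b, g s = c := by
    intro b hb hbc
    obtain ⟨s, hs, hsc⟩ := intermediate_value_Icc' hb.1 hg.continuousOn ⟨hbc, hc1.trans hone⟩
    exact ⟨s, hs, hsc⟩
  set S : Set ℝ := {s | s ∈ Icc 0 t ∧ g s = c} with hS
  have hSc : IsClosed S := isClosed_Icc.inter (isClosed_eq hg continuous_const)
  have hSn : S.Nonempty := by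
    obtain ⟨b, hb, hbc⟩ := hex
    obtain ⟨s, hs, hsc⟩ := hlev b hb hbc
    exact ⟨s, ⟨hs.1, hs.2.trans hb.2⟩, hsc⟩
  have hSb : BddBelow S := ⟨0, fun s hs => hs.1.1⟩
  set s₁ := sInf S with hs₁
  obtain ⟨hs₁t, hs₁c⟩ : s₁ ∈ S := hSc.csInf_mem hSn hSb
  have hbig : ∀ s ∈ Icc 0 s₁, c ≤ g s := by
    intro s hs
    by_contra h
    rw [not_le] at h
    obtain ⟨s', hs', hsc'⟩ := hlev s ⟨hs.1, hs.2.trans hs₁t.2⟩ h.le
    have h1 : s₁ ≤ s' := csInf_le hSb ⟨⟨hs'.1, hs'.2.trans (hs.2.trans hs₁t.2)⟩, hsc'⟩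
    have h2 : s = s₁ := le_antisymm hs.2 (h1.trans hs'.2)
    rw [h2, hs₁c] at h
    exact lt_irrefl _ h
  set G : ℝ → ℝ := fun s => max (g s) c with hG
  have hGc : Continuous G := hg.max continuous_const
  have hGg : ∀ s ∈ Icc 0 s₁, G s = g s := fun s hs => max_eq_left (hbig s hs)
  have hGlow : ∀ s, c ≤ G s := fun s => le_max_right _ _
  have hGpos : ∀ s, 0 < G s := fun s => hc0.trans_le (hGlow s)
  have hmain : ∀ c' ∈ Ioo 0 c, π * (1 - c) ≤ 2 * ∫ s in (0 : ℝ)..s₁, √(1 - c' ^ 2 / G s ^ 2) := by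
    intro c' hc'
    have hDp : ∀ s, 0 < G s ^ 2 - c' ^ 2 := fun s => by
      have := hGlow s
      nlinarith [hc'.1, hc'.2]
    set D : ℝ → ℝ := fun s => √(G s ^ 2 - c' ^ 2) with hD
    have hDc : Continuous D := Real.continuous_sqrt.comp ((hGc.pow 2).sub continuous_const)
    have hD0 : ∀ s, 0 < D s := fun s => Real.sqrt_pos.2 (hDp s)
    have hD2 : ∀ s, D s ^ 2 = G s ^ 2 - c' ^ 2 := fun s => Real.sq_sqrt (hDp s).le
    set h : ℝ → ℝ := fun s => c' / (G s * D s) with hh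
    have hhc : Continuous h :=
      continuous_const.div (hGc.mul hDc) fun s => (mul_pos (hGpos s) (hD0 s)).ne'
    have hh0 : ∀ s, 0 < h s := fun s => div_pos hc'.1 (mul_pos (hGpos s) (hD0 s))
    have hDG : ∀ s, √(1 - c' ^ 2 / G s ^ 2) = D s / G s := fun s => by
      have hGs := hGpos s
      have : 1 - c' ^ 2 / G s ^ 2 = (D s / G s) ^ 2 := by
        rw [div_pow, hD2]
        field_simp
      rw [this, Real.sqrt_sq (div_nonneg (hD0 s).le hGs.le)]
    have hqc : Continuous fun s => D s / G s := hDc.div hGc fun s => (hGpos s).ne'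
    simp_rw [hDG]
    have hpath : ∀ s₂ ∈ Icc 0 s₁, π ≤ 2 * (∫ s in (0 : ℝ)..s₂, D s / G s) +
        2 * c' * (∫ s in (0 : ℝ)..s₂, h s) + g s₂ * |π - 2 * ∫ s in (0 : ℝ)..s₂, h s| := by
      intro s₂ hs₂
      have hs₂t : s₂ ≤ t := hs₂.2.trans hs₁t.2
      have h1 := path_ineq hNS hs₂.1 (hs₂t.trans_lt htR) hg hhc
        (fun s hs => hfg s ⟨hs.1, hs.2.trans hs₂t⟩) (hg0 s₂).le
      have h2 : ∫ s in (0 : ℝ)..s₂, √(1 + g s ^ 2 * h s ^ 2) =
          (∫ s in (0 : ℝ)..s₂, D s / G s) + c' * ∫ s in (0 : ℝ)..s₂, h s := by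
        have hch : Continuous fun s => c' * h s := continuous_const.mul hhc
        rw [← intervalIntegral.integral_const_mul, ← intervalIntegral.integral_add
          (hqc.intervalIntegrable _ _) (hch.intervalIntegrable _ _)]
        refine intervalIntegral.integral_congr fun s hs => ?_
        rw [uIcc_of_le hs₂.1] at hs
        have hGs := hGpos s
        have hDs := hD0 s
        rw [← hGg s ⟨hs.1, hs.2.trans hs₂.2⟩]
        have : 1 + G s ^ 2 * h s ^ 2 = (G s / D s) ^ 2 := by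
          simp only [hh]
          rw [div_pow, div_pow, mul_pow]
          field_simp
          rw [hD2]
          ring
        rw [this, Real.sqrt_sq (div_nonneg hGs.le hDs.le)]
        simp only [hh]
        field_simp
        rw [hD2]
        ring
      rw [h2] at h1
      linarith
    have hmono : ∀ s₂ ∈ Icc 0 s₁, ∫ s in (0 : ℝ)..s₂, D s / G s ≤ ∫ s in (0 : ℝ)..s₁, D s / G s := by
      intro s₂ hs₂
      rw [← intervalIntegral.integral_add_adjacent_intervals (hqc.intervalIntegrable 0 s₂)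
        (hqc.intervalIntegrable s₂ s₁)]
      have := intervalIntegral.integral_nonneg (μ := volume) hs₂.2
        (fun s _ => div_nonneg (hD0 s).le (hGpos s).le)
      linarith
    rcases le_or_gt (2 * ∫ s in (0 : ℝ)..s₁, h s) π with hI | hI
    · have h1 := hpath s₁ ⟨hs₁t.1, le_rfl⟩
      rw [hs₁c, abs_of_nonneg (by linarith)] at h1
      have h2 : 0 ≤ ∫ s in (0 : ℝ)..s₁, h s :=
        intervalIntegral.integral_nonneg hs₁t.1 fun s _ => (hh0 s).le
      have h3 : c' * (∫ s in (0 : ℝ)..s₁, h s) ≤ c * ∫ s in (0 : ℝ)..s₁, h s :=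
        mul_le_mul_of_nonneg_right hc'.2.le h2
      linarith
    · have hcI : Continuous fun x : ℝ => 2 * ∫ s in (0 : ℝ)..x, h s :=
        continuous_const.mul (intervalIntegral.continuous_primitive
          (fun a b => hhc.intervalIntegrable a b) 0)
      obtain ⟨s₂, hs₂, hs₂I⟩ := intermediate_value_Icc hs₁t.1 hcI.continuousOn
        (show π ∈ Icc _ _ from ⟨by simp [Real.pi_pos.le], hI.le⟩)
      have h1 := hpath s₂ hs₂
      have hs₂I' : 2 * (∫ s in (0 : ℝ)..s₂, h s) = π := hs₂I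
      rw [hs₂I', sub_self, abs_zero, mul_zero, add_zero] at h1
      have h2 := hmono s₂ hs₂
      have h3 : 2 * c' * (∫ s in (0 : ℝ)..s₂, h s) = c' * π := by rw [← hs₂I']; ring
      rw [h3] at h1
      have h4 : c' * π ≤ c * π := mul_le_mul_of_nonneg_right hc'.2.le Real.pi_pos.le
      linarith
  -- the limit
  have hlim : π * (1 - c) ≤ 2 * ∫ s in (0 : ℝ)..s₁, √(1 - c ^ 2 / G s ^ 2) := by
    have hcont : Continuous fun c' : ℝ => 2 * ∫ s in (0 : ℝ)..s₁, √(1 - c' ^ 2 / G s ^ 2) := by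
      refine continuous_const.mul
        (intervalIntegral.continuous_parametric_intervalIntegral_of_continuous' ?_ 0 s₁)
      refine Real.continuous_sqrt.comp (continuous_const.sub ((continuous_fst.pow 2).div
        ((hGc.comp continuous_snd).pow 2) fun p => ?_))
      exact (pow_pos (hGpos _) 2).ne'
    have h1 : Filter.Tendsto (fun c' : ℝ => 2 * ∫ s in (0 : ℝ)..s₁, √(1 - c' ^ 2 / G s ^ 2))
        (nhdsWithin c (Iio c)) (nhds (2 * ∫ s in (0 : ℝ)..s₁, √(1 - c ^ 2 / G s ^ 2))) :=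
      (hcont.tendsto c).mono_left nhdsWithin_le_nhds
    refine ge_of_tendsto h1 ?_
    filter_upwards [Ioo_mem_nhdsLT hc0] with c' hc'
    exact hmain c' hc'
  refine hlim.trans ?_
  have hc : Continuous fun s => √(1 - c ^ 2 / g s ^ 2) :=
    Real.continuous_sqrt.comp (continuous_const.sub (continuous_const.div (hg.pow 2) fun s =>
      (pow_pos (hg0 s) 2).ne'))
  have e1 : ∫ s in (0 : ℝ)..s₁, √(1 - c ^ 2 / G s ^ 2) = ∫ s in (0 : ℝ)..s₁, √(1 - c ^ 2 / g s ^ 2) := by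
    refine intervalIntegral.integral_congr fun s hs => ?_
    rw [uIcc_of_le hs₁t.1] at hs
    simp only [hGg s hs]
  rw [e1, ← intervalIntegral.integral_add_adjacent_intervals (hc.intervalIntegrable 0 s₁)
    (hc.intervalIntegrable s₁ t)]
  have := intervalIntegral.integral_nonneg (μ := volume) hs₁t.2
    (fun s _ => Real.sqrt_nonneg (1 - c ^ 2 / g s ^ 2))
  linarith

end Pool.Agent.J6H78.FC
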