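import Pool.Agent.J6H78.FC.Geo
import Pool.Agent.Y502.HC.Frame

/-! # Uniform laws of great circles -/

set_option autoImplicit false

open MeasureTheory Set Real Metric
open scoped ENNReal

namespace Pool.Agent.J6H78.FC

open Pool.Agent.Y499.HC Pool.Agent.Y499.HR Pool.Agent.Y502.HC

/-- The uniform probability measure of the sphere. -/
noncomputable def σn (d : ℕ) : Measure (Sph d) := ((σ d) univ)⁻¹ • σ d

lemma sigma_ne (d : ℕ) : (σ d) univ ≠ 0 := by
  rw [Measure.measure_univ_ne_zero]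
  exact Measure.toSphere_ne_zero _

lemma sigma_top (d : ℕ) : (σ d) univ ≠ ⊤ := measure_ne_top _ _

instance (d : ℕ) : IsProbabilityMeasure (σn d) := ⟨by
  rw [σn, Measure.smul_apply, smul_eq_mul]
  exact ENNReal.inv_mul_cancel (sigma_ne d) (sigma_top d)⟩

lemma map_n {d : ℕ} (L : E d ≃ₗᵢ[ℝ] E d) : (σn d).map (actL L) = σn d := by
  rw [σn, Measure.map_smul, map_actL]

/-- A law of great circles all of whose points are uniformly distributed. -/
structure ULaw {d : ℕ} (P : Measure (E d × E d)) : Prop where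
  prob : IsProbabilityMeasure P
  mem : ∀ᵐ p ∂P, p ∈ Pairs d
  unif : ∀ φ : E d → ℝ, ContinuousOn φ (sphere 0 1) → ∀ θ,
    ∫ p, φ (circ p θ) ∂P = ∫ x : Sph d, φ x ∂(σn d)

lemma law_int {d : ℕ} {P : Measure (E d × E d)} [IsProbabilityMeasure P]
    (hP : ∀ᵐ p ∂P, p ∈ Pairs d) {F : E d × E d → ℝ} (hF : ContinuousOn F (Pairs d)) :
    Integrable F P := by
  have hPr : P.restrict (Pairs d) = P := Measure.restrict_eq_self_of_ae_mem hP
  have := hF.integrableOn_compact (μ := P) (Pairs_compact d)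
  rwa [IntegrableOn, hPr] at this

/-- Linear vector fields which, with the position, form an orthonormal frame. -/
def IsCliff {d k : ℕ} (J : Fin k → E d →ₗ[ℝ] E d) : Prop :=
  ∀ x : E d, ‖x‖ = 1 → Orthonormal ℝ (Fin.cons x fun j => J j x : Fin (k + 1) → E d)

section cliff

variable {d k : ℕ} {J : Fin k → E d →ₗ[ℝ] E d} (hJ : IsCliff J)

include hJ

lemma cl_norm (j : Fin k) (x : E d) : ‖J j x‖ = ‖x‖ := by
  rcases eq_or_ne x 0 with rfl | hx
  · simp
  · have hn : ‖x‖ ≠ 0 := norm_ne_zero_iff.2 hx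
    have h1 : ‖(‖x‖⁻¹ • x)‖ = 1 := by
      rw [norm_smul, norm_inv, norm_norm, inv_mul_cancel₀ hn]
    have h2 := (hJ _ h1).1 j.succ
    simp only [Fin.cons_succ, map_smul, norm_smul, norm_inv, norm_norm] at h2
    field_simp at h2
    exact h2

lemma cl_orth (j : Fin k) (x : E d) : inner ℝ x (J j x) = (0 : ℝ) := by
  rcases eq_or_ne x 0 with rfl | hx
  · simp
  · have hn : ‖x‖ ≠ 0 := norm_ne_zero_iff.2 hx
    have h1 : ‖(‖x‖⁻¹ • x)‖ = 1 := by
      rw [norm_smul, norm_inv, norm_norm, inv_mul_cancel₀ hn]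
    have h2 := (hJ _ h1).2 (show (0 : Fin (k + 1)) ≠ j.succ from (Fin.succ_ne_zero j).symm)
    simp only [Fin.cons_succ, Fin.cons_zero, map_smul, real_inner_smul_left,
      real_inner_smul_right] at h2
    have h3 : ‖x‖⁻¹ ≠ 0 := inv_ne_zero hn
    simpa [h3] using h2

lemma cl_anti {i j : Fin k} (hij : i ≠ j) (x : E d) : inner ℝ (J i x) (J j x) = (0 : ℝ) := by
  rcases eq_or_ne x 0 with rfl | hx
  · simp
  · have hn : ‖x‖ ≠ 0 := norm_ne_zero_iff.2 hx
    have h1 : ‖(‖x‖⁻¹ • x)‖ = 1 := by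
      rw [norm_smul, norm_inv, norm_norm, inv_mul_cancel₀ hn]
    have h2 := (hJ _ h1).2 (show i.succ ≠ j.succ from fun h => hij (Fin.succ_injective _ h))
    simp only [Fin.cons_succ, map_smul, real_inner_smul_left,
      real_inner_smul_right] at h2
    have h3 : ‖x‖⁻¹ ≠ 0 := inv_ne_zero hn
    simpa [h3] using h2

lemma cl_skew (j : Fin k) (x y : E d) : inner ℝ (J j x) y = -inner ℝ (J j y) x := by
  have h := cl_orth hJ j (x + y)
  rw [map_add, inner_add_left, inner_add_right, inner_add_right, cl_orth hJ, cl_orth hJ] at h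
  rw [real_inner_comm x (J j y)]
  rw [real_inner_comm y (J j x)] at *
  linarith

lemma cl_inner (j : Fin k) (x y : E d) : inner ℝ (J j x) (J j y) = inner ℝ x y := by
  have h1 := cl_norm hJ j (x + y)
  have h2 : ‖J j (x + y)‖ ^ 2 = ‖x + y‖ ^ 2 := by rw [h1]
  rw [map_add, norm_add_sq_real, norm_add_sq_real, cl_norm hJ, cl_norm hJ] at h2
  linarith

lemma cl_sq (j : Fin k) (x : E d) : J j (J j x) = -x := by
  refine ext_inner_right ℝ fun y => ?_
  rw [cl_skew hJ, cl_inner hJ, inner_neg_left, real_inner_comm]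

lemma cl_pair (j : Fin k) {x : E d} (hx : ‖x‖ = 1) : (x, J j x) ∈ Pairs d :=
  ⟨hx, by rw [cl_norm hJ]; exact hx, cl_orth hJ j x⟩

lemma cl_circ (j : Fin k) (x : E d) (θ : ℝ) : circ' (x, J j x) θ = J j (circ (x, J j x) θ) := by
  simp only [circ, circ', map_add, map_smul, cl_sq hJ]
  rw [smul_neg, neg_smul, add_comm]

/-- The rotation `exp (θ J)`. -/
lemma exists_rot (j : Fin k) (θ : ℝ) : ∃ L : E d ≃ₗᵢ[ℝ] E d, ∀ x, L x = circ (x, J j x) θ := by
  let A : E d →ₗ[ℝ] E d := cos θ • LinearMap.id + sin θ • J j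
  have hA : ∀ x, A x = circ (x, J j x) θ := fun x => by simp [A, circ]
  have hn : ∀ x, ‖A x‖ = ‖x‖ := by
    intro x
    have h : ‖A x‖ ^ 2 = ‖x‖ ^ 2 := by
      rw [hA, circ, norm_add_sq_real, norm_smul, norm_smul, real_inner_smul_left,
        real_inner_smul_right, cl_orth hJ, cl_norm hJ, mul_pow, mul_pow, Real.norm_eq_abs,
        Real.norm_eq_abs, sq_abs, sq_abs]
      nlinarith [Real.sin_sq_add_cos_sq θ]
    exact (pow_left_inj₀ (norm_nonneg _) (norm_nonneg _) two_ne_zero).1 h
  let L : E d →ₗᵢ[ℝ] E d := ⟨A, hn⟩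
  refine ⟨L.toLinearIsometryEquiv rfl, fun x => ?_⟩
  rw [LinearIsometry.toLinearIsometryEquiv_apply]
  exact hA x

/-- The law of the orbits of `exp (θ J)`. -/
theorem cliff_law (j : Fin k) :
    ULaw ((σn d).map fun x : Sph d => ((x : E d), J j (x : E d))) := by
  have hJc : Continuous (J j) := (J j).continuous_of_finiteDimensional
  have hc : Continuous fun x : Sph d => ((x : E d), J j (x : E d)) :=
    continuous_subtype_val.prodMk (hJc.comp continuous_subtype_val)
  have hmem : ∀ x : Sph d, ((x : E d), J j (x : E d)) ∈ Pairs d := fun x =>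
    cl_pair hJ j (mem_sphere_zero_iff_norm.1 x.2)
  have hprob : IsProbabilityMeasure ((σn d).map fun x : Sph d => ((x : E d), J j (x : E d))) :=
    Measure.isProbabilityMeasure_map hc.measurable.aemeasurable
  have hae : ∀ᵐ p ∂((σn d).map fun x : Sph d => ((x : E d), J j (x : E d))), p ∈ Pairs d := by
    exact (ae_map_iff (p := fun p => p ∈ Pairs d) hc.measurable.aemeasurable
      (Pairs_closed d).measurableSet).2 (Filter.Eventually.of_forall hmem)
  refine ⟨hprob, hae, fun φ hφ θ => ?_⟩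
  have hφc : ContinuousOn (fun p : E d × E d => φ (circ p θ)) (Pairs d) := by
    refine hφ.comp ?_ fun p hp => by simpa using circ_norm hp θ
    unfold circ
    fun_prop
  rw [integral_map hc.measurable.aemeasurable (law_int hae hφc).aestronglyMeasurable]
  obtain ⟨L, hL⟩ := exists_rot hJ j θ
  have h1 : Continuous fun x : Sph d => φ (x : E d) := by
    rw [← continuousOn_univ]
    exact hφ.comp continuous_subtype_val.continuousOn fun x _ => x.2
  have h2 := integral_map (μ := σn d) (φ := actL L) (continuous_actL L).measurable.aemeasurable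
    (f := fun x : Sph d => φ (x : E d)) h1.aestronglyMeasurable
  rw [map_n] at h2
  rw [h2]
  refine integral_congr_ae (Filter.Eventually.of_forall fun x => ?_)
  show φ (circ ((x : E d), J j (x : E d)) θ) = φ (L x)
  rw [hL]

end cliff

end Pool.Agent.J6H78.FC
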