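import Pool.Agent.J6H78.FC.Slice

/-! # The volume of collars with conformally homogeneous anisotropic slices -/

set_option autoImplicit false

open MeasureTheory Set Real Metric
open scoped ENNReal

namespace Pool.Agent.J6H78.FC

open Pool.Agent.Y499.HC Pool.Agent.Y499.HR Pool.Agent.Y502.HC Pool.Agent.Y249.HC

/-- The index of the stretch of the direction number `i` of the frame. -/
def idx {d : ℕ} (k : ℕ) (i : Fin d) : Fin (k + 1) :=
  if h : i.1 < k then (⟨i.1, h⟩ : Fin k).succ else 0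

lemma sum_dite {d k : ℕ} (hk : k ≤ d) (G : Fin k → ℝ) :
    ∑ i : Fin d, (if h : i.1 < k then G ⟨i.1, h⟩ else 0) = ∑ j, G j := by
  have h1 : ∑ j, G j = ∑ i ∈ Finset.univ.map (Fin.castLEEmb hk),
      (if h : i.1 < k then G ⟨i.1, h⟩ else 0) := by
    rw [Finset.sum_map]
    refine Finset.sum_congr rfl fun j _ => ?_
    simp
  rw [h1]
  refine (Finset.sum_subset (Finset.subset_univ _) fun i _ hi => ?_).symm
  rw [dif_neg]
  intro h
  refine hi (Finset.mem_map.2 ⟨⟨i.1, h⟩, Finset.mem_univ _, ?_⟩)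
  rfl

lemma cl_le {d k : ℕ} {J : Fin k → E d →ₗ[ℝ] E d} (hJ : IsCliff J) : k ≤ d := by
  have h := (hJ (EuclideanSpace.single 0 1) (by simp)).linearIndependent.fintype_card_le_finrank
  simp at h
  omega

/-- The volume element of the slices. -/
lemma det_cliff {d k : ℕ} {R : ℝ} {m : Met d} {J : Fin k → E d →ₗ[ℝ] E d} {κ : ℝ → E d → ℝ}
    {b : Fin (k + 1) → ℝ → ℝ} (hm : Good R m) (hJ : IsCliff J)
    (hκ0 : ∀ s ∈ Ico 0 R, ∀ x ∈ sphere (0 : E d) 1, 0 ≤ κ s x)
    (hb0 : ∀ i, ∀ s ∈ Ico 0 R, 0 ≤ b i s) (hsl : CliffSlices R m J κ b) {s : ℝ}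
    (hs : s ∈ Ico 0 R) {x : E d} (hx : x ∈ sphere (0 : E d) 1) :
    √(detTan (m.g s x) x) = κ s x ^ d * ∏ i : Fin d, b (idx k i) s := by
  have hk := cl_le hJ
  have hx1 : ‖x‖ = 1 := by simpa using hx
  obtain ⟨B, hB⟩ := ext_basis (hJ x hx1) (show k + 1 ≤ d + 1 by omega)
  have hB0 : B 0 = x := by
    have := hB 0
    simpa using this
  set e : Fin d → E d := fun i => B i.succ with he
  have heJ : ∀ j : Fin k, e (Fin.castLE hk j) = J j x := by
    intro j
    have := hB j.succ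
    rw [Fin.cons_succ] at this
    rw [← this]
    rfl
  have heo : Orthonormal ℝ e := B.orthonormal.comp _ (Fin.succ_injective _)
  have hxe : ∀ i, inner ℝ x (e i) = (0 : ℝ) := by
    intro i
    rw [← hB0]
    exact B.orthonormal.2 (Fin.succ_ne_zero i).symm
  have hdet := detTan_frame (hm.symm s hs x hx) hx1 heo hxe
    (q := fun i => (κ s x * b (idx k i) s) ^ 2) fun v hv => by
      rw [hsl s hs x hx v hv]
      have h1 := B.sum_sq_norm_inner_right v
      rw [Fin.sum_univ_succ, hB0, hv] at h1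
      simp only [Real.norm_eq_abs, sq_abs, norm_zero, ne_eq, OfNat.ofNat_ne_zero,
        not_false_eq_true, zero_pow, zero_add] at h1
      have h2 : ∑ i : Fin d, inner ℝ (e i) v ^ 2 = ‖v‖ ^ 2 := by
        rw [← h1]
      have h3 : ∀ i : Fin d, (κ s x * b (idx k i) s) ^ 2 * inner ℝ (e i) v ^ 2 =
          κ s x ^ 2 * (b 0 s ^ 2 * inner ℝ (e i) v ^ 2) + κ s x ^ 2 *
            (if h : i.1 < k then (b (⟨i.1, h⟩ : Fin k).succ s ^ 2 - b 0 s ^ 2) *
              inner ℝ (J ⟨i.1, h⟩ x) v ^ 2 else 0) := by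
        intro i
        by_cases h : i.1 < k
        · rw [dif_pos h, idx, dif_pos h]
          have : e i = J ⟨i.1, h⟩ x := by
            rw [← heJ]
            rfl
          rw [this]
          ring
        · rw [dif_neg h, idx, dif_neg h]
          ring
      rw [Finset.sum_congr rfl fun i _ => h3 i, Finset.sum_add_distrib, ← Finset.mul_sum,
        ← Finset.mul_sum, ← Finset.mul_sum, h2, sum_dite hk fun j =>
          (b j.succ s ^ 2 - b 0 s ^ 2) * inner ℝ (J j x) v ^ 2]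
      ring
  rw [hdet, Finset.prod_pow, Real.sqrt_sq, Finset.prod_mul_distrib, Finset.prod_const,
    Finset.card_univ, Fintype.card_fin]
  exact Finset.prod_nonneg fun i _ => mul_nonneg (hκ0 s hs x hx) (hb0 _ s hs)

/-- Jensen's inequality for the conformal factor. -/
lemma jensen_rms {d : ℕ} (hd : 2 ≤ d) {κ : E d → ℝ} (hκ : ContinuousOn κ (sphere 0 1))
    (hκ0 : ∀ x ∈ sphere (0 : E d) 1, 0 ≤ κ x) :
    √(∫ x : Sph d, κ x ^ 2 ∂(σn d)) ^ d ≤ ∫ x : Sph d, κ x ^ d ∂(σn d) := by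
  have hc : Continuous fun x : Sph d => κ (x : E d) := by
    rw [← continuousOn_univ]
    exact hκ.comp continuous_subtype_val.continuousOn fun x _ => x.2
  have hint : ∀ {F : Sph d → ℝ}, Continuous F → Integrable F (σn d) := fun hF =>
    hF.integrable_of_hasCompactSupport (HasCompactSupport.of_compactSpace _)
  have hp : (1 : ℝ) ≤ (d : ℝ) / 2 := by
    have : (2 : ℝ) ≤ d := by exact_mod_cast hd
    linarith
  have hpow : ∀ {y : ℝ}, 0 ≤ y → (y ^ 2) ^ ((d : ℝ) / 2) = y ^ d := by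
    intro y hy
    rw [← Real.rpow_natCast y 2, ← Real.rpow_mul hy, ← Real.rpow_natCast y d]
    congr 1
    push_cast
    ring
  have h0 : 0 ≤ ∫ x : Sph d, κ x ^ 2 ∂(σn d) := integral_nonneg fun _ => sq_nonneg _
  have h1 := (convexOn_rpow hp).map_integral_le (μ := σn d) (f := fun x : Sph d => κ (x : E d) ^ 2)
    (Real.continuous_rpow_const (by linarith)).continuousOn isClosed_Ici
    (Filter.Eventually.of_forall fun x => mem_Ici.2 (sq_nonneg _)) (hint (hc.pow 2))
    (hint ((Real.continuous_rpow_const (by linarith)).comp (hc.pow 2)))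
  have h2 : (∫ x : Sph d, κ x ^ 2 ∂(σn d)) ^ ((d : ℝ) / 2) = √(∫ x : Sph d, κ x ^ 2 ∂(σn d)) ^ d := by
    rw [← hpow (Real.sqrt_nonneg _), Real.sq_sqrt h0]
  rw [← h2]
  refine h1.trans (le_of_eq (integral_congr_ae (Filter.Eventually.of_forall fun x => ?_)))
  exact hpow (hκ0 x x.2)

/-- The volume inequality. -/
theorem vol_cliff {d k : ℕ} (hd : 2 ≤ d) {R : ℝ} (hR0 : 0 < R) (hR : R ≤ π / 2) {m : Met d}
    {J : Fin k → E d →ₗ[ℝ] E d} {κ : ℝ → E d → ℝ} {b : Fin (k + 1) → ℝ → ℝ} (hm : Good R m)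
    (hF : Fermi R m) (hS : NonShort R m) (hJ : IsCliff J)
    (hκ : ContinuousOn (fun p : ℝ × E d => κ p.1 p.2) (Ico 0 R ×ˢ sphere 0 1))
    (hκ0 : ∀ s ∈ Ico 0 R, ∀ x ∈ sphere (0 : E d) 1, 0 ≤ κ s x)
    (hb : ∀ i, ContinuousOn (b i) (Ico 0 R)) (hb0 : ∀ i, ∀ s ∈ Ico 0 R, 0 ≤ b i s)
    (hsl : CliffSlices R m J κ b) : hemiCollar d R ≤ vol R m := by
  have hNS : ∀ i : Fin d, NS R fun s => rms κ s * b (idx k i) s := by
    intro i
    by_cases h : i.1 < k
    · rw [idx, dif_pos h]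
      exact NS_vert hm hF hS hJ hκ hb hsl _
    · rw [idx, dif_neg h]
      obtain ⟨d', rfl⟩ : ∃ d', d = d' + 1 := ⟨d - 1, by omega⟩
      exact NS_hor (by omega) hm hF hS hJ hκ hb hsl
  have hprof := profile_ineq hR0 hR hNS (fun i => (rms_cont hκ).mul (hb _))
    fun i s hs => mul_nonneg (rms_nonneg κ s) (hb0 _ s hs)
  unfold hemiCollar vol
  refine (mul_le_mul_right hprof _).trans ?_
  rw [← lintegral_const_mul' _ _ (sigma_top d)]
  refine setLIntegral_mono' measurableSet_Ioo fun s hs => ?_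
  have hs' : s ∈ Ico 0 R := ⟨hs.1.le, hs.2⟩
  have hκs : ContinuousOn (κ s) (sphere (0 : E d) 1) :=
    hκ.comp (f := fun x : E d => (s, x)) (Continuous.prodMk_right s).continuousOn
      fun x hx => ⟨hs', hx⟩
  have hc : Continuous fun x : Sph d => κ s (x : E d) := by
    rw [← continuousOn_univ]
    exact hκs.comp continuous_subtype_val.continuousOn fun x _ => x.2
  have hB : 0 ≤ ∏ i : Fin d, b (idx k i) s := Finset.prod_nonneg fun i _ => hb0 _ s hs'
  have e1 : ∏ i : Fin d, ENNReal.ofReal (rms κ s * b (idx k i) s) =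
      ENNReal.ofReal (rms κ s ^ d * ∏ i : Fin d, b (idx k i) s) := by
    rw [← ENNReal.ofReal_prod_of_nonneg fun i _ => mul_nonneg (rms_nonneg κ s) (hb0 _ s hs'),
      Finset.prod_mul_distrib, Finset.prod_const, Finset.card_univ, Fintype.card_fin]
  have e2 : ∫⁻ x : Sph d, ENNReal.ofReal (√(detTan (m.g s x) x)) ∂(σ d) =
      (σ d) univ * ENNReal.ofReal ((∫ x : Sph d, κ s x ^ d ∂(σn d)) *
        ∏ i : Fin d, b (idx k i) s) := by
    have h1 : ∀ x : Sph d, ENNReal.ofReal (√(detTan (m.g s x) x)) =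
        ENNReal.ofReal (κ s x ^ d * ∏ i : Fin d, b (idx k i) s) := fun x => by
      rw [det_cliff hm hJ hκ0 hb0 hsl hs' x.2]
    simp_rw [h1]
    rw [← integral_mul_const, σn, integral_smul_measure, ENNReal.toReal_inv, smul_eq_mul,
      ENNReal.ofReal_mul (inv_nonneg.2 ENNReal.toReal_nonneg), ENNReal.ofReal_inv_of_pos
      (ENNReal.toReal_pos (sigma_ne d) (sigma_top d)), ENNReal.ofReal_toReal (sigma_top d),
      ← mul_assoc, ENNReal.mul_inv_cancel (sigma_ne d) (sigma_top d), one_mul,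
      ofReal_integral_eq_lintegral_ofReal]
    · exact ((hc.pow d).mul continuous_const).integrable_of_hasCompactSupport
        (HasCompactSupport.of_compactSpace _)
    · exact Filter.Eventually.of_forall fun x =>
        mul_nonneg (pow_nonneg (hκ0 s hs' x x.2) d) hB
  rw [e1, e2]
  refine mul_le_mul_right (ENNReal.ofReal_le_ofReal (mul_le_mul_of_nonneg_right ?_ hB)) _
  exact jensen_rms hd hκs fun x hx => hκ0 s hs' x hx

end Pool.Agent.J6H78.FC
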