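import Pool.Agent.J6H78.FC.Slice
import Pool.Agent.Y454.HC.Avge

/-! # The mean stretch of an arbitrary collar -/

set_option autoImplicit false

open MeasureTheory Set Real Metric
open scoped ENNReal

namespace Pool.Agent.J6H78.FC

open Pool.Agent.Y499.HC Pool.Agent.Y499.HR Pool.Agent.Y502.HC Pool.Agent.Y249.HC

/-- The geodesic condition for root mean squares, with a lapse at most one and a shift of mean
zero. -/
theorem NS_of_law' {d : ℕ} {R : ℝ} {m : Met d} (hm : Good R m)
    (hS : NonShort R m) (P : Measure (E d × E d)) [IsProbabilityMeasure P]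
    (hP : ∀ᵐ p ∂P, p ∈ Pairs d)
    (hβ : ∀ s ∈ Ico 0 R, ∀ θ, ∫ p, inner ℝ (m.β s (circ p θ)) (circ' p θ) ∂P = (0 : ℝ))
    {f : ℝ → ℝ} (hf : ContinuousOn f (Ico 0 R))
    (hPf : ∀ s ∈ Ico 0 R, ∀ θ, ∫ p, quad (m.g s (circ p θ)) (circ' p θ) ∂P ≤ f s ^ 2) :
    NS R f := by
  intro s θ hs hθ hsR hs0 hs3 hθ0 hθ3
  have hsd : ∀ t, HasDerivAt s (deriv s t) t := fun t =>
    (hs.differentiable (by norm_num) t).hasDerivAt
  have hθd : ∀ t, HasDerivAt θ (deriv θ t) t := fun t =>
    (hθ.differentiable (by norm_num) t).hasDerivAt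
  have hsc' : Continuous (deriv s) := hs.continuous_deriv le_rfl
  have hθc' : Continuous (deriv θ) := hθ.continuous_deriv le_rfl
  set A : ℝ → E d × E d → ℝ := fun t p => m.a (s t) (circ p (θ t)) with hA
  set B : ℝ → E d × E d → ℝ := fun t p =>
    inner ℝ (m.β (s t) (circ p (θ t))) (circ' p (θ t)) with hB
  set Q : ℝ → E d × E d → ℝ := fun t p => quad (m.g (s t) (circ p (θ t))) (circ' p (θ t)) with hQ
  set S : ℝ → E d × E d → ℝ := fun t p =>
    A t p * deriv s t ^ 2 + 2 * deriv s t * (deriv θ t * B t p) + deriv θ t ^ 2 * Q t p with hSS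
  set Φ : ℝ → E d × E d → ℝ := fun t p => √(S t p) with hΦ
  have hcc : Continuous fun a : ℝ × (E d × E d) => circ a.2 (θ a.1) := by
    have : Continuous θ := hθ.continuous
    unfold circ
    fun_prop
  have hcc' : Continuous fun a : ℝ × (E d × E d) => circ' a.2 (θ a.1) := by
    have : Continuous θ := hθ.continuous
    unfold circ'
    fun_prop
  have hmap : ContinuousOn (fun a : ℝ × (E d × E d) => (s a.1, circ a.2 (θ a.1)))
      (Icc 0 3 ×ˢ Pairs d) :=
    ((hs.continuous.comp continuous_fst).prodMk hcc).continuousOn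
  have hmaps : MapsTo (fun a : ℝ × (E d × E d) => (s a.1, circ a.2 (θ a.1)))
      (Icc 0 3 ×ˢ Pairs d) (Ico 0 R ×ˢ sphere 0 1) := fun a ha =>
    ⟨hsR _ ha.1, by simpa using circ_norm ha.2 _⟩
  have hAc : ContinuousOn (Function.uncurry A) (Icc 0 3 ×ˢ Pairs d) := hm.cont_a.comp hmap hmaps
  have hBc : ContinuousOn (Function.uncurry B) (Icc 0 3 ×ˢ Pairs d) :=
    ContinuousOn.inner (hm.cont_β.comp hmap hmaps) hcc'.continuousOn
  have hQc : ContinuousOn (Function.uncurry Q) (Icc 0 3 ×ˢ Pairs d) :=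
    quad_cont hm (s := fun a : ℝ × (E d × E d) => s a.1) (y := fun a => circ a.2 (θ a.1))
      (v := fun a => circ' a.2 (θ a.1)) (hs.continuous.comp continuous_fst).continuousOn
      hcc.continuousOn hcc'.continuousOn (fun a ha => hsR _ ha.1) (fun a ha => circ_norm ha.2 _)
  have hs1 : ContinuousOn (fun a : ℝ × (E d × E d) => deriv s a.1) (Icc 0 3 ×ˢ Pairs d) :=
    (hsc'.comp continuous_fst).continuousOn
  have hθ1 : ContinuousOn (fun a : ℝ × (E d × E d) => deriv θ a.1) (Icc 0 3 ×ˢ Pairs d) :=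
    (hθc'.comp continuous_fst).continuousOn
  have hSc : ContinuousOn (Function.uncurry S) (Icc 0 3 ×ˢ Pairs d) :=
    ((hAc.mul (hs1.pow 2)).add ((continuousOn_const.mul hs1).mul (hθ1.mul hBc))).add
      ((hθ1.pow 2).mul hQc)
  have hΦc : ContinuousOn (Function.uncurry Φ) (Icc 0 3 ×ˢ Pairs d) :=
    Real.continuous_sqrt.comp_continuousOn hSc
  have hPr : P.restrict (Pairs d) = P := Measure.restrict_eq_self_of_ae_mem hP
  have hint : Integrable (Function.uncurry Φ) ((volume.restrict (uIoc 0 3)).prod P) := by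
    have h1 : IntegrableOn (Function.uncurry Φ) (Icc (0 : ℝ) 3 ×ˢ Pairs d) (volume.prod P) :=
      hΦc.integrableOn_compact (isCompact_Icc.prod (Pairs_compact d))
    have h2 := h1.mono_set (prod_mono (show uIoc (0 : ℝ) 3 ⊆ Icc 0 3 by
      rw [uIoc_of_le (by norm_num)]; exact Ioc_subset_Icc_self) (subset_refl (Pairs d)))
    rwa [IntegrableOn, ← Measure.prod_restrict, hPr] at h2
  have hsq : ∀ t, ∀ p, m.sq (s t) (circ p (θ t)) (deriv s t) (deriv θ t • circ' p (θ t)) =
      S t p := by
    intro t p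
    rw [Met.sq, quad_smul, inner_smul_right]
  -- the length of one curve
  have hone : ∀ p ∈ Pairs d, π ≤ ∫ t in (0 : ℝ)..3, Φ t p := by
    intro p hp
    have h1 := hS 3 s (fun t => circ p (θ t)) (by norm_num) hs (by
      have : ContDiff ℝ 1 θ := hθ
      unfold circ
      fun_prop) hsR (fun t => by simpa using circ_norm hp (θ t)) hs0 hs3 (by
        simp only [hθ0, hθ3]
        simp [circ])
    refine h1.trans (le_of_eq (intervalIntegral.integral_congr fun t ht => ?_))
    simp only [hΦ]
    rw [(circ_deriv p (hθd t)).deriv, hsq]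
  have hI : ∫ p, (∫ t in (0 : ℝ)..3, Φ t p) ∂P = ∫ t in (0 : ℝ)..3, ∫ p, Φ t p ∂P :=
    (intervalIntegral_integral_swap hint).symm
  have hge : π ≤ ∫ p, (∫ t in (0 : ℝ)..3, Φ t p) ∂P := by
    have h1 : ∫ p, π ∂P = π := by simp
    rw [← h1]
    refine integral_mono_ae (integrable_const _) ?_ ?_
    · have h2 := hint.integral_prod_right
      simp_rw [intervalIntegral.integral_of_le (show (0 : ℝ) ≤ 3 by norm_num)]
      rw [uIoc_of_le (by norm_num)] at h2
      exact h2
    · filter_upwards [hP] with p hp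
      exact hone p hp
  rw [hI] at hge
  refine hge.trans (intervalIntegral.integral_mono_on (by norm_num) ?_ ?_ fun t ht => ?_)
  · rw [intervalIntegrable_iff]
    exact hint.integral_prod_left
  · refine ContinuousOn.intervalIntegrable ?_
    rw [uIcc_of_le (by norm_num)]
    refine Real.continuous_sqrt.comp_continuousOn (ContinuousOn.add (hsc'.pow 2).continuousOn
      (ContinuousOn.mul (ContinuousOn.pow ?_ 2) (hθc'.pow 2).continuousOn))
    exact hf.comp hs.continuous.continuousOn fun t ht => hsR t ht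
  · -- Jensen
    have hrest : ∀ {F : ℝ → E d × E d → ℝ},
        ContinuousOn (Function.uncurry F) (Icc 0 3 ×ˢ Pairs d) → ContinuousOn (F t) (Pairs d) := by
      intro F hFc
      exact hFc.comp (f := fun p : E d × E d => (t, p)) (s := Pairs d)
        (Continuous.prodMk_right t).continuousOn (fun p hp => ⟨ht, hp⟩)
    have iA : Integrable (A t) P := law_int hP (hrest hAc)
    have iB : Integrable (B t) P := law_int hP (hrest hBc)
    have iQ : Integrable (Q t) P := law_int hP (hrest hQc)
    have iφ : Integrable (Φ t) P := law_int hP (hrest hΦc)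
    have iφ2 : Integrable (fun p => Φ t p ^ 2) P := law_int hP ((hrest hΦc).pow 2)
    have e1 : ∫ p, Φ t p ^ 2 ∂P = (∫ p, A t p ∂P) * deriv s t ^ 2 +
        deriv θ t ^ 2 * (∫ p, Q t p ∂P) := by
      have h1 : ∀ᵐ p ∂P, Φ t p ^ 2 = A t p * deriv s t ^ 2 +
          2 * deriv s t * (deriv θ t * B t p) + deriv θ t ^ 2 * Q t p := by
        filter_upwards [hP] with p hp
        have h2 : 0 ≤ S t p := by
          rw [← hsq]
          refine hm.nonneg _ (hsR t ht) _ (by simpa using circ_norm hp (θ t)) _ _ ?_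
          rw [inner_smul_right, circ_orth hp, mul_zero]
        exact Real.sq_sqrt h2
      have i1 : Integrable (fun p => A t p * deriv s t ^ 2) P := iA.mul_const _
      have i2 : Integrable (fun p => 2 * deriv s t * (deriv θ t * B t p)) P :=
        (iB.const_mul _).const_mul _
      have i3 : Integrable (fun p => deriv θ t ^ 2 * Q t p) P := iQ.const_mul _
      have i12 : Integrable (fun p => A t p * deriv s t ^ 2 +
          2 * deriv s t * (deriv θ t * B t p)) P := i1.add i2
      rw [integral_congr_ae h1, integral_add i12 i3, integral_add i1 i2, integral_mul_const,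
        integral_const_mul, integral_const_mul, integral_const_mul]
      have h3 : ∫ p, B t p ∂P = 0 := hβ _ (hsR t ht) _
      rw [h3]
      ring
    have e2 : (∫ p, Φ t p ∂P) ^ 2 ≤ ∫ p, Φ t p ^ 2 ∂P := by
      set c := ∫ p, Φ t p ∂P with hc
      have h0 : 0 ≤ ∫ p, (Φ t p - c) ^ 2 ∂P := integral_nonneg fun p => sq_nonneg _
      have h1 : ∫ p, (Φ t p - c) ^ 2 ∂P = (∫ p, Φ t p ^ 2 ∂P) - 2 * c * c + c ^ 2 := by
        have : ∀ p, (Φ t p - c) ^ 2 = Φ t p ^ 2 - 2 * c * Φ t p + c ^ 2 := fun p => by ring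
        simp_rw [this]
        have i1 : Integrable (fun p => 2 * c * Φ t p) P := iφ.const_mul _
        have i2 : Integrable (fun p => Φ t p ^ 2 - 2 * c * Φ t p) P := iφ2.sub i1
        rw [integral_add i2 (integrable_const _), integral_sub iφ2 i1, integral_const_mul, ← hc]
        simp
      rw [h1] at h0
      nlinarith
    show ∫ p, Φ t p ∂P ≤ √(deriv s t ^ 2 + f (s t) ^ 2 * deriv θ t ^ 2)
    refine Real.le_sqrt_of_sq_le (e2.trans ?_)
    rw [e1]
    have h4 := mul_le_mul_of_nonneg_right (hPf (s t) (hsR t ht) (θ t)) (sq_nonneg (deriv θ t))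
    have h5 : ∫ p, A t p ∂P ≤ 1 := by
      have h6 : ∫ p, A t p ∂P ≤ ∫ _p : E d × E d, (1 : ℝ) ∂P := by
        refine integral_mono_ae iA (integrable_const _) ?_
        filter_upwards [hP] with p hp
        exact hm.lapse _ (hsR t ht) _ (by simpa using circ_norm hp (θ t))
      simpa using h6
    have h7 := mul_le_mul_of_nonneg_right h5 (sq_nonneg (deriv s t))
    have h8 : ∫ p, Q t p ∂P = ∫ p, quad (m.g (s t) (circ p (θ t))) (circ' p (θ t)) ∂P := rfl
    rw [h8]
    linarith

/-- The root mean square of the stretch. -/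
noncomputable def meanS {d : ℕ} (m : Met d) (s : ℝ) : ℝ :=
  √((∫ x : Sph d, trTan (m.g s x) x ∂(σn d)) / d)

lemma trTan_cont {d : ℕ} {R : ℝ} {m : Met d} (hm : Good R m) :
    ContinuousOn (fun p : ℝ × E d => trTan (m.g p.1 p.2) p.2) (Ico 0 R ×ˢ sphere 0 1) := by
  have h1 : ContinuousOn (fun p : ℝ × E d => quad (m.g p.1 p.2) p.2) (Ico 0 R ×ˢ sphere 0 1) :=
    quad_cont hm continuousOn_fst continuousOn_snd continuousOn_snd (fun p hp => hp.1)
      fun p hp => by simpa using hp.2
  unfold trTan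
  refine ContinuousOn.sub (continuousOn_finsetSum _ fun i _ => ?_) h1
  exact (continuous_apply_apply i i).comp_continuousOn hm.cont_g

lemma trTan_nonneg {d : ℕ} {R : ℝ} {m : Met d} (hm : Good R m) {s : ℝ} (hs : s ∈ Ico 0 R)
    (b : Fr d) : 0 ≤ trTan (m.g s (b.1 0)) (b.1 0) := by
  rw [← trTan_frame]
  refine Finset.sum_nonneg fun i hi => ?_
  exact quad_nonneg hm hs (b.2.1 0) (b.2.2 (Finset.ne_of_mem_erase hi).symm)

lemma meanS_cont {d : ℕ} {R : ℝ} {m : Met d} (hm : Good R m) :
    ContinuousOn (meanS m) (Ico 0 R) := by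
  rw [continuousOn_iff_continuous_domRestrict]
  have h1 : Continuous (Function.uncurry fun (s : Ico (0 : ℝ) R) (x : Sph d) =>
      trTan (m.g (s : ℝ) (x : E d)) (x : E d)) := by
    have : Continuous fun p : Ico (0 : ℝ) R × Sph d => ((p.1 : ℝ), (p.2 : E d)) :=
      (continuous_subtype_val.comp continuous_fst).prodMk (continuous_subtype_val.comp continuous_snd)
    rw [← continuousOn_univ] at this ⊢
    exact (trTan_cont hm).comp this fun p _ => ⟨p.1.2, p.2.2⟩
  have : LocallyCompactSpace (Ico (0 : ℝ) R) := isLocallyClosed_Ico.locallyCompactSpace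
  have h2 := continuous_parametric_integral_of_continuous (μ := σn d) h1 (isCompact_univ)
  simp only [Measure.restrict_univ] at h2
  exact Real.continuous_sqrt.comp (h2.div_const _)

/-- The geodesic condition for the mean stretch. -/
theorem NS_mean {d : ℕ} (hd : 1 ≤ d) {R : ℝ} {m : Met d} (hm : Good R m) (hS : NonShort R m) :
    NS R (meanS m) := by
  obtain ⟨μ, hμ⟩ := t_FRAME d
  have := hμ.prob
  have := fr_compact d
  have hpc : Continuous fun b : Fr d => (b.1 0, b.1 1) := (cont_vec 0).prodMk (cont_vec 1)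
  have h01 : (0 : Fin (d + 1)) ≠ 1 := by
    intro h
    have := congrArg Fin.val h
    simp at this
    omega
  have hmem : ∀ b : Fr d, (b.1 0, b.1 1) ∈ Pairs d := fun b => ⟨b.2.1 0, b.2.1 1, b.2.2 h01⟩
  have hprob : IsProbabilityMeasure (μ.map fun b : Fr d => (b.1 0, b.1 1)) :=
    Measure.isProbabilityMeasure_map hpc.measurable.aemeasurable
  have hae : ∀ᵐ p ∂(μ.map fun b : Fr d => (b.1 0, b.1 1)), p ∈ Pairs d :=
    (ae_map_iff (p := fun p => p ∈ Pairs d) hpc.measurable.aemeasurable
      (Pairs_closed d).measurableSet).2 (Filter.Eventually.of_forall hmem)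
  have havg := Pool.Agent.Y454.HC.t_AVGE d hd μ hμ
  -- the average of a function over the great circles
  have key : ∀ (G : E d → E d → ℝ) (hG : ContinuousOn (fun p : E d × E d => G p.1 p.2)
      (sphere 0 1 ×ˢ univ)) (θ : ℝ),
      ∫ p, G (circ p θ) (circ' p θ) ∂(μ.map fun b : Fr d => (b.1 0, b.1 1)) =
      ∫ b : Fr d, 1 / (2 * d) * ∑ i : Fin d, (G (b.1 0) (b.1 i.succ) + G (b.1 0) (-b.1 i.succ)) ∂μ := by
    intro G hG θ
    have hGp : ContinuousOn (fun p : E d × E d => G (circ p θ) (circ' p θ)) (Pairs d) := by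
      have h1 : Continuous fun p : E d × E d => (circ p θ, circ' p θ) := by
        unfold circ circ'
        fun_prop
      exact hG.comp h1.continuousOn fun p hp => ⟨by simpa using circ_norm hp θ, mem_univ _⟩
    rw [integral_map hpc.measurable.aemeasurable (law_int hae hGp).aestronglyMeasurable]
    have hΨ : Continuous fun q : Sph d × E d => G (q.1 : E d) q.2 := by
      rw [← continuousOn_univ]
      exact hG.comp ((continuous_subtype_val.comp continuous_fst).prodMk
        continuous_snd).continuousOn fun q _ => ⟨q.1.2, mem_univ _⟩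
    have hX : ∀ b : Fr d, circ (b.1 0, b.1 1) θ ∈ sphere (0 : E d) 1 := fun b => by
      simpa using circ_norm (hmem b) θ
    exact havg (fun q => G (q.1 : E d) q.2) hΨ (cos θ) (sin θ) (Real.cos_sq_add_sin_sq θ)
      (fun b => ⟨circ (b.1 0, b.1 1) θ, hX b⟩) fun b => rfl
  refine NS_of_law' hm hS _ hae ?_ (meanS_cont hm) ?_
  · intro s hs θ
    rw [key (fun x v => inner ℝ (m.β s x) v) ?_ θ]
    · simp only [inner_neg_right, add_neg_cancel, Finset.sum_const_zero, mul_zero, integral_zero]
    · refine ContinuousOn.inner ?_ continuousOn_snd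
      exact hm.cont_β.comp (f := fun p : E d × E d => (s, p.1))
        (continuous_const.prodMk continuous_fst).continuousOn fun p hp => ⟨hs, hp.1⟩
  · intro s hs θ
    rw [key (fun x v => quad (m.g s x) v) ?_ θ]
    · have hd0 : (d : ℝ) ≠ 0 := by positivity
      have h1 : ∀ b : Fr d, 1 / (2 * (d : ℝ)) * ∑ i : Fin d, (quad (m.g s (b.1 0)) (b.1 i.succ) +
          quad (m.g s (b.1 0)) (-b.1 i.succ)) = trTan (m.g s (b.1 0)) (b.1 0) / d := by
        intro b
        have h2 : ∀ v : E d, quad (m.g s (b.1 0)) (-v) = quad (m.g s (b.1 0)) v := by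
          intro v
          have := quad_smul (m.g s (b.1 0)) (-1) v
          simpa using this
        have h3 := trTan_frame (m.g s (b.1 0)) b
        have h4 : ∑ i : Fin d, quad (m.g s (b.1 0)) (b.1 i.succ) = trTan (m.g s (b.1 0)) (b.1 0) := by
          rw [← h3]
          have h5 := Fin.sum_univ_succ (fun i => quad (m.g s (b.1 0)) (b.1 i))
          have h6 := Finset.add_sum_erase Finset.univ
            (fun i => quad (m.g s (b.1 0)) (b.1 i)) (Finset.mem_univ 0)
          linarith
        simp_rw [h2]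
        rw [Finset.sum_add_distrib, h4]
        field_simp
        ring
      simp_rw [h1]
      have hφc : Continuous fun x : Sph d => trTan (m.g s (x : E d)) (x : E d) := by
        rw [← continuousOn_univ]
        exact ((trTan_cont hm).comp (f := fun x : E d => (s, x)) (s := sphere 0 1)
          (Continuous.prodMk_right s).continuousOn fun x hx => ⟨hs, hx⟩).comp
          continuous_subtype_val.continuousOn fun x _ => x.2
      have h7 := hμ.marg _ hφc
      have hs0 : ((σ d) univ).toReal ≠ 0 := (ENNReal.toReal_ne_zero).2 ⟨sigma_ne _, sigma_top _⟩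
      have h8 : ∫ x : Sph d, trTan (m.g s (x : E d)) (x : E d) ∂(σn d) =
          ∫ b : Fr d, trTan (m.g s (b.1 0)) (b.1 0) ∂μ := by
        rw [σn, integral_smul_measure, ENNReal.toReal_inv, ← h7, smul_eq_mul, ← mul_assoc,
          inv_mul_cancel₀ hs0, one_mul]
        rfl
      have h9 : 0 ≤ ∫ b : Fr d, trTan (m.g s (b.1 0)) (b.1 0) ∂μ :=
        integral_nonneg fun b => trTan_nonneg hm hs b
      rw [meanS, Real.sq_sqrt (by rw [h8]; positivity), h8, integral_div]
    · refine quad_cont hm continuousOn_const continuousOn_fst continuousOn_snd (fun _ _ => hs)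
        fun p hp => by simpa using hp.1

/-- The inequality for the mean stretch. -/
theorem mean_ineq {d : ℕ} (hd : 1 ≤ d) {R : ℝ} (hR0 : 0 < R) (hR : R ≤ π / 2) {m : Met d}
    (hm : Good R m) (hS : NonShort R m) (n : ℕ) :
    ENNReal.ofReal (∫ s in (0 : ℝ)..R, cos s ^ n) ≤
      ∫⁻ s in Ioo 0 R, ENNReal.ofReal (meanS m s ^ n) := by
  have h := profile_ineq hR0 hR (d := n) (f := fun _ => meanS m) (fun _ => NS_mean hd hm hS)
    (fun _ => meanS_cont hm) fun _ _ _ => Real.sqrt_nonneg _
  refine h.trans (le_of_eq (lintegral_congr fun s => ?_))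
  rw [Finset.prod_const, Finset.card_univ, Fintype.card_fin, ENNReal.ofReal_pow (show 0 ≤ meanS m s from Real.sqrt_nonneg _)]

end Pool.Agent.J6H78.FC
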