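import Mathlib

/-! # Competitor curves in a disc of revolution

`NS R f`: no curve in the annulus `[0, R) × ℝ` with the metric `ds² + f(s)² dθ²` joins two points of
the boundary `s = 0` with `θ`-distance `π` by a path shorter than `π`. -/

set_option autoImplicit false

open Real Set MeasureTheory intervalIntegral Filter Topology

namespace Pool.Agent.J6H78.FC

/-- Every `C¹` curve of `[0, R) × ℝ` from `(0, 0)` to `(0, π)` has length at least `π` for the
metric `ds² + f(s)² dθ²`. -/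
def NS (R : ℝ) (f : ℝ → ℝ) : Prop :=
  ∀ s θ : ℝ → ℝ, ContDiff ℝ 1 s → ContDiff ℝ 1 θ → (∀ t ∈ Icc (0 : ℝ) 3, s t ∈ Ico 0 R) →
    s 0 = 0 → s 3 = 0 → θ 0 = 0 → θ 3 = π →
    π ≤ ∫ t in (0 : ℝ)..3, √(deriv s t ^ 2 + f (s t) ^ 2 * deriv θ t ^ 2)

/-- The derivative of the step function. -/
noncomputable def kk (x : ℝ) : ℝ := 6 * max 0 (x * (1 - x))

lemma kk_cont : Continuous kk := by unfold kk; fun_prop

lemma kk_nonneg (x : ℝ) : 0 ≤ kk x := by unfold kk; positivity

lemma kk_left {x : ℝ} (h : x ≤ 0) : kk x = 0 := by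
  unfold kk
  rw [max_eq_left]
  · ring
  · nlinarith

lemma kk_right {x : ℝ} (h : 1 ≤ x) : kk x = 0 := by
  unfold kk
  rw [max_eq_left]
  · ring
  · nlinarith

/-- A `C¹` step function. -/
noncomputable def rr (x : ℝ) : ℝ := ∫ t in (0 : ℝ)..x, kk t

lemma rr_deriv (x : ℝ) : HasDerivAt rr (kk x) x :=
  intervalIntegral.integral_hasDerivAt_right (kk_cont.intervalIntegrable _ _)
    kk_cont.stronglyMeasurable.stronglyMeasurableAtFilter kk_cont.continuousAt

lemma contDiff_of {F F' : ℝ → ℝ} (h : ∀ x, HasDerivAt F (F' x) x) (hc : Continuous F') :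
    ContDiff ℝ 1 F := by
  rw [contDiff_one_iff_deriv]
  refine ⟨fun x => (h x).differentiableAt, ?_⟩
  have : deriv F = F' := funext fun x => (h x).deriv
  rw [this]
  exact hc

lemma rr_left {x : ℝ} (h : x ≤ 0) : rr x = 0 := by
  unfold rr
  rw [intervalIntegral.integral_congr (g := fun _ => 0)]
  · simp
  · intro t ht
    rw [uIcc_of_ge h] at ht
    exact kk_left ht.2

lemma rr_one : rr 1 = 1 := by
  unfold rr
  have h1 : ∫ t in (0 : ℝ)..1, kk t = ∫ t in (0 : ℝ)..1, (6 * t - 6 * t ^ 2) := by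
    refine intervalIntegral.integral_congr fun t ht => ?_
    rw [uIcc_of_le zero_le_one] at ht
    show 6 * max 0 (t * (1 - t)) = 6 * t - 6 * t ^ 2
    rw [max_eq_right (mul_nonneg ht.1 (by linarith [ht.2]))]
    ring
  rw [h1, intervalIntegral.integral_eq_sub_of_hasDerivAt (f := fun t => 3 * t ^ 2 - 2 * t ^ 3)]
  · norm_num
  · intro x _
    have := ((hasDerivAt_pow 2 x).const_mul 3).sub ((hasDerivAt_pow 3 x).const_mul 2)
    refine this.congr_deriv ?_
    norm_num
    ring
  · exact (by fun_prop : Continuous fun t : ℝ => 6 * t - 6 * t ^ 2).intervalIntegrable _ _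

lemma rr_right {x : ℝ} (h : 1 ≤ x) : rr x = 1 := by
  have h1 : rr x = rr 1 + ∫ t in (1 : ℝ)..x, kk t := by
    unfold rr
    rw [intervalIntegral.integral_add_adjacent_intervals (kk_cont.intervalIntegrable _ _)
      (kk_cont.intervalIntegrable _ _)]
  rw [h1, rr_one, intervalIntegral.integral_congr (g := fun _ => 0)]
  · simp
  · intro t ht
    rw [uIcc_of_le h] at ht
    exact kk_right ht.1

lemma rr_mono : Monotone rr :=
  monotone_of_deriv_nonneg (fun x => (rr_deriv x).differentiableAt) fun x => by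
    rw [(rr_deriv x).deriv]; exact kk_nonneg x

lemma rr_mem (x : ℝ) : rr x ∈ Icc (0 : ℝ) 1 := by
  constructor
  · rcases le_total x 0 with h | h
    · rw [rr_left h]
    · rw [← rr_left le_rfl]; exact rr_mono h
  · rcases le_total 1 x with h | h
    · rw [rr_right h]
    · rw [← rr_right le_rfl]; exact rr_mono h

lemma rr_cont : Continuous rr := continuous_iff_continuousAt.2 fun x => (rr_deriv x).continuousAt

lemma rr_zero : rr 0 = 0 := rr_left le_rfl

/-- The length of a path which runs from the boundary to the depth `s₁` with `dθ/ds = h`, turns at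
this depth, and runs back. -/
theorem path_ineq {R : ℝ} {f : ℝ → ℝ} (hNS : NS R f) {s₁ : ℝ} (h0 : 0 ≤ s₁) (h1 : s₁ < R)
    {g h : ℝ → ℝ} (hg : Continuous g) (hh : Continuous h) (hfg : ∀ s ∈ Icc 0 s₁, f s = g s)
    (hg0 : 0 ≤ g s₁) :
    π ≤ 2 * (∫ s in (0 : ℝ)..s₁, √(1 + g s ^ 2 * h s ^ 2)) +
      g s₁ * |π - 2 * ∫ s in (0 : ℝ)..s₁, h s| := by
  set H : ℝ → ℝ := fun x => ∫ s in (0 : ℝ)..x, h s with hH
  have hHd : ∀ x, HasDerivAt H (h x) x := fun x =>
    intervalIntegral.integral_hasDerivAt_right (hh.intervalIntegrable _ _)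
      hh.stronglyMeasurable.stronglyMeasurableAtFilter hh.continuousAt
  have hHc : Continuous H := continuous_iff_continuousAt.2 fun x => (hHd x).continuousAt
  have hH0 : H 0 = 0 := by simp [hH]
  set a : ℝ := π - 2 * H s₁ with ha
  set S : ℝ → ℝ := fun t => s₁ * (rr t - rr (t - 2)) with hS
  set Θ : ℝ → ℝ := fun t => H (s₁ * rr t) + a * rr (t - 1) + (H s₁ - H (s₁ * (1 - rr (t - 2))))
    with hΘ
  have hsub : ∀ c x : ℝ, HasDerivAt (fun t => rr (t - c)) (kk (x - c)) x := fun c x => by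
    exact (rr_deriv (x - c)).comp_sub_const x c
  have hSd : ∀ t, HasDerivAt S (s₁ * (kk t - kk (t - 2))) t := fun t =>
    ((rr_deriv t).sub (hsub 2 t)).const_mul s₁
  have hΘd : ∀ t, HasDerivAt Θ (h (s₁ * rr t) * (s₁ * kk t) + a * kk (t - 1) +
      h (s₁ * (1 - rr (t - 2))) * (s₁ * kk (t - 2))) t := fun t => by
    have e1 := (hHd (s₁ * rr t)).comp t ((rr_deriv t).const_mul s₁)
    have e2 := (hsub 1 t).const_mul a
    have e3 := (hHd (s₁ * (1 - rr (t - 2)))).comp t (((hsub 2 t).const_sub 1).const_mul s₁)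
    have e4 := (e1.add e2).add (e3.const_sub (H s₁))
    refine e4.congr_deriv ?_
    ring
  have kc : ∀ c : ℝ, Continuous fun t : ℝ => kk (t - c) := fun c =>
    kk_cont.comp (continuous_id.sub continuous_const)
  have rc : ∀ c : ℝ, Continuous fun t : ℝ => rr (t - c) := fun c =>
    rr_cont.comp (continuous_id.sub continuous_const)
  have hS1 : ContDiff ℝ 1 S :=
    contDiff_of hSd (continuous_const.mul (kk_cont.sub (kc 2)))
  have c1 : Continuous fun t : ℝ => h (s₁ * rr t) := hh.comp (continuous_const.mul rr_cont)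
  have c2 : Continuous fun t : ℝ => h (s₁ * (1 - rr (t - 2))) :=
    hh.comp (continuous_const.mul (continuous_const.sub (rc 2)))
  have hΘ1 : ContDiff ℝ 1 Θ :=
    contDiff_of hΘd (((c1.mul (continuous_const.mul kk_cont)).add (continuous_const.mul (kc 1))).add
      (c2.mul (continuous_const.mul (kc 2))))
  -- the range of `S`
  have hSI : ∀ t ∈ Icc (0 : ℝ) 3, S t ∈ Icc 0 s₁ := by
    intro t ht
    have m1 := rr_mem t
    have m2 := rr_mem (t - 2)
    have h12 : rr (t - 2) ≤ rr t := rr_mono (by linarith)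
    refine ⟨mul_nonneg h0 (by linarith), ?_⟩
    calc s₁ * (rr t - rr (t - 2)) ≤ s₁ * 1 := by
          refine mul_le_mul_of_nonneg_left ?_ h0
          linarith [m1.2, m2.1]
      _ = s₁ := mul_one _
  have key := hNS S Θ hS1 hΘ1 (fun t ht => ⟨(hSI t ht).1, (hSI t ht).2.trans_lt h1⟩)
    (by simp only [hS]; rw [rr_left le_rfl, rr_left (by norm_num)]; ring)
    (by simp only [hS]; rw [rr_right (by norm_num), rr_right (by norm_num)]; ring)
    (by
      simp only [hΘ]
      rw [rr_left le_rfl, rr_left (by norm_num : (0 : ℝ) - 1 ≤ 0),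
        rr_left (by norm_num : (0 : ℝ) - 2 ≤ 0)]
      simp only [mul_zero, sub_zero, mul_one, hH0]
      ring)
    (by
      simp only [hΘ]
      rw [rr_right (by norm_num : (1 : ℝ) ≤ 3), rr_right (by norm_num : (1 : ℝ) ≤ 3 - 1),
        rr_right (by norm_num : (1 : ℝ) ≤ 3 - 2)]
      simp only [mul_one, sub_self, mul_zero, hH0, ha]
      ring)
  refine key.trans ?_
  -- replace `f` by `g` and insert the derivatives
  set F : ℝ → ℝ := fun t => √((s₁ * (kk t - kk (t - 2))) ^ 2 + g (S t) ^ 2 *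
    (h (s₁ * rr t) * (s₁ * kk t) + a * kk (t - 1) +
      h (s₁ * (1 - rr (t - 2))) * (s₁ * kk (t - 2))) ^ 2) with hF
  have hFc : Continuous F := by
    have hSc : Continuous S := hS1.continuous
    refine Real.continuous_sqrt.comp ?_
    refine Continuous.add ?_ ?_
    · exact (continuous_const.mul (kk_cont.sub (kc 2))).pow 2
    · refine ((hg.comp hSc).pow 2).mul ?_
      exact (((c1.mul (continuous_const.mul kk_cont)).add (continuous_const.mul (kc 1))).add
        (c2.mul (continuous_const.mul (kc 2)))).pow 2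
  have hE : ∫ t in (0 : ℝ)..3, √(deriv S t ^ 2 + f (S t) ^ 2 * deriv Θ t ^ 2) =
      ∫ t in (0 : ℝ)..3, F t := by
    refine intervalIntegral.integral_congr fun t ht => ?_
    rw [uIcc_of_le (by norm_num)] at ht
    simp only [hF]
    rw [(hSd t).deriv, (hΘd t).deriv, hfg _ (hSI t ht)]
  rw [hE]
  have ii : ∀ x y : ℝ, IntervalIntegrable F volume x y := fun x y => hFc.intervalIntegrable x y
  rw [← intervalIntegral.integral_add_adjacent_intervals (ii 0 1) (ii 1 3),
    ← intervalIntegral.integral_add_adjacent_intervals (ii 1 2) (ii 2 3)]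
  set G : ℝ → ℝ := fun s => √(1 + g s ^ 2 * h s ^ 2) with hG
  have hGc : Continuous G := by
    refine Real.continuous_sqrt.comp ?_
    exact continuous_const.add ((hg.pow 2).mul (hh.pow 2))
  have p1 : ∫ t in (0 : ℝ)..1, F t = ∫ s in (0 : ℝ)..s₁, G s := by
    have e1 : ∫ t in (0 : ℝ)..1, F t = ∫ t in (0 : ℝ)..1, (G ∘ fun t => s₁ * rr t) t * (s₁ * kk t) := by
      refine intervalIntegral.integral_congr fun t ht => ?_
      rw [uIcc_of_le zero_le_one] at ht
      simp only [hF, hG, Function.comp, hS]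
      rw [kk_left (by linarith [ht.2] : t - 1 ≤ 0), kk_left (by linarith [ht.2] : t - 2 ≤ 0),
        rr_left (by linarith [ht.2] : t - 2 ≤ 0)]
      have e2 : (s₁ * (kk t - 0)) ^ 2 + g (s₁ * (rr t - 0)) ^ 2 *
          (h (s₁ * rr t) * (s₁ * kk t) + a * 0 + h (s₁ * (1 - 0)) * (s₁ * 0)) ^ 2 =
          (1 + g (s₁ * rr t) ^ 2 * h (s₁ * rr t) ^ 2) * (s₁ * kk t) ^ 2 := by
        rw [sub_zero, sub_zero]; ring
      rw [e2, Real.sqrt_mul' _ (sq_nonneg _), Real.sqrt_sq (mul_nonneg h0 (kk_nonneg t))]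
    rw [e1, intervalIntegral.integral_comp_mul_deriv (f := fun t => s₁ * rr t)
      (f' := fun t => s₁ * kk t) (fun x _ => (rr_deriv x).const_mul s₁)
      (continuous_const.mul kk_cont).continuousOn hGc, rr_one, rr_zero, mul_one, mul_zero]
  have p2 : ∫ t in (1 : ℝ)..2, F t = g s₁ * |a| := by
    have e1 : ∫ t in (1 : ℝ)..2, F t = ∫ t in (1 : ℝ)..2, g s₁ * |a| * kk (t - 1) := by
      refine intervalIntegral.integral_congr fun t ht => ?_
      rw [uIcc_of_le (by norm_num)] at ht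
      simp only [hF, hS]
      rw [kk_right ht.1, kk_left (by linarith [ht.2] : t - 2 ≤ 0),
        rr_left (by linarith [ht.2] : t - 2 ≤ 0), rr_right ht.1]
      have e2 : (s₁ * ((0 : ℝ) - 0)) ^ 2 + g (s₁ * (1 - 0)) ^ 2 *
          (h (s₁ * 1) * (s₁ * 0) + a * kk (t - 1) + h (s₁ * (1 - 0)) * (s₁ * 0)) ^ 2 =
          (g s₁ * |a| * kk (t - 1)) ^ 2 := by
        rw [sub_zero, sub_zero, mul_one, mul_pow (g s₁ * |a|), mul_pow (g s₁), sq_abs]; ring
      rw [e2, Real.sqrt_sq]
      exact mul_nonneg (mul_nonneg hg0 (abs_nonneg _)) (kk_nonneg _)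
    rw [e1, intervalIntegral.integral_const_mul]
    have e3 : ∫ t in (1 : ℝ)..2, kk (t - 1) = 1 := by
      rw [intervalIntegral.integral_comp_sub_right (fun t => kk t) 1]
      norm_num
      exact rr_one
    rw [e3, mul_one]
  have p3 : ∫ t in (2 : ℝ)..3, F t = ∫ s in (0 : ℝ)..s₁, G s := by
    have e1 : ∫ t in (2 : ℝ)..3, F t = ∫ t in (2 : ℝ)..3,
        -((G ∘ fun t => s₁ * (1 - rr (t - 2))) t * (s₁ * -kk (t - 2))) := by
      refine intervalIntegral.integral_congr fun t ht => ?_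
      rw [uIcc_of_le (by norm_num)] at ht
      simp only [hF, hG, Function.comp, hS]
      rw [kk_right (by linarith [ht.1] : 1 ≤ t), kk_right (by linarith [ht.1] : 1 ≤ t - 1),
        rr_right (by linarith [ht.1] : 1 ≤ t)]
      have e2 : (s₁ * ((0 : ℝ) - kk (t - 2))) ^ 2 + g (s₁ * (1 - rr (t - 2))) ^ 2 *
          (h (s₁ * 1) * (s₁ * 0) + a * 0 + h (s₁ * (1 - rr (t - 2))) * (s₁ * kk (t - 2))) ^ 2 =
          (1 + g (s₁ * (1 - rr (t - 2))) ^ 2 * h (s₁ * (1 - rr (t - 2))) ^ 2) *
            (s₁ * kk (t - 2)) ^ 2 := by ring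
      rw [e2, Real.sqrt_mul' _ (sq_nonneg _), Real.sqrt_sq (mul_nonneg h0 (kk_nonneg _))]
      ring
    rw [e1, intervalIntegral.integral_neg,
      intervalIntegral.integral_comp_mul_deriv (f := fun t => s₁ * (1 - rr (t - 2)))
        (f' := fun t => s₁ * -kk (t - 2)) (fun x _ => ((hsub 2 x).const_sub 1).const_mul s₁)
        (continuous_const.mul (kc 2).neg).continuousOn hGc]
    have e4 : rr (2 - 2) = 0 := rr_left (by norm_num)
    have e5 : rr (3 - 2) = 1 := rr_right (by norm_num)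
    rw [e4, e5, sub_self, mul_zero, sub_zero, mul_one, intervalIntegral.integral_symm, neg_neg]
  rw [p1, p2, p3]
  linarith

end Pool.Agent.J6H78.FC
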