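import Pool.Agent.J6H78.FC.Hor2
import Pool.Agent.J6H78.FC.Det

/-! # Slices conformal to forms with constant stretches -/

set_option autoImplicit false

open MeasureTheory Set Real Metric
open scoped ENNReal

namespace Pool.Agent.J6H78.FC

open Pool.Agent.Y499.HC Pool.Agent.Y499.HR Pool.Agent.Y502.HC Pool.Agent.Y249.HC

/-- The geodesic condition is closed. -/
lemma NS_limit {R : ℝ} {f B : ℝ → ℝ} (hf : ContinuousOn f (Ico 0 R))
    (hB : ContinuousOn B (Ico 0 R)) (hB0 : ∀ s ∈ Ico 0 R, 0 ≤ B s)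
    (h : ∀ ε > 0, NS R fun s => √(f s ^ 2 + ε * B s)) : NS R f := by
  intro s θ hs hθ hsR hs0 hs3 hθ0 hθ3
  have hsc' : Continuous (deriv s) := hs.continuous_deriv le_rfl
  have hθc' : Continuous (deriv θ) := hθ.continuous_deriv le_rfl
  have hcomp : ∀ {F : ℝ → ℝ}, ContinuousOn F (Ico 0 R) → ContinuousOn (fun t => F (s t)) (Icc 0 3) :=
    fun hF => hF.comp hs.continuous.continuousOn fun t ht => hsR t ht
  set L := ∫ t in (0 : ℝ)..3, √(deriv s t ^ 2 + f (s t) ^ 2 * deriv θ t ^ 2) with hL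
  set C := ∫ t in (0 : ℝ)..3, √(B (s t)) * |deriv θ t| with hC
  have i1 : IntervalIntegrable (fun t => √(deriv s t ^ 2 + f (s t) ^ 2 * deriv θ t ^ 2)) volume 0 3 := by
    refine ContinuousOn.intervalIntegrable ?_
    rw [uIcc_of_le (by norm_num)]
    exact Real.continuous_sqrt.comp_continuousOn ((hsc'.pow 2).continuousOn.add
      (((hcomp hf).pow 2).mul (hθc'.pow 2).continuousOn))
  have i2 : IntervalIntegrable (fun t => √(B (s t)) * |deriv θ t|) volume 0 3 := by
    refine ContinuousOn.intervalIntegrable ?_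
    rw [uIcc_of_le (by norm_num)]
    exact (Real.continuous_sqrt.comp_continuousOn (hcomp hB)).mul hθc'.abs.continuousOn
  have hC0 : 0 ≤ C := intervalIntegral.integral_nonneg (by norm_num) fun t _ =>
    mul_nonneg (Real.sqrt_nonneg _) (abs_nonneg _)
  have key : ∀ δ > 0, π ≤ L + δ * C := by
    intro δ hδ
    have h1 := h (δ ^ 2) (by positivity) s θ hs hθ hsR hs0 hs3 hθ0 hθ3
    refine h1.trans ?_
    rw [hL, hC, ← intervalIntegral.integral_const_mul, ← intervalIntegral.integral_add i1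
      (i2.const_mul δ)]
    refine intervalIntegral.integral_mono_on (by norm_num) ?_ (i1.add (i2.const_mul δ))
      fun t ht => ?_
    · refine ContinuousOn.intervalIntegrable ?_
      rw [uIcc_of_le (by norm_num)]
      refine Real.continuous_sqrt.comp_continuousOn ((hsc'.pow 2).continuousOn.add
        (ContinuousOn.mul (ContinuousOn.pow ?_ 2) (hθc'.pow 2).continuousOn))
      exact Real.continuous_sqrt.comp_continuousOn (((hcomp hf).pow 2).add
        (continuousOn_const.mul (hcomp hB)))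
    · have hb := hB0 (s t) (hsR t ht)
      rw [Real.sq_sqrt (by positivity)]
      have e1 : deriv s t ^ 2 + (f (s t) ^ 2 + δ ^ 2 * B (s t)) * deriv θ t ^ 2 =
          (deriv s t ^ 2 + f (s t) ^ 2 * deriv θ t ^ 2) +
            (δ * (√(B (s t)) * |deriv θ t|)) ^ 2 := by
        rw [mul_pow, mul_pow, Real.sq_sqrt hb, sq_abs]
        ring
      rw [e1]
      refine Real.sqrt_le_iff.2 ⟨by positivity, ?_⟩
      rw [add_sq, Real.sq_sqrt (by positivity)]
      have : 0 ≤ 2 * √(deriv s t ^ 2 + f (s t) ^ 2 * deriv θ t ^ 2) *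
        (δ * (√(B (s t)) * |deriv θ t|)) := by positivity
      linarith
  refine le_of_forall_pos_le_add fun η hη => ?_
  have h2 := key (η / (C + 1)) (div_pos hη (by linarith))
  refine h2.trans ?_
  have h3 : η / (C + 1) * C ≤ η := by
    rw [div_mul_eq_mul_div, div_le_iff₀ (by linarith)]
    nlinarith
  linarith

/-- The root mean square of the conformal factor. -/
noncomputable def rms {d : ℕ} (κ : ℝ → E d → ℝ) (s : ℝ) : ℝ := √(∫ x : Sph d, κ s x ^ 2 ∂(σn d))

lemma rms_sq {d : ℕ} (κ : ℝ → E d → ℝ) (s : ℝ) : rms κ s ^ 2 = ∫ x : Sph d, κ s x ^ 2 ∂(σn d) :=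
  Real.sq_sqrt (integral_nonneg fun _ => sq_nonneg _)

lemma rms_nonneg {d : ℕ} (κ : ℝ → E d → ℝ) (s : ℝ) : 0 ≤ rms κ s := Real.sqrt_nonneg _

lemma rms_cont {d : ℕ} {R : ℝ} {κ : ℝ → E d → ℝ}
    (hκ : ContinuousOn (fun p : ℝ × E d => κ p.1 p.2) (Ico 0 R ×ˢ sphere 0 1)) :
    ContinuousOn (rms κ) (Ico 0 R) := by
  rw [continuousOn_iff_continuous_domRestrict]
  have h1 : Continuous (Function.uncurry fun (s : Ico (0 : ℝ) R) (x : Sph d) =>
      κ (s : ℝ) (x : E d) ^ 2) := by
    refine Continuous.pow ?_ 2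
    have : Continuous fun p : Ico (0 : ℝ) R × Sph d => ((p.1 : ℝ), (p.2 : E d)) :=
      (continuous_subtype_val.comp continuous_fst).prodMk (continuous_subtype_val.comp continuous_snd)
    rw [← continuousOn_univ] at this ⊢
    exact hκ.comp this fun p _ => ⟨p.1.2, p.2.2⟩
  have : LocallyCompactSpace (Ico (0 : ℝ) R) := isLocallyClosed_Ico.locallyCompactSpace
  have h2 := continuous_parametric_integral_of_continuous (μ := σn d) h1 (isCompact_univ)
  simp only [Measure.restrict_univ] at h2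
  exact Real.continuous_sqrt.comp h2

/-- The geodesic condition for a uniform law. -/
theorem NS_ulaw {d : ℕ} {R : ℝ} {m : Met d} (hm : Good R m) (hF : Fermi R m)
    (hS : NonShort R m) {P : Measure (E d × E d)} (hP : ULaw P) {κ : ℝ → E d → ℝ}
    (hκ : ContinuousOn (fun p : ℝ × E d => κ p.1 p.2) (Ico 0 R ×ˢ sphere 0 1)) {β : ℝ → ℝ}
    (hβ : ContinuousOn β (Ico 0 R))
    (h : ∀ s ∈ Ico 0 R, ∀ θ, ∀ᵐ p ∂P,
      quad (m.g s (circ p θ)) (circ' p θ) ≤ κ s (circ p θ) ^ 2 * β s ^ 2) :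
    NS R fun s => rms κ s * β s := by
  have := hP.prob
  refine NS_of_law hm hF hS P hP.mem ((rms_cont hκ).mul hβ) fun s hs θ => ?_
  have hκs : ContinuousOn (fun x => κ s x ^ 2) (sphere (0 : E d) 1) := by
    refine ContinuousOn.pow ?_ 2
    exact hκ.comp (f := fun x : E d => (s, x)) (Continuous.prodMk_right s).continuousOn
      fun x hx => ⟨hs, hx⟩
  have hcirc : ContinuousOn (fun p : E d × E d => circ p θ) (Pairs d) := by
    unfold circ
    fun_prop
  have i1 : Integrable (fun p => quad (m.g s (circ p θ)) (circ' p θ)) P := by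
    refine law_int hP.mem (quad_cont hm continuousOn_const hcirc ?_ (fun _ _ => hs)
      fun p hp => circ_norm hp θ)
    unfold circ'
    fun_prop
  have i2 : Integrable (fun p => κ s (circ p θ) ^ 2 * β s ^ 2) P := by
    refine law_int hP.mem (ContinuousOn.mul ?_ continuousOn_const)
    exact hκs.comp hcirc fun p hp => by simpa using circ_norm hp θ
  refine (integral_mono_ae i1 i2 (h s hs θ)).trans (le_of_eq ?_)
  rw [integral_mul_const, hP.unif _ hκs θ, mul_pow, rms_sq]

/-- Slices which are conformal to forms with the stretches `b (j + 1)` along the vector fields `J j`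
and the stretch `b 0` in the orthogonal directions. -/
def CliffSlices {d k : ℕ} (R : ℝ) (m : Met d) (J : Fin k → E d →ₗ[ℝ] E d) (κ : ℝ → E d → ℝ)
    (b : Fin (k + 1) → ℝ → ℝ) : Prop :=
  ∀ s ∈ Ico 0 R, ∀ x ∈ sphere (0 : EuclideanSpace ℝ (Fin (d + 1))) 1,
    ∀ v : EuclideanSpace ℝ (Fin (d + 1)), inner ℝ x v = (0 : ℝ) →
      quad (m.g s x) v = κ s x ^ 2 * (b 0 s ^ 2 * ‖v‖ ^ 2 +
        ∑ j, (b j.succ s ^ 2 - b 0 s ^ 2) * inner ℝ (J j x) v ^ 2)

lemma circ'_norm {d : ℕ} {p : E d × E d} (hp : p ∈ Pairs d) (θ : ℝ) : ‖circ' p θ‖ = 1 := by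
  have h21 : inner ℝ p.2 p.1 = (0 : ℝ) := by rw [real_inner_comm]; exact hp.2.2
  have h : ‖circ' p θ‖ ^ 2 = 1 := by
    rw [circ', ← real_inner_self_eq_norm_sq]
    simp only [inner_add_left, inner_add_right, real_inner_smul_left, real_inner_smul_right,
      real_inner_self_eq_norm_sq, norm_smul, Real.norm_eq_abs, mul_pow, sq_abs, hp.1, hp.2.1,
      hp.2.2, h21]
    nlinarith [Real.sin_sq_add_cos_sq θ]
  have h2 := norm_nonneg (circ' p θ)
  nlinarith

section slices

variable {d k : ℕ} {R : ℝ} {m : Met d} {J : Fin k → E d →ₗ[ℝ] E d} {κ : ℝ → E d → ℝ}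
  {b : Fin (k + 1) → ℝ → ℝ}

/-- The vertical directions. -/
theorem NS_vert (hm : Good R m) (hF : Fermi R m) (hS : NonShort R m) (hJ : IsCliff J)
    (hκ : ContinuousOn (fun p : ℝ × E d => κ p.1 p.2) (Ico 0 R ×ˢ sphere 0 1))
    (hb : ∀ i, ContinuousOn (b i) (Ico 0 R)) (hsl : CliffSlices R m J κ b) (j : Fin k) :
    NS R fun s => rms κ s * b j.succ s := by
  refine NS_ulaw hm hF hS (cliff_law hJ j) hκ (hb j.succ) fun s hs θ => ?_
  have hJc : Continuous (J j) := (J j).continuous_of_finiteDimensional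
  have hc : Continuous fun x : Sph d => ((x : E d), J j (x : E d)) :=
    continuous_subtype_val.prodMk (hJc.comp continuous_subtype_val)
  have hms : MeasurableSet {p : E d × E d | p.2 = J j p.1} :=
    (isClosed_eq continuous_snd (hJc.comp continuous_fst)).measurableSet
  have h1 : ∀ᵐ p ∂((σn d).map fun x : Sph d => ((x : E d), J j (x : E d))), p.2 = J j p.1 :=
    (ae_map_iff (p := fun p : E d × E d => p.2 = J j p.1) hc.measurable.aemeasurable hms).2
      (Filter.Eventually.of_forall fun x => rfl)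
  filter_upwards [h1, (cliff_law hJ j).mem] with p hp hmem
  have hx := circ_norm hmem θ
  rw [hsl s hs _ (by simpa using hx) _ (circ_orth hmem θ)]
  have e1 : circ' p θ = J j (circ p θ) := by
    have : p = (p.1, J j p.1) := Prod.ext rfl hp
    rw [this]
    exact cl_circ hJ j _ _
  rw [e1, cl_norm hJ, hx, Finset.sum_eq_single j]
  · rw [cl_inner hJ, real_inner_self_eq_norm_sq, hx]
    refine le_of_eq ?_
    ring
  · intro l _ hl
    rw [cl_anti hJ hl]
    ring
  · intro h
    exact absurd (Finset.mem_univ j) h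

end slices

/-- The horizontal directions. -/
theorem NS_hor {d k : ℕ} {R : ℝ} {m : Met (d + 1)} {J : Fin k → E (d + 1) →ₗ[ℝ] E (d + 1)}
    {κ : ℝ → E (d + 1) → ℝ} {b : Fin (k + 1) → ℝ → ℝ} (hk : k < d + 1)
    (hm : Good R m) (hF : Fermi R m) (hS : NonShort R m) (hJ : IsCliff J)
    (hκ : ContinuousOn (fun p : ℝ × E (d + 1) => κ p.1 p.2) (Ico 0 R ×ˢ sphere 0 1))
    (hb : ∀ i, ContinuousOn (b i) (Ico 0 R)) (hsl : CliffSlices R m J κ b) :
    NS R fun s => rms κ s * b 0 s := by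
  have hsum : ContinuousOn (fun s => ∑ j : Fin k, b j.succ s ^ 2) (Ico 0 R) :=
    continuousOn_finsetSum _ fun j _ => (hb j.succ).pow 2
  have hs0 : ∀ s, 0 ≤ ∑ j : Fin k, b j.succ s ^ 2 := fun s =>
    Finset.sum_nonneg fun j _ => sq_nonneg _
  refine NS_limit (B := fun s => rms κ s ^ 2 * ∑ j : Fin k, b j.succ s ^ 2)
    ((rms_cont hκ).mul (hb 0)) (((rms_cont hκ).pow 2).mul hsum)
    (fun s _ => mul_nonneg (sq_nonneg _) (hs0 s)) fun ε hε => ?_
  obtain ⟨P, hP, hPε⟩ := hor_law hk hJ hε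
  have h1 := NS_ulaw hm hF hS hP hκ
    (β := fun s => √(b 0 s ^ 2 + ε * ∑ j : Fin k, b j.succ s ^ 2))
    (Real.continuous_sqrt.comp_continuousOn (((hb 0).pow 2).add (continuousOn_const.mul hsum)))
    (fun s hs θ => by
      filter_upwards [hPε, hP.mem] with p hp hmem
      have hx := circ_norm hmem θ
      rw [hsl s hs _ (by simpa using hx) _ (circ_orth hmem θ), circ'_norm hmem θ,
        Real.sq_sqrt (add_nonneg (sq_nonneg _) (mul_nonneg hε.le (hs0 s)))]
      refine mul_le_mul_of_nonneg_left ?_ (sq_nonneg _)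
      have e1 : ∑ j, (b j.succ s ^ 2 - b 0 s ^ 2) * inner ℝ (J j (circ p θ)) (circ' p θ) ^ 2 ≤
          ∑ j, (∑ l : Fin k, b l.succ s ^ 2) * inner ℝ (J j p.1) p.2 ^ 2 := by
        refine Finset.sum_le_sum fun j _ => ?_
        rw [cl_phi hJ]
        refine mul_le_mul_of_nonneg_right ?_ (sq_nonneg _)
        have := Finset.single_le_sum (f := fun l : Fin k => b l.succ s ^ 2)
          (fun l _ => sq_nonneg _) (Finset.mem_univ j)
        linarith [sq_nonneg (b 0 s)]
      rw [← Finset.mul_sum] at e1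
      have e2 := mul_le_mul_of_nonneg_left hp (hs0 s)
      linarith)
  have e2 : (fun s => rms κ s * √(b 0 s ^ 2 + ε * ∑ j : Fin k, b j.succ s ^ 2)) =
      fun s => √((rms κ s * b 0 s) ^ 2 + ε * (rms κ s ^ 2 * ∑ j : Fin k, b j.succ s ^ 2)) := by
    funext s
    have : (rms κ s * b 0 s) ^ 2 + ε * (rms κ s ^ 2 * ∑ j : Fin k, b j.succ s ^ 2) =
        rms κ s ^ 2 * (b 0 s ^ 2 + ε * ∑ j : Fin k, b j.succ s ^ 2) := by ring
    rw [this, Real.sqrt_mul (sq_nonneg _), Real.sqrt_sq (rms_nonneg κ s)]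
  rw [e2] at h1
  exact h1

end Pool.Agent.J6H78.FC
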